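import Pool.Agent.Work.MP_02669e_wr.Interface

set_option autoImplicit false

namespace Pool.WR

open At A4

/-- the network on two points -/
def BAS_N (x y : ℕ) : Finset At := if x = y then {e} else {a}

/-- its world -/
def BAS_w (x y : ℕ) : A4 := if x = y then E else J

theorem BAS_world : World 2 BAS_w := by
  refine ⟨?_, ?_, ?_⟩
  · intro x hx
    interval_cases x <;> decide
  · intro x hx y hy
    interval_cases x <;> interval_cases y <;> decide
  · intro x hx y hy z hz
    interval_cases x <;> interval_cases y <;> interval_cases z <;> decide

theorem BAS_worldOf : WorldOf 2 BAS_N BAS_w := by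
  refine ⟨BAS_world, ?_⟩
  intro x hx y hy
  interval_cases x <;> interval_cases y
  · exact ⟨e, by decide, by decide⟩
  · exact ⟨a, by decide, by decide⟩
  · exact ⟨a, by decide, by decide⟩
  · exact ⟨e, by decide, by decide⟩

theorem p_BAS : Stmt_BAS := by
  refine ⟨BAS_N, ?_, ?_, ?_, ?_, ?_, ?_⟩
  · intro x hx
    interval_cases x <;> decide
  · intro x hx y hy c
    interval_cases x <;> interval_cases y <;> cases c <;> decide
  · intro x hx y hy hne
    interval_cases x <;> interval_cases y
    · exact absurd rfl hne
    · exact ⟨a, by decide, by decide⟩
    · exact ⟨a, by decide, by decide⟩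
    · exact absurd rfl hne
  · intro x hx y hy c hc
    refine ⟨BAS_w, BAS_worldOf, ?_⟩
    revert hc
    interval_cases x <;> interval_cases y <;> cases c <;> decide
  · intro x hx y hy z hz c hcol h1 h2
    rcases hcol with hc | hc <;> subst hc <;> revert h1 h2 <;>
      interval_cases x <;> interval_cases y <;> interval_cases z <;> decide
  · intro x hx y hy z hz he
    revert he
    interval_cases x <;> interval_cases y <;> interval_cases z
    · exact fun _ => ⟨e, by decide, by decide⟩
    · exact fun _ => ⟨a, by decide, by decide⟩
    · exact fun h => absurd h (by decide)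
    · exact fun h => absurd h (by decide)
    · exact fun h => absurd h (by decide)
    · exact fun h => absurd h (by decide)
    · exact fun _ => ⟨a, by decide, by decide⟩
    · exact fun _ => ⟨e, by decide, by decide⟩

end Pool.WR
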