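import Pool.Agent.Work.MP_02669e_wr.Interface

/-! Block COR: a new point may be added to a network. -/

namespace Pool.WR

open At A4

section COR
variable {k : ℕ} {N : ℕ → ℕ → Finset At} {L : ℕ → Finset At} {ω : ℕ → ℕ → A4} {ρ : ℕ → A4}

theorem COR_old {x y : ℕ} (hx : x < k) (hy : y < k) : ext k N L x y = N x y := by
  unfold ext; rw [if_neg hx.ne, if_neg hy.ne]

theorem COR_kl {y : ℕ} (hy : y < k) : ext k N L k y = L y := by
  unfold ext; rw [if_pos rfl, if_neg hy.ne]

theorem COR_lk {x : ℕ} (hx : x < k) : ext k N L x k = cnv (L x) := by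
  unfold ext; rw [if_neg hx.ne, if_pos rfl]

theorem COR_kk : ext k N L k k = {e} := by unfold ext; simp

theorem COR_wold {x y : ℕ} (hx : x < k) (hy : y < k) : extw k ω ρ x y = ω x y := by
  unfold extw; rw [if_neg hx.ne, if_neg hy.ne]

theorem COR_wkl {y : ℕ} (hy : y < k) : extw k ω ρ k y = ρ y := by
  unfold extw; rw [if_pos rfl, if_neg hy.ne]

theorem COR_wlk {x : ℕ} (hx : x < k) : extw k ω ρ x k = cv4 (ρ x) := by
  unfold extw; rw [if_neg hx.ne, if_pos rfl]

theorem COR_wkk : extw k ω ρ k k = E := by unfold extw; simp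

theorem COR_cnv {M : Finset At} {c : At} (hc : Col c) : cnv M = {c} ↔ M = {c} := by
  have h0 : cnv {c} = {c} := by unfold cnv; rw [Finset.image_singleton, hc.conv]
  constructor
  · intro h
    have h2 := congrArg cnv h
    rwa [cnv_cnv, h0] at h2
  · rintro rfl
    exact h0

theorem COR_lt {x : ℕ} (hx : x < k + 1) : x < k ∨ x = k := by omega

theorem COR_world (h1 : Stmt_EXW) (h : RowOf k N L ω ρ) :
    WorldOf (k + 1) (ext k N L) (extw k ω ρ) := by
  obtain ⟨hw, hr, hl⟩ := h
  refine ⟨h1 k ω ρ hw.1 hr, fun x hx y hy => ?_⟩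
  rcases COR_lt hx with hx | hxk <;> rcases COR_lt hy with hy | hyk
  · rw [COR_old hx hy, COR_wold hx hy]; exact hw.2 x hx y hy
  · subst hyk
    rw [COR_lk hx, COR_wlk hx]
    obtain ⟨c, hc, hp⟩ := hl x hx
    exact ⟨conv c, by rwa [mem_cnv, conv_conv], by rw [proj_conv, hp]⟩
  · subst hxk
    rw [COR_kl hy, COR_wkl hy]
    exact hl y hy
  · subst hxk; subst hyk
    rw [COR_kk, COR_wkk]
    exact ⟨e, by simp, rfl⟩

end COR

theorem p_COR (h1 : Stmt_EXW) : Stmt_COR := by
  intro k N L hI hR
  refine ⟨?_, ?_, ?_, ?_, ?_, ?_⟩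
  · intro x hx
    rcases COR_lt hx with hx | hxk
    · rw [COR_old hx hx]; exact hI.diag x hx
    · subst hxk; exact COR_kk
  · intro x hx y hy c hc
    rcases COR_lt hx with hx | hxk <;> rcases COR_lt hy with hy | hyk
    · rw [COR_old hx hy] at hc; rw [COR_old hy hx]; exact hI.symm x hx y hy c hc
    · subst hyk; rw [COR_lk hx] at hc; rw [COR_kl hx]; exact mem_cnv.1 hc
    · subst hxk; rw [COR_kl hy] at hc; rw [COR_lk hy, mem_cnv, conv_conv]; exact hc
    · subst hxk; subst hyk
      rw [COR_kk, Finset.mem_singleton] at hc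
      subst hc
      rw [COR_kk]; decide
  · intro x hx y hy hne
    rcases COR_lt hx with hx | hxk <;> rcases COR_lt hy with hy | hyk
    · rw [COR_old hx hy]; exact hI.div x hx y hy hne
    · subst hyk
      rw [COR_lk hx]
      obtain ⟨c, hc, hce⟩ := hR.div x hx
      refine ⟨conv c, by rwa [mem_cnv, conv_conv], fun h => hce ?_⟩
      rw [← conv_conv c, h]; rfl
    · subst hxk
      rw [COR_kl hy]
      exact hR.div y hy
    · subst hxk; exact absurd hyk.symm hne
  · intro x hx y hy c hc
    rcases COR_lt hx with hx | hxk <;> rcases COR_lt hy with hy | hyk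
    · rw [COR_old hx hy] at hc
      obtain ⟨ω, hω, he⟩ := hI.exact x hx y hy c hc
      obtain ⟨ρ, hρ⟩ := hR.ext ω hω
      exact ⟨extw k ω ρ, COR_world h1 hρ, by rw [COR_wold hx hy]; exact he⟩
    · subst hyk
      rw [COR_lk hx, mem_cnv] at hc
      obtain ⟨ω, ρ, hρ, he⟩ := hR.real x hx _ hc
      exact ⟨extw y ω ρ, COR_world h1 hρ, by rw [COR_wlk hx, he, proj_conv, cv4_cv4]⟩
    · subst hxk
      rw [COR_kl hy] at hc
      obtain ⟨ω, ρ, hρ, he⟩ := hR.real y hy _ hc
      exact ⟨extw x ω ρ, COR_world h1 hρ, by rw [COR_wkl hy, he]⟩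
    · subst hxk; subst hyk
      rw [COR_kk, Finset.mem_singleton] at hc
      subst hc
      obtain ⟨ω, hω⟩ : ∃ ω, WorldOf y N ω := by
        rcases Nat.eq_zero_or_pos y with h0 | h0
        · subst h0
          exact ⟨fun _ _ => E, ⟨fun x hx => absurd hx (Nat.not_lt_zero _),
            fun x hx => absurd hx (Nat.not_lt_zero _),
            fun x hx => absurd hx (Nat.not_lt_zero _)⟩,
            fun x hx => absurd hx (Nat.not_lt_zero _)⟩
        · have h2 : e ∈ N 0 0 := by rw [hI.diag 0 h0]; simp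
          obtain ⟨ω, hω, -⟩ := hI.exact 0 h0 0 h0 e h2
          exact ⟨ω, hω⟩
      obtain ⟨ρ, hρ⟩ := hR.ext ω hω
      exact ⟨extw y ω ρ, COR_world h1 hρ, by rw [COR_wkk]; rfl⟩
  · intro x hx y hy z hz c hc hxz hzy hcm
    rcases COR_lt hz with hz | hzk
    · rcases COR_lt hx with hx | hxk
      · rcases COR_lt hy with hy | hyk
        · rw [COR_old hx hz] at hxz; rw [COR_old hz hy] at hzy; rw [COR_old hx hy] at hcm
          exact hI.c1 x hx y hy z hz c hc hxz hzy hcm
        · subst hyk
          rw [COR_old hx hz] at hxz; rw [COR_lk hz, COR_cnv hc] at hzy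
          rw [COR_lk hx, mem_cnv, hc.conv] at hcm
          exact hR.c1a z hz x hx c hc hzy ((hI.symm_col hx hz hc).1 hxz) hcm
      · subst hxk
        rcases COR_lt hy with hy | hyk
        · rw [COR_kl hz] at hxz; rw [COR_old hz hy] at hzy; rw [COR_kl hy] at hcm
          exact hR.c1a z hz y hy c hc hxz hzy hcm
        · subst hyk
          rw [COR_kk, Finset.mem_singleton] at hcm
          exact hc.ne_e hcm
    · subst hzk
      rcases COR_lt hx with hx | hxk
      · rcases COR_lt hy with hy | hyk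
        · rw [COR_lk hx, COR_cnv hc] at hxz; rw [COR_kl hy] at hzy; rw [COR_old hx hy] at hcm
          exact hR.c1b x hx y hy c hc hxz hzy hcm
        · subst hyk
          rw [COR_kk] at hzy
          exact hc.ne_e (Finset.singleton_injective hzy).symm
      · subst hxk
        rw [COR_kk] at hxz
        exact hc.ne_e (Finset.singleton_injective hxz).symm
  · intro x hx y hy z hz he
    rcases COR_lt hx with hx | hxk
    · rcases COR_lt hy with hy | hyk
      · rw [COR_old hx hy] at he
        rcases COR_lt hz with hz | hzk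
        · rw [COR_old hx hz, COR_old hy hz]; exact hI.c2 x hx y hy z hz he
        · subst hzk
          obtain ⟨c, h2, h3⟩ := hR.c2a x hx y hy he
          rw [COR_lk hx, COR_lk hy]
          exact ⟨conv c, by rwa [mem_cnv, conv_conv], by rwa [mem_cnv, conv_conv]⟩
      · subst hyk
        rw [COR_lk hx] at he
        have he' : e ∈ L x := mem_cnv.1 he
        rcases COR_lt hz with hz | hzk
        · obtain ⟨c, h2, h3⟩ := hR.c2b z hz x hx he'
          rw [COR_old hx hz, COR_kl hz]; exact ⟨c, h3, h2⟩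
        · subst hzk
          rw [COR_lk hx, COR_kk]; exact ⟨e, he, by simp⟩
    · subst hxk
      rcases COR_lt hy with hy | hyk
      · rw [COR_kl hy] at he
        rcases COR_lt hz with hz | hzk
        · obtain ⟨c, h2, h3⟩ := hR.c2b z hz y hy he
          rw [COR_kl hz, COR_old hy hz]; exact ⟨c, h2, h3⟩
        · subst hzk
          rw [COR_kk, COR_lk hy]; exact ⟨e, by simp, mem_cnv.2 he⟩
      · subst hyk
        rcases COR_lt hz with hz | hzk
        · obtain ⟨c, hc, -⟩ := hR.div z hz
          rw [COR_kl hz]; exact ⟨c, hc, hc⟩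
        · subst hzk
          rw [COR_kk]; exact ⟨e, by simp, by simp⟩

end Pool.WR
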