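import Pool.Agent.Work.MP_02669e_wr.Interface

/-! Block DIA. -/

namespace Pool.WR

open At A4

theorem DIA_conv {d d' : At} (h : e ∈ comp d d') : d' = conv d := by
  revert h; cases d <;> cases d' <;> decide

theorem DIA_aux (d : At) (hd : d ≠ e) : ∃ β0 : Finset At, ¬ Exc {d} β0 ∧
    ∀ x : At, x ∈ cmp {d} β0 := by
  cases d
  · exact absurd rfl hd
  · exact ⟨{a, b}, by unfold Exc; decide, by decide⟩
  · exact ⟨{a, b}, by unfold Exc; decide, by decide⟩
  · exact ⟨{a, s}, by unfold Exc; decide, by decide⟩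
  · exact ⟨{a, r}, by unfold Exc; decide, by decide⟩

theorem p_DIA (hRED : Stmt_RED) : Stmt_DIA := by
  intro k N u α β hI hk hu hsub
  have he : e ∈ cmp α β := hsub (by rw [hI.diag u hu]; simp)
  obtain ⟨d, hd, d', hd', hc⟩ := mem_cmp.1 he
  have hdc : d' = conv d := DIA_conv hc
  by_cases hde : d = e
  · subst hde
    have hde' : d' = e := hdc
    subst hde'
    apply Sat.of_wit hI
    refine ⟨u, hu, ?_, ?_⟩
    · rw [hI.diag u hu]; exact Finset.singleton_subset_iff.2 hd
    · rw [hI.diag u hu]; exact Finset.singleton_subset_iff.2 hd'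
  · obtain ⟨v, hv, hne⟩ : ∃ v, v < k ∧ u ≠ v := by
      by_cases h0 : u = 0
      · exact ⟨1, by omega, by omega⟩
      · exact ⟨0, by omega, h0⟩
    obtain ⟨β0, hexc, hall⟩ := DIA_aux d hde
    obtain ⟨k', N', hk', hI', ha, z, hz, h1, _⟩ :=
      hRED k N u v {d} β0 hI hu hv hne hexc (fun x _ => hall x)
    have hu' : u < k' := hu.trans_le hk'
    have heq : N' u z = {d} := by
      rcases Finset.subset_singleton_iff.1 h1 with h | h
      · obtain ⟨c, hc'⟩ := hI'.nonempty hu' hz
        rw [h] at hc'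
        simp at hc'
      · exact h
    have heq' : N' z u = {conv d} := hI'.symm_singleton hu' hz heq
    refine ⟨k', N', hk', hI', ha, z, hz, ?_, ?_⟩
    · rw [heq]; exact Finset.singleton_subset_iff.2 hd
    · rw [heq', ← hdc]; exact Finset.singleton_subset_iff.2 hd'

end Pool.WR
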