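import Pool.Agent.Work.MP_02669e_wr.Interface

/-! Block EXW: a world with a row is a world on one more point. -/

namespace Pool.WR

open At A4

theorem p_EXW : Stmt_EXW := by
  intro k ω ρ hW hR
  refine ⟨?_, ?_, ?_⟩
  · intro x hx
    by_cases h : x = k
    · simp [extw, h]
    · have hx' : x < k := by omega
      simp [extw, h, hW.refl x hx']
  · intro x hx y hy
    by_cases h : x = k <;> by_cases h' : y = k
    · simp [extw, h, h', cv4]
    · simp [extw, h, h']
    · simp [extw, h, h', cv4_cv4]
    · have hx' : x < k := by omega
      have hy' : y < k := by omega
      simp [extw, h, h', hW.symm x hx' y hy']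
  · intro x hx y hy z hz
    by_cases h1 : x = k <;> by_cases h2 : y = k <;> by_cases h3 : z = k
    · simp only [extw, h1, h2, h3, if_true]; rfl
    · simp only [extw, h1, h2, h3, if_true, if_false]
      exact tri_E_left.2 rfl
    · simp only [extw, h1, h2, h3, if_true, if_false]
      exact tri_E_right.2 rfl
    · have hy' : y < k := by omega
      have hz' : z < k := by omega
      simp only [extw, h1, h2, h3, if_true, if_false]
      exact hR y hy' z hz'
    · simp only [extw, h1, h2, h3, if_true, if_false]
      exact tri_E_mid.2 rfl
    · have hx' : x < k := by omega
      have hz' : z < k := by omega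
      simp only [extw, h1, h2, h3, if_true, if_false]
      rw [← tri_rot2]
      exact hR x hx' z hz'
    · have hx' : x < k := by omega
      have hy' : y < k := by omega
      simp only [extw, h1, h2, h3, if_true, if_false]
      rw [tri_cv, cv4_cv4, cv4_cv4, ← hW.symm x hx' y hy']
      exact hR y hy' x hx'
    · have hx' : x < k := by omega
      have hy' : y < k := by omega
      have hz' : z < k := by omega
      simp only [extw, h1, h2, h3, if_false]
      exact hW.tri x hx' y hy' z hz'

end Pool.WR
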