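import Pool.Agent.Work.MP_02669e_wr.Interface

/-! # Block FIN: the conclusion -/

namespace Pool.WR

open At A4

theorem FIN_cmp_mono {α β α' β' : Finset At} (h1 : α ⊆ α') (h2 : β ⊆ β') :
    cmp α β ⊆ cmp α' β' := by
  intro x hx
  rw [mem_cmp] at hx ⊢
  obtain ⟨d, hd, d', hd', h⟩ := hx
  exact ⟨d, h1 hd, d', h2 hd', h⟩

theorem FIN_not_exc (c : At) : ¬ Exc {c} {conv c} := by
  rintro ⟨c0, hc0, h1, h2, -, -, h3⟩
  rw [Finset.mem_singleton] at h1 h2
  rw [Finset.mem_singleton, Finset.mem_singleton] at h3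
  subst h1
  rcases hc0 with rfl | rfl <;> rcases h3 with h3 | h3 <;> revert h3 <;> decide

theorem FIN_e_mem (c : At) : ({e} : Finset At) ⊆ cmp {c} {conv c} := by
  cases c <;> decide

theorem p_FIN (h1 : Stmt_LIM) (h2 : Stmt_RED) (h3 : Stmt_DIA) (h4 : Stmt_PCL)
    (h5 : Stmt_BAS) : Stmt_FIN := by
  obtain ⟨K, M, hK0, hloc, hdem⟩ := h1 (by
    intro k N u v α β hI hk hu hv hE hs
    by_cases huv : u = v
    · subst huv
      exact h3 k N u α β hI hk hu hs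
    · exact h2 k N u v α β hI hu hv huv hE hs) h5
  have hne : ∀ x y, K x → K y → (M x y).Nonempty := by
    intro x y hx hy
    obtain ⟨k, N, hI, hxk, hyk, -, e1, -⟩ := hloc x y y hx hy hy
    rw [← e1]
    exact hI.nonempty hxk hyk
  have hdiag : ∀ x, K x → M x x = {e} := by
    intro x hx
    obtain ⟨k, N, hI, hxk, -, -, e1, -⟩ := hloc x x x hx hx hx
    rw [← e1]
    exact hI.diag x hxk
  have hdiv : ∀ x y, K x → K y → x ≠ y → ∃ c ∈ M x y, c ≠ e := by
    intro x y hx hy hxy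
    obtain ⟨k, N, hI, hxk, hyk, -, e1, -⟩ := hloc x y y hx hy hy
    rw [← e1]
    exact hI.div x hxk y hyk hxy
  have hcnv : ∀ x y, K x → K y → M y x = cnv (M x y) := by
    intro x y hx hy
    obtain ⟨k, N, hI, hxk, hyk, -, e1, -, -, e4, -⟩ := hloc x y y hx hy hy
    rw [← e1, ← e4]
    exact hI.cnv_eq hxk hyk
  have hpcl : ∀ x y z, K x → K y → K z → M x y ⊆ cmp (M x z) (M z y) := by
    intro x y z hx hy hz
    obtain ⟨k, N, hI, hxk, hyk, hzk, e1, e2, e3, -⟩ := hloc x y z hx hy hz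
    rw [← e1, ← e2, ← e3]
    exact h4 k N hI x hxk y hyk z hzk
  have hatom : ∀ c : At, ∃ z, K z ∧ M 0 z = {c} := by
    intro c
    obtain ⟨z, hz, hz1, -⟩ := hdem 0 0 {c} {conv c} hK0 hK0 (FIN_not_exc c)
      (by rw [hdiag 0 hK0]; exact FIN_e_mem c)
    refine ⟨z, hz, ?_⟩
    exact ((hne 0 z hK0 hz).subset_singleton_iff).1 hz1
  refine ⟨{x : ℕ // K x}, fun α => {p | M p.1.1 p.2.1 ⊆ α}, ?_, ?_, ?_, ?_, ?_, ?_, ?_⟩
  · -- injective
    have key : ∀ α β : Finset At, ({p | M p.1.1 p.2.1 ⊆ α} : Set ({x : ℕ // K x} × {x : ℕ // K x})) =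
        {p | M p.1.1 p.2.1 ⊆ β} → α ⊆ β := by
      intro α β hab c hc
      obtain ⟨z, hz, hzc⟩ := hatom c
      have hm : ((⟨0, hK0⟩, ⟨z, hz⟩) : {x : ℕ // K x} × {x : ℕ // K x}) ∈
          ({p | M p.1.1 p.2.1 ⊆ α} : Set ({x : ℕ // K x} × {x : ℕ // K x})) := by
        show M 0 z ⊆ α
        rw [hzc, Finset.singleton_subset_iff]
        exact hc
      rw [hab] at hm
      have hm' : M 0 z ⊆ β := hm
      rw [hzc, Finset.singleton_subset_iff] at hm'
      exact hm'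
    intro α β hab
    exact Finset.Subset.antisymm (key α β hab) (key β α hab.symm)
  · ext p
    simp only [Set.mem_setOf_eq, Set.mem_empty_iff_false, iff_false]
    intro hs
    obtain ⟨c, hc⟩ := hne p.1.1 p.2.1 p.1.2 p.2.2
    exact absurd (hs hc) (Finset.notMem_empty c)
  · intro α β
    ext p
    exact Finset.subset_inter_iff
  · ext p
    constructor
    · intro hs
      by_contra hxy
      obtain ⟨c, hc, hce⟩ := hdiv p.1.1 p.2.1 p.1.2 p.2.2 (fun h => hxy (Subtype.ext h))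
      exact hce (Finset.mem_singleton.1 (hs hc))
    · intro hp
      have hp' : p.1 = p.2 := hp
      show M p.1.1 p.2.1 ⊆ {e}
      rw [← hp', hdiag p.1.1 p.1.2]
  · intro α
    ext p
    show M p.1.1 p.2.1 ⊆ cnv α ↔ M p.2.1 p.1.1 ⊆ α
    rw [hcnv p.1.1 p.2.1 p.1.2 p.2.2]
    constructor
    · intro hs c hc
      rw [mem_cnv] at hc
      have := hs hc
      rw [mem_cnv, conv_conv] at this
      exact this
    · intro hs c hc
      rw [mem_cnv]
      apply hs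
      rw [mem_cnv, conv_conv]
      exact hc
  · rintro α β p ⟨z, hz1, hz2⟩
    have hz1' : M p.1.1 z.1 ⊆ α := hz1
    have hz2' : M z.1 p.2.1 ⊆ β := hz2
    exact (hpcl p.1.1 p.2.1 z.1 p.1.2 p.2.2 z.2).trans (FIN_cmp_mono hz1' hz2')
  · intro α β hE
    apply Set.Subset.antisymm
    · intro p hp
      obtain ⟨z, hz, hz1, hz2⟩ := hdem p.1.1 p.2.1 α β p.1.2 p.2.2 hE hp
      exact ⟨⟨z, hz⟩, hz1, hz2⟩
    · rintro p ⟨z, hz1, hz2⟩
      have hz1' : M p.1.1 z.1 ⊆ α := hz1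
      have hz2' : M z.1 p.2.1 ⊆ β := hz2
      exact (hpcl p.1.1 p.2.1 z.1 p.1.2 p.2.2 z.2).trans (FIN_cmp_mono hz1' hz2')

end Pool.WR
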