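import Pool.Agent.Work.MP_02669e_wr.Interface

/-! # MP_02669e_lc, block FRW: the fresh row is a row -/

namespace Pool.WR

open At A4

/-- each point is in a listed class (with its value), or in none (value `J`) -/
theorem FRW_cls (ω : ℕ → ℕ → A4) (u v q : ℕ) (d1 d2 d3 : A4) (x : ℕ) :
    (∃ p d, ((p = u ∧ d = d1) ∨ (p = v ∧ d = d2) ∨ (p = q ∧ d = d3)) ∧ ω p x = E ∧
      fr ω u v q d1 d2 d3 x = d) ∨
    (ω u x ≠ E ∧ ω v x ≠ E ∧ ω q x ≠ E ∧ fr ω u v q d1 d2 d3 x = J) := by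
  by_cases h1 : ω u x = E
  · exact Or.inl ⟨u, d1, Or.inl ⟨rfl, rfl⟩, h1, fr_u h1⟩
  by_cases h2 : ω v x = E
  · exact Or.inl ⟨v, d2, Or.inr (Or.inl ⟨rfl, rfl⟩), h2, fr_v h1 h2⟩
  by_cases h3 : ω q x = E
  · exact Or.inl ⟨q, d3, Or.inr (Or.inr ⟨rfl, rfl⟩), h3, fr_q h1 h2 h3⟩
  · exact Or.inr ⟨h1, h2, h3, fr_J h1 h2 h3⟩

/-- the values on the listed classes are compatible -/
theorem FRW_pair {k : ℕ} {ω : ℕ → ℕ → A4} {u v q : ℕ} {d1 d2 d3 : A4} (hω : World k ω)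
    (hu : u < k) (hv : v < k) (hq : q < k) (h12 : tri d1 (ω u v) d2 = true)
    (h13 : tri d1 (ω u q) d3 = true) (h23 : tri d2 (ω v q) d3 = true) {p p' : ℕ} {d d' : A4}
    (hp : (p = u ∧ d = d1) ∨ (p = v ∧ d = d2) ∨ (p = q ∧ d = d3))
    (hp' : (p' = u ∧ d' = d1) ∨ (p' = v ∧ d' = d2) ∨ (p' = q ∧ d' = d3)) :
    tri d (ω p p') d' = true := by
  have hE : ∀ x < k, ∀ d : A4, tri d (ω x x) d = true := fun x hx d => by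
    rw [hω.refl x hx]; exact tri_E_mid.2 rfl
  have hr : ∀ x < k, ∀ y < k, ∀ d d' : A4, tri d (ω x y) d' = true → tri d' (ω y x) d = true :=
    fun x hx y hy d d' h => by
      rw [hω.symm x hx y hy, ← tri_rot]; exact h
  rcases hp with ⟨rfl, rfl⟩ | ⟨rfl, rfl⟩ | ⟨rfl, rfl⟩ <;>
    rcases hp' with ⟨rfl, rfl⟩ | ⟨rfl, rfl⟩ | ⟨rfl, rfl⟩
  · exact hE _ hu _
  · exact h12
  · exact h13
  · exact hr _ hu _ hv _ _ h12
  · exact hE _ hv _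
  · exact h23
  · exact hr _ hu _ hq _ _ h13
  · exact hr _ hv _ hq _ _ h23
  · exact hE _ hq _

theorem p_FRW : Stmt_FRW := by
  intro k ω u v q d1 d2 d3 hω hu hv hq n1 n2 n3 h12 h13 h23 x hx y hy
  have hlt : ∀ {p : ℕ} {d : A4}, ((p = u ∧ d = d1) ∨ (p = v ∧ d = d2) ∨ (p = q ∧ d = d3)) →
      p < k ∧ d ≠ E := by
    rintro p d (⟨rfl, rfl⟩ | ⟨rfl, rfl⟩ | ⟨rfl, rfl⟩)
    exacts [⟨hu, n1⟩, ⟨hv, n2⟩, ⟨hq, n3⟩]
  have hno : ∀ {p : ℕ} {d : A4}, ((p = u ∧ d = d1) ∨ (p = v ∧ d = d2) ∨ (p = q ∧ d = d3)) →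
      ∀ z : ℕ, ω u z ≠ E → ω v z ≠ E → ω q z ≠ E → ω p z ≠ E := by
    rintro p d (⟨rfl, rfl⟩ | ⟨rfl, rfl⟩ | ⟨rfl, rfl⟩) z a1 a2 a3
    exacts [a1, a2, a3]
  rcases FRW_cls ω u v q d1 d2 d3 x with ⟨p, d, hp, hpx, hρx⟩ | ⟨x1, x2, x3, hρx⟩ <;>
    rcases FRW_cls ω u v q d1 d2 d3 y with ⟨p', d', hp', hpy, hρy⟩ | ⟨y1, y2, y3, hρy⟩ <;>
    rw [hρx, hρy]
  · have e1 : ω p y = ω x y := hω.eq_left (hlt hp).1 hx hy hpx
    have e2 : ω p p' = ω p y := hω.eq_right (hlt hp').1 hy (hlt hp).1 hpy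
    rw [← e1, ← e2]
    exact FRW_pair hω hu hv hq h12 h13 h23 hp hp'
  · refine tri_J_right (hlt hp).2 fun hE => ?_
    have e1 : ω p x = ω p y := hω.eq_right hx hy (hlt hp).1 hE
    exact hno hp y y1 y2 y3 (e1 ▸ hpx)
  · refine tri_J_left (fun hE => ?_) (hlt hp').2
    have e1 : ω p' x = ω p' y := hω.eq_right hx hy (hlt hp').1 hE
    exact hno hp' x x1 x2 x3 (e1.trans hpy)
  · exact tri_J_J _

end Pool.WR
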