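import Pool.Agent.Work.MP_02669e_wr.Interface

namespace Pool.WR

open At A4

theorem p_GEN : Stmt_GEN := by
  intro k N P F hP hex hal hdiv hc1a hc1b hc2a hc2b
  have hrow : ∀ ω ρ, P ω ρ → RowOf k N (gL P F) ω ρ := by
    intro ω ρ h
    obtain ⟨h1, h2⟩ := hP ω ρ h
    refine ⟨h1, h2, ?_⟩
    intro w hw
    obtain ⟨x, hx, hp⟩ := hal ω ρ h w hw
    exact ⟨x, mem_gL.2 ⟨hx, ω, ρ, h, hp.symm⟩, hp⟩
  refine ⟨hdiv, ?_, ?_, hc1a, hc1b, hc2a, hc2b⟩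
  · intro ω hω
    obtain ⟨ρ, hρ⟩ := hex ω hω
    exact ⟨ρ, hrow ω ρ hρ⟩
  · intro w hw c hc
    obtain ⟨_, ω, ρ, h, hp⟩ := mem_gL.1 hc
    exact ⟨ω, ρ, hrow ω ρ h, hp⟩

end Pool.WR
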