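import Pool.Agent.Work.MP_02669e_wr.Interface

/-! # Block LIM: the limit network -/

namespace Pool.WR

open At A4

/-- The states of the construction. -/
def LIM_St : Type := {p : ℕ × (ℕ → ℕ → Finset At) // 2 ≤ p.1 ∧ Inv p.1 p.2}

/-- The demand `d` is satisfied in `T`, if it is a demand of `S`; `T` extends `S`. -/
def LIM_Good (S T : LIM_St) (d : ℕ × ℕ × Finset At × Finset At) : Prop :=
  S.1.1 ≤ T.1.1 ∧ (∀ x < S.1.1, ∀ y < S.1.1, T.1.2 x y = S.1.2 x y) ∧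
    (d.1 < S.1.1 → d.2.1 < S.1.1 → ¬ Exc d.2.2.1 d.2.2.2 →
      S.1.2 d.1 d.2.1 ⊆ cmp d.2.2.1 d.2.2.2 →
      ∃ z < T.1.1, T.1.2 d.1 z ⊆ d.2.2.1 ∧ T.1.2 z d.2.1 ⊆ d.2.2.2)

theorem LIM_step
    (H : ∀ (k : ℕ) (N : ℕ → ℕ → Finset At) (u v : ℕ) (α β : Finset At), Inv k N → 2 ≤ k →
      u < k → v < k → ¬ Exc α β → N u v ⊆ cmp α β → Sat k N u v α β)
    (S : LIM_St) (d : ℕ × ℕ × Finset At × Finset At) : ∃ T : LIM_St, LIM_Good S T d := by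
  obtain ⟨⟨k, N⟩, hk, hN⟩ := S
  obtain ⟨u, v, α, β⟩ := d
  by_cases h : u < k ∧ v < k ∧ ¬ Exc α β ∧ N u v ⊆ cmp α β
  · obtain ⟨hu, hv, he, hc⟩ := h
    obtain ⟨k', N', hkk, hN', hag, z, hz, h1, h2⟩ := H k N u v α β hN hk hu hv he hc
    exact ⟨⟨⟨k', N'⟩, le_trans hk hkk, hN'⟩, hkk, hag, fun _ _ _ _ => ⟨z, hz, h1, h2⟩⟩
  · refine ⟨⟨⟨k, N⟩, hk, hN⟩, le_rfl, fun _ _ _ _ => rfl, ?_⟩
    intro hu hv he hc
    exact absurd ⟨hu, hv, he, hc⟩ h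

/-- The sequence of states. -/
def LIM_seq (S0 : LIM_St) (nx : LIM_St → ℕ × ℕ × Finset At × Finset At → LIM_St)
    (D : ℕ → ℕ × ℕ × Finset At × Finset At) : ℕ → LIM_St
  | 0 => S0
  | i + 1 => nx (LIM_seq S0 nx D i) (D i)

theorem LIM_mono {S0 : LIM_St} {nx : LIM_St → ℕ × ℕ × Finset At × Finset At → LIM_St}
    {D : ℕ → ℕ × ℕ × Finset At × Finset At} (hnx : ∀ S d, LIM_Good S (nx S d) d)
    {i j : ℕ} (hij : i ≤ j) :
    (LIM_seq S0 nx D i).1.1 ≤ (LIM_seq S0 nx D j).1.1 ∧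
      ∀ x < (LIM_seq S0 nx D i).1.1, ∀ y < (LIM_seq S0 nx D i).1.1,
        (LIM_seq S0 nx D j).1.2 x y = (LIM_seq S0 nx D i).1.2 x y := by
  induction j, hij using Nat.le_induction with
  | base => exact ⟨le_rfl, fun _ _ _ _ => rfl⟩
  | succ j hj ih =>
    obtain ⟨h1, h2⟩ := ih
    obtain ⟨h3, h4, -⟩ := hnx (LIM_seq S0 nx D j) (D j)
    refine ⟨le_trans h1 h3, fun x hx y hy => ?_⟩
    rw [← h2 x hx y hy]
    exact h4 x (lt_of_lt_of_le hx h1) y (lt_of_lt_of_le hy h1)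

theorem LIM_enum : ∃ D : ℕ → ℕ × ℕ × Finset At × Finset At,
    ∀ (d : ℕ × ℕ × Finset At × Finset At) (n : ℕ), ∃ i, n ≤ i ∧ D i = d := by
  obtain ⟨g, hg⟩ := exists_surjective_nat (ℕ × ℕ × Finset At × Finset At)
  refine ⟨fun i => g (Nat.unpair i).2, fun d n => ?_⟩
  obtain ⟨j, hj⟩ := hg d
  refine ⟨Nat.pair n j, Nat.left_le_pair n j, ?_⟩
  simp only [Nat.unpair_pair]
  exact hj

theorem p_LIM : Stmt_LIM := by
  classical
  rintro H ⟨N0, hN0⟩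
  choose nx hnx using LIM_step H
  obtain ⟨D, hD⟩ := LIM_enum
  set S0 : LIM_St := ⟨⟨2, N0⟩, le_rfl, hN0⟩ with hS0
  set S : ℕ → LIM_St := LIM_seq S0 nx D with hS
  have hmono : ∀ {i j : ℕ}, i ≤ j → (S i).1.1 ≤ (S j).1.1 ∧
      ∀ x < (S i).1.1, ∀ y < (S i).1.1, (S j).1.2 x y = (S i).1.2 x y :=
    fun {i j} hij => LIM_mono hnx hij
  set M : ℕ → ℕ → Finset At := fun x y =>
    if h : ∃ i, x < (S i).1.1 ∧ y < (S i).1.1 then (S (Nat.find h)).1.2 x y else ∅ with hM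
  have hMi : ∀ {x y i : ℕ}, x < (S i).1.1 → y < (S i).1.1 → (S i).1.2 x y = M x y := by
    intro x y i hx hy
    have h : ∃ i, x < (S i).1.1 ∧ y < (S i).1.1 := ⟨i, hx, hy⟩
    have h1 : M x y = (S (Nat.find h)).1.2 x y := by
      rw [hM]
      simp only
      rw [dif_pos h]
    rw [h1]
    have h2 := Nat.find_spec h
    exact (hmono (Nat.find_min' h ⟨hx, hy⟩)).2 x h2.1 y h2.2
  refine ⟨fun x => ∃ i, x < (S i).1.1, M, ?_, ?_, ?_⟩
  · refine ⟨0, ?_⟩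
    have := (S 0).2.1
    omega
  · rintro x y z ⟨i, hi⟩ ⟨j, hj⟩ ⟨l, hl⟩
    have hx : x < (S (max i (max j l))).1.1 :=
      lt_of_lt_of_le hi (hmono (le_max_left _ _)).1
    have hy : y < (S (max i (max j l))).1.1 :=
      lt_of_lt_of_le hj (hmono (le_trans (le_max_left _ _) (le_max_right _ _))).1
    have hz : z < (S (max i (max j l))).1.1 :=
      lt_of_lt_of_le hl (hmono (le_trans (le_max_right _ _) (le_max_right _ _))).1
    exact ⟨(S (max i (max j l))).1.1, (S (max i (max j l))).1.2, (S (max i (max j l))).2.2,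
      hx, hy, hz, hMi hx hy, hMi hx hz, hMi hz hy, hMi hy hx, hMi hx hx⟩
  · rintro u v α β ⟨i, hi⟩ ⟨j, hj⟩ he hc
    obtain ⟨p, hp, hDp⟩ := hD (u, v, α, β) (max i j)
    have hu : u < (S p).1.1 := lt_of_lt_of_le hi (hmono (le_trans (le_max_left _ _) hp)).1
    have hv : v < (S p).1.1 := lt_of_lt_of_le hj (hmono (le_trans (le_max_right _ _) hp)).1
    have hg : LIM_Good (S p) (S (p + 1)) (u, v, α, β) := by
      rw [← hDp]
      exact hnx (S p) (D p)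
    obtain ⟨hkk, -, hz⟩ := hg
    rw [← hMi hu hv] at hc
    obtain ⟨z, hz, h1, h2⟩ := hz hu hv he hc
    have hu' : u < (S (p + 1)).1.1 := lt_of_lt_of_le hu hkk
    have hv' : v < (S (p + 1)).1.1 := lt_of_lt_of_le hv hkk
    refine ⟨z, ⟨p + 1, hz⟩, ?_, ?_⟩
    · rw [← hMi hu' hz]
      exact h1
    · rw [← hMi hz hv']
      exact h2

end Pool.WR

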