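import Pool.Agent.Work.MP_02669e_wr.Interface

namespace Pool.WR

open At A4

lemma PCL_a : ∀ c d d' : At, (c = a ∨ c = b) → d ≠ e → d' ≠ e → c ∉ comp d d' → d = c ∧ d' = c := by
  decide

lemma PCL_b : ∀ c d d' : At, (c = r ∨ c = s) → tri (proj d) (proj d') (proj c) = true →
    c ∈ comp d d' := by
  decide

lemma PCL_c : ∀ c : At, c ∈ comp e c ∧ c ∈ comp c e ∧ e ∈ comp c (conv c) := by
  decide

lemma PCL_d : ∀ c : At, c = e ∨ (c = a ∨ c = b) ∨ (c = r ∨ c = s) := by
  decide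

theorem p_PCL : Stmt_PCL := by
  intro k N h x hx y hy z hz c hc
  rw [mem_cmp]
  by_cases hxz : x = z
  · subst hxz
    exact ⟨e, by rw [h.diag x hx]; simp, c, hc, (PCL_c c).1⟩
  by_cases hzy : z = y
  · subst hzy
    exact ⟨c, hc, e, by rw [h.diag z hz]; simp, (PCL_c c).2.1⟩
  rcases PCL_d c with hce | hcol | hcr
  · subst hce
    obtain ⟨d, hd, hd'⟩ := h.c2 x hx y hy z hz hc
    exact ⟨d, hd, conv d, h.symm y hy z hz d hd', (PCL_c d).2.2⟩
  · by_contra hno
    push Not at hno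
    obtain ⟨d, hd, hde⟩ := h.div x hx z hz hxz
    obtain ⟨d', hd', hde'⟩ := h.div z hz y hy hzy
    have h0 := PCL_a c d d' hcol hde hde' (hno d hd d' hd')
    have hdc : c ∈ N x z := h0.1 ▸ hd
    have hdc' : c ∈ N z y := h0.2 ▸ hd'
    have e1 : e ∉ N x z := fun he => hno e he c hdc' (PCL_c c).1
    have e2 : e ∉ N z y := fun he => hno c hdc e he (PCL_c c).2.1
    have s1 : N x z = {c} := by
      ext t
      rw [Finset.mem_singleton]
      constructor
      · intro ht
        exact (PCL_a c t d' hcol (fun h2 => e1 (h2 ▸ ht)) hde' (hno t ht d' hd')).1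
      · rintro rfl
        exact hdc
    have s2 : N z y = {c} := by
      ext t
      rw [Finset.mem_singleton]
      constructor
      · intro ht
        exact (PCL_a c d t hcol hde (fun h2 => e2 (h2 ▸ ht)) (hno d hd t ht)).2
      · rintro rfl
        exact hdc'
    exact h.c1 x hx y hy z hz c hcol s1 s2 hc
  · obtain ⟨ω, hω, hωc⟩ := h.exact x hx y hy c hc
    obtain ⟨d, hd, hd1⟩ := hω.2 x hx z hz
    obtain ⟨d', hd', hd1'⟩ := hω.2 z hz y hy
    have ht := hω.1.tri x hx z hz y hy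
    rw [← hd1, ← hd1', hωc] at ht
    exact ⟨d, hd, d', hd', PCL_b c d d' hcr ht⟩

end Pool.WR
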