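import Pool.Agent.Work.MP_02669e_wr.Interface

/-! Block TA: demand `({c}, {c})`, `c` a colour, `c ∉ N u v`. -/

namespace Pool.WR

open At A4

/-- The rows of block TA. -/
def TA_P (k : ℕ) (N : ℕ → ℕ → Finset At) (u v : ℕ) (ω : ℕ → ℕ → A4) (ρ : ℕ → A4) : Prop :=
  WorldOf k N ω ∧ (ρ = fr ω u v u J J J ∨
    ∃ q < k, ω u q ≠ E ∧ ω v q ≠ E ∧ ρ = fr ω u v q J J R)

/-- The frame of block TA. -/
noncomputable def TA_F (N : ℕ → ℕ → Finset At) (u v : ℕ) (c : At) (w : ℕ) : Finset At :=
  if w = u ∨ w = v then {c} else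
    if N u w = {c} ∨ N v w = {c} then Finset.univ.erase c else Finset.univ

section
variable {k : ℕ} {N : ℕ → ℕ → Finset At} {u v : ℕ} {c : At}

theorem TA_base (ω : ℕ → ℕ → A4) (w : ℕ) : fr ω u v u J J J w = J := by
  unfold fr; split_ifs <;> rfl

theorem TA_vals {ω : ℕ → ℕ → A4} {ρ : ℕ → A4} (h : TA_P k N u v ω ρ) (w : ℕ) :
    ρ w = J ∨ ρ w = R := by
  rcases h.2 with h1 | ⟨q, -, -, -, h1⟩
  · rw [h1]; exact Or.inl (TA_base ω w)
  · rw [h1]; unfold fr; split_ifs <;> simp

theorem TA_atu (hu : u < k) {ω : ℕ → ℕ → A4} {ρ : ℕ → A4}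
    (h : TA_P k N u v ω ρ) : ρ u = J := by
  rcases h.2 with h1 | ⟨q, -, -, -, h1⟩
  · rw [h1]; exact TA_base ω u
  · rw [h1]; exact fr_u (h.1.1.refl u hu)

theorem TA_atv (hv : v < k) {ω : ℕ → ℕ → A4} {ρ : ℕ → A4}
    (h : TA_P k N u v ω ρ) : ρ v = J := by
  rcases h.2 with h1 | ⟨q, -, -, -, h1⟩
  · rw [h1]; exact TA_base ω v
  · rw [h1]
    by_cases hE : ω u v = E
    · exact fr_u hE
    · exact fr_v hE (h.1.1.refl v hv)

theorem TA_row (hF : Stmt_FRW) (hu : u < k) (hv : v < k) {ω : ℕ → ℕ → A4} {ρ : ℕ → A4}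
    (h : TA_P k N u v ω ρ) : Row k ω ρ := by
  rcases h.2 with h1 | ⟨q, hq, h2, h3, h1⟩
  · rw [h1]
    exact hF k ω u v u J J J h.1.1 hu hv hu (by decide) (by decide) (by decide)
      (tri_J_J _) (tri_J_J _) (tri_J_J _)
  · rw [h1]
    exact hF k ω u v q J J R h.1.1 hu hv hq (by decide) (by decide) (by decide)
      (tri_J_J _) (tri_J_left h2 (by decide)) (tri_J_left h3 (by decide))

end

theorem p_TA (hF : Stmt_FRW) (hG : Stmt_GEN) (hA : Stmt_ADD) : Stmt_TA := by
  intro k N u v c hI hu hv huv hc hcN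
  obtain ⟨ω0, hω0, -⟩ := hI.exact u hu u hu e (by rw [hI.diag u hu]; simp)
  have hcNv : c ∉ N v u := by
    intro h
    apply hcN
    have := hI.symm v hv u hu c h
    rwa [hc.conv] at this
  have hFu : TA_F N u v c u = {c} := by simp [TA_F]
  have hFv : TA_F N u v c v = {c} := by simp [TA_F]
  have hFo : ∀ w, w ≠ u → w ≠ v → ∀ x, x ≠ c → x ∈ TA_F N u v c w := by
    intro w h1 h2 x hx
    unfold TA_F
    rw [if_neg (by tauto)]
    split_ifs
    · simp [hx]
    · simp
  have hFc : ∀ w, w ≠ u → w ≠ v → N u w ≠ {c} → N v w ≠ {c} → c ∈ TA_F N u v c w := by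
    intro w h1 h2 h3 h4
    unfold TA_F
    rw [if_neg (by tauto), if_neg (by tauto)]
    simp
  have hFn : ∀ w, w ≠ u → w ≠ v → (N u w = {c} ∨ N v w = {c}) → c ∉ TA_F N u v c w := by
    intro w h1 h2 h3
    unfold TA_F
    rw [if_neg (by tauto), if_pos h3]
    simp
  have hcol : ∀ w x, Col x → x ∈ TA_F N u v c w → x ∈ gL (TA_P k N u v) (TA_F N u v c) w := by
    intro w x hx hxF
    exact mem_gL.2 ⟨hxF, ω0, _, ⟨hω0, Or.inl rfl⟩, by rw [TA_base, hx.proj]⟩
  have hLF : ∀ {w x}, x ∈ gL (TA_P k N u v) (TA_F N u v c) w → x ∈ TA_F N u v c w :=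
    fun h => (mem_gL.1 h).1
  have hLu : c ∈ gL (TA_P k N u v) (TA_F N u v c) u := hcol u c hc (by rw [hFu]; simp)
  have hLv : c ∈ gL (TA_P k N u v) (TA_F N u v c) v := hcol v c hc (by rw [hFv]; simp)
  have hLus : ∀ x, x ∈ gL (TA_P k N u v) (TA_F N u v c) u → x = c := by
    intro x hx
    have := hLF hx
    rwa [hFu, Finset.mem_singleton] at this
  have hLvs : ∀ x, x ∈ gL (TA_P k N u v) (TA_F N u v c) v → x = c := by
    intro x hx
    have := hLF hx
    rwa [hFv, Finset.mem_singleton] at this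
  have hoc : ∀ w, w ≠ u → w ≠ v → oc c ∈ gL (TA_P k N u v) (TA_F N u v c) w := fun w h1 h2 =>
    hcol w _ (oc_col hc) (hFo w h1 h2 _ (oc_ne hc))
  have hrne : r ≠ c := by rcases hc with h | h <;> subst h <;> decide
  have hrL : ∀ w < k, w ≠ u → w ≠ v → (N u w = {c} ∨ N v w = {c}) →
      r ∈ gL (TA_P k N u v) (TA_F N u v c) w := by
    intro w hw h1 h2 h3
    have key : ∃ ω, WorldOf k N ω ∧ ω u w ≠ E ∧ ω v w ≠ E := by
      rcases h3 with h3 | h3
      · obtain ⟨ω, hω, hne⟩ := hI.world_ne hv hw (Ne.symm h2)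
        refine ⟨ω, hω, ?_, hne⟩
        rw [hω.of_singleton hu hw h3, hc.proj]; decide
      · obtain ⟨ω, hω, hne⟩ := hI.world_ne hu hw (Ne.symm h1)
        refine ⟨ω, hω, hne, ?_⟩
        rw [hω.of_singleton hv hw h3, hc.proj]; decide
    obtain ⟨ω, hω, h4, h5⟩ := key
    refine mem_gL.2 ⟨hFo w h1 h2 r hrne, ω, _, ⟨hω, Or.inr ⟨w, hw, h4, h5, rfl⟩⟩, ?_⟩
    rw [fr_q h4 h5 (hω.1.refl w hw)]; rfl
  have hX : ∀ w < k, w ≠ u → w ≠ v → ∀ c0, Col c0 →
      gL (TA_P k N u v) (TA_F N u v c) w = {c0} → False := by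
    intro w hw h1 h2 c0 hc0 hs
    have h3 := hoc w h1 h2
    rw [hs, Finset.mem_singleton] at h3
    by_cases h4 : N u w = {c} ∨ N v w = {c}
    · have h5 := hrL w hw h1 h2 h4
      rw [hs, Finset.mem_singleton] at h5
      have := oc_col hc
      rw [h3, ← h5] at this
      rcases this with h | h <;> cases h
    · have h5 := hcol w c hc (hFc w h1 h2 (fun h => h4 (Or.inl h)) (fun h => h4 (Or.inr h)))
      rw [hs, Finset.mem_singleton] at h5
      exact oc_ne hc (h3.trans h5.symm)
  have hnoE : ∀ y, e ∉ gL (TA_P k N u v) (TA_F N u v c) y := by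
    intro y hy
    obtain ⟨-, ω, ρ, hP, hρ⟩ := mem_gL.1 hy
    rcases TA_vals hP y with h | h <;> rw [h] at hρ <;> cases hρ
  -- the element for two points with `e ∈ N x y`, `x ∈ {u, v}`, `y ∉ {u, v}`
  have hc2 : ∀ y < k, y ≠ u → y ≠ v → (e ∈ N u y ∨ e ∈ N v y) →
      c ∈ gL (TA_P k N u v) (TA_F N u v c) y := by
    intro y hy h1 h2 h3
    have hne : ∀ {x}, e ∈ N x y → N x y ≠ {c} := by
      intro x hx h
      rw [h, Finset.mem_singleton] at hx
      exact hc.ne_e hx.symm
    apply hcol y c hc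
    apply hFc y h1 h2
    · intro h4
      rcases h3 with h3 | h3
      · exact hne h3 h4
      · obtain ⟨d, hd1, hd2⟩ := hI.c2 v hv y hy u hu h3
        rw [(hI.symm_col hu hy hc).1 h4, Finset.mem_singleton] at hd2
        exact hcNv (hd2 ▸ hd1)
    · intro h4
      rcases h3 with h3 | h3
      · obtain ⟨d, hd1, hd2⟩ := hI.c2 u hu y hy v hv h3
        rw [(hI.symm_col hv hy hc).1 h4, Finset.mem_singleton] at hd2
        exact hcN (hd2 ▸ hd1)
      · exact hne h3 h4
  have hRD : RowData k N (gL (TA_P k N u v) (TA_F N u v c)) := by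
    apply hG k N (TA_P k N u v) (TA_F N u v c)
    · intro ω ρ hP
      exact ⟨hP.1, TA_row hF hu hv hP⟩
    · intro ω hω
      exact ⟨_, hω, Or.inl rfl⟩
    · intro ω ρ hP w hw
      by_cases h1 : w = u
      · subst h1
        exact ⟨c, by rw [hFu]; simp, by rw [hc.proj, TA_atu hu hP]⟩
      by_cases h2 : w = v
      · subst h2
        exact ⟨c, by rw [hFv]; simp, by rw [hc.proj, TA_atv hv hP]⟩
      rcases TA_vals hP w with h | h
      · exact ⟨oc c, hFo w h1 h2 _ (oc_ne hc), by rw [h, (oc_col hc).proj]⟩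
      · exact ⟨r, hFo w h1 h2 r hrne, by rw [h]; rfl⟩
    · intro w hw
      by_cases h1 : w = u
      · subst h1; exact ⟨c, hLu, hc.ne_e⟩
      by_cases h2 : w = v
      · subst h2; exact ⟨c, hLv, hc.ne_e⟩
      exact ⟨oc c, hoc w h1 h2, (oc_col hc).ne_e⟩
    · intro w hw x hx c0 hc0 hs hN hcx
      by_cases h1 : w = u
      · subst h1
        have h0 : c0 = c := hLus c0 (by rw [hs]; simp)
        subst h0
        by_cases h3 : x = w
        · subst h3
          rw [hI.diag x hx] at hN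
          have : e = c0 := by simpa using hN
          exact hc.ne_e this.symm
        by_cases h4 : x = v
        · subst h4
          exact hcN (by rw [hN]; simp)
        exact hFn x h3 h4 (Or.inl hN) (hLF hcx)
      by_cases h2 : w = v
      · subst h2
        have h0 : c0 = c := hLvs c0 (by rw [hs]; simp)
        subst h0
        by_cases h4 : x = w
        · subst h4
          rw [hI.diag x hx] at hN
          have : e = c0 := by simpa using hN
          exact hc.ne_e this.symm
        by_cases h3 : x = u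
        · subst h3
          exact hcNv (by rw [hN]; simp)
        exact hFn x h3 h4 (Or.inr hN) (hLF hcx)
      exact hX w hw h1 h2 c0 hc0 hs
    · intro x hx y hy c0 hc0 hs1 hs2 hN
      have h1 : x = u ∨ x = v := by
        by_contra h
        exact hX x hx (fun h' => h (Or.inl h')) (fun h' => h (Or.inr h')) c0 hc0 hs1
      have h2 : y = u ∨ y = v := by
        by_contra h
        exact hX y hy (fun h' => h (Or.inl h')) (fun h' => h (Or.inr h')) c0 hc0 hs2
      rcases h1 with h1 | h1 <;> rcases h2 with h2 | h2 <;> subst h1 <;> subst h2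
      · rw [hI.diag _ hx, Finset.mem_singleton] at hN
        exact hc0.ne_e hN
      · have h0 : c0 = c := hLus c0 (by rw [hs1]; simp)
        exact hcN (h0 ▸ hN)
      · have h0 : c0 = c := hLvs c0 (by rw [hs1]; simp)
        exact hcNv (h0 ▸ hN)
      · rw [hI.diag _ hx, Finset.mem_singleton] at hN
        exact hc0.ne_e hN
    · intro x hx y hy he
      have he' : e ∈ N y x := (hI.e_symm hx hy).1 he
      by_cases h1 : x = u ∨ x = v
      · refine ⟨c, ?_, ?_⟩
        · rcases h1 with h1 | h1 <;> subst h1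
          · exact hLu
          · exact hLv
        · by_cases h2 : y = u
          · subst h2; exact hLu
          by_cases h3 : y = v
          · subst h3; exact hLv
          apply hc2 y hy h2 h3
          rcases h1 with h1 | h1 <;> subst h1
          · exact Or.inl he
          · exact Or.inr he
      · by_cases h2 : y = u ∨ y = v
        · refine ⟨c, ?_, ?_⟩
          · apply hc2 x hx (fun h => h1 (Or.inl h)) (fun h => h1 (Or.inr h))
            rcases h2 with h2 | h2 <;> subst h2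
            · exact Or.inl he'
            · exact Or.inr he'
          · rcases h2 with h2 | h2 <;> subst h2
            · exact hLu
            · exact hLv
        · exact ⟨oc c, hoc x (fun h => h1 (Or.inl h)) (fun h => h1 (Or.inr h)),
            hoc y (fun h => h2 (Or.inl h)) (fun h => h2 (Or.inr h))⟩
    · intro x hx y hy he
      exact absurd he (hnoE y)
  refine hA k N _ u v {c} {c} hI hRD hu hv ?_ ?_
  · intro x hx
    rw [hLus x hx, mem_cnv, hc.conv]; simp
  · intro x hx
    rw [hLvs x hx]; simp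

end Pool.WR
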