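import Pool.Agent.Work.MP_02669e_wr.Interface

/-!
# Block TB (MP_02669e_lc, theorem P): demand ({c}, {oc c}), e not in the label (helper88)
-/

namespace Pool.WR

open At A4

/-- values of the rows of the family -/
theorem TB_val {ω : ℕ → ℕ → A4} {u v q w : ℕ} :
    fr ω u v q J J R w = J ∨ (ω u w ≠ E ∧ ω v w ≠ E ∧ fr ω u v q J J R w = R) := by
  unfold fr
  split_ifs with h1 h2 h3
  · exact Or.inl rfl
  · exact Or.inl rfl
  · exact Or.inr ⟨h1, h2, rfl⟩
  · exact Or.inl rfl

theorem TB_base {ω : ℕ → ℕ → A4} {u v w : ℕ} : fr ω u v u J J J w = J := by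
  unfold fr
  split_ifs <;> rfl

theorem p_TB (hFRW : Stmt_FRW) (hGEN : Stmt_GEN) (hADD : Stmt_ADD) : Stmt_TB := by
  classical
  intro k N u v c hI hu hv huv hc he
  by_cases hwit : Wit k N u v {c} {oc c}
  · exact Sat.of_wit hI hwit
  obtain ⟨c', hcc⟩ : ∃ c', c' = oc c := ⟨_, rfl⟩
  rw [← hcc] at hwit ⊢
  have hc' : Col c' := by rw [hcc]; exact oc_col hc
  have hne : c' ≠ c := by rw [hcc]; exact oc_ne hc
  have hno : ∀ z < k, N u z = {c} → N v z = {c'} → False := by
    intro z hz h1 h2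
    apply hwit
    refine ⟨z, hz, ?_, ?_⟩
    · rw [h1]
    · rw [(hI.symm_col hv hz hc').1 h2]
  have hJr : r ≠ c := by rcases hc with h | h <;> subst h <;> decide
  have hJr' : r ≠ c' := by rcases hc' with h | h <;> rw [h] <;> decide
  -- the family of rows
  let P : (ℕ → ℕ → A4) → (ℕ → A4) → Prop := fun ω ρ => WorldOf k N ω ∧
    (ρ = fr ω u v u J J J ∨ ∃ q < k, ω u q ≠ E ∧ ω v q ≠ E ∧ ρ = fr ω u v q J J R)
  let F : ℕ → Finset At := fun w => if w = u then {c} else if w = v then {c'} else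
    Finset.univ.filter (fun x => ¬ (x = c ∧ N u w = {c}) ∧ ¬ (x = c' ∧ N v w = {c'}))
  have hFu : F u = {c} := by simp [F]
  have hFv : F v = {c'} := by simp [F, Ne.symm huv]
  have hFw : ∀ w, w ≠ u → w ≠ v → ∀ x, x ∈ F w ↔
      (¬ (x = c ∧ N u w = {c}) ∧ ¬ (x = c' ∧ N v w = {c'})) := by
    intro w h1 h2 x
    simp [F, h1, h2]
  have hFr : ∀ w, w ≠ u → w ≠ v → r ∈ F w := by
    intro w h1 h2
    rw [hFw w h1 h2]
    exact ⟨fun h => hJr h.1, fun h => hJr' h.1⟩
  have hFc : ∀ w, w ≠ u → w ≠ v → N u w ≠ {c} → c ∈ F w := by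
    intro w h1 h2 h3
    rw [hFw w h1 h2]
    exact ⟨fun h => h3 h.2, fun h => hne h.1.symm⟩
  have hFc' : ∀ w, w ≠ u → w ≠ v → N v w ≠ {c'} → c' ∈ F w := by
    intro w h1 h2 h3
    rw [hFw w h1 h2]
    exact ⟨fun h => hne h.1, fun h => h3 h.2⟩
  have hFcol : ∀ w < k, ∃ c0, Col c0 ∧ c0 ∈ F w := by
    intro w hw
    by_cases h1 : w = u
    · exact ⟨c, hc, by rw [h1, hFu]; simp⟩
    by_cases h2 : w = v
    · exact ⟨c', hc', by rw [h2, hFv]; simp⟩
    by_cases h3 : N u w = {c}
    · exact ⟨c', hc', hFc' w h1 h2 (fun h4 => hno w hw h3 h4)⟩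
    · exact ⟨c, hc, hFc w h1 h2 h3⟩
  have hvalP : ∀ ω ρ, P ω ρ → ∀ w < k, ρ w = J ∨ (w ≠ u ∧ w ≠ v ∧ ρ w = R) := by
    rintro ω ρ ⟨hW, h | ⟨q, hq, h1, h2, h⟩⟩ w hw
    · rw [h]
      exact Or.inl TB_base
    · rw [h]
      rcases TB_val (ω := ω) (u := u) (v := v) (q := q) (w := w) with h3 | ⟨h3, h4, h5⟩
      · exact Or.inl h3
      · right
        refine ⟨?_, ?_, h5⟩
        · intro h6
          rw [h6] at h3
          exact h3 (hW.1.refl u hu)
        · intro h6
          rw [h6] at h4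
          exact h4 (hW.1.refl v hv)
  have hbase : ∀ w x, Col x → x ∈ F w → x ∈ gL P F w := by
    intro w x hx hxF
    rw [mem_gL]
    obtain ⟨ω, hW, _⟩ := hI.exact u hu u hu e (by rw [hI.diag u hu]; simp)
    exact ⟨hxF, ω, fr ω u v u J J J, ⟨hW, Or.inl rfl⟩, by rw [TB_base, hx.proj]⟩
  have hcolL : ∀ w < k, ∃ c0, Col c0 ∧ c0 ∈ gL P F w := by
    intro w hw
    obtain ⟨c0, h1, h2⟩ := hFcol w hw
    exact ⟨c0, h1, hbase w c0 h1 h2⟩
  have hnoE : ∀ w < k, e ∉ gL P F w := by
    intro w hw h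
    rw [mem_gL] at h
    obtain ⟨_, ω, ρ, hP, h1⟩ := h
    rcases hvalP ω ρ hP w hw with h2 | ⟨_, _, h2⟩
    · rw [h2] at h1
      exact absurd h1 (by decide)
    · rw [h2] at h1
      exact absurd h1 (by decide)
  have hcu : c ∈ gL P F u := hbase u c hc (by rw [hFu]; simp)
  have hcv : c' ∈ gL P F v := hbase v c' hc' (by rw [hFv]; simp)
  have hLu : ∀ x ∈ gL P F u, x = c := by
    intro x hx
    have h1 := (mem_gL.1 hx).1
    rw [hFu] at h1
    simpa using h1
  have hLv : ∀ x ∈ gL P F v, x = c' := by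
    intro x hx
    have h1 := (mem_gL.1 hx).1
    rw [hFv] at h1
    simpa using h1
  have hR : ∀ w < k, w ≠ u → w ≠ v → (N u w = {c} ∨ N v w = {c'}) → r ∈ gL P F w := by
    intro w hw h1 h2 h3
    rw [mem_gL]
    refine ⟨hFr w h1 h2, ?_⟩
    rcases h3 with h3 | h3
    · obtain ⟨ω, hW, h4⟩ := hI.world_ne hv hw (Ne.symm h2)
      have h5 : ω u w ≠ E := by
        rw [hW.of_singleton hu hw h3, hc.proj]
        decide
      exact ⟨ω, fr ω u v w J J R, ⟨hW, Or.inr ⟨w, hw, h5, h4, rfl⟩⟩,
        fr_q h5 h4 (hW.1.refl w hw)⟩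
    · obtain ⟨ω, hW, h4⟩ := hI.world_ne hu hw (Ne.symm h1)
      have h5 : ω v w ≠ E := by
        rw [hW.of_singleton hv hw h3, hc'.proj]
        decide
      exact ⟨ω, fr ω u v w J J R, ⟨hW, Or.inr ⟨w, hw, h4, h5, rfl⟩⟩,
        fr_q h4 h5 (hW.1.refl w hw)⟩
  have hX : ∀ w < k, w ≠ u → w ≠ v → ∀ c0, Col c0 → gL P F w = {c0} → False := by
    intro w hw h1 h2 c0 hc0 h3
    by_cases h4 : N u w = {c} ∨ N v w = {c'}
    · have h5 := hR w hw h1 h2 h4
      rw [h3, Finset.mem_singleton] at h5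
      rw [← h5] at hc0
      rcases hc0 with h | h <;> exact absurd h (by decide)
    · have h5 := hbase w c hc (hFc w h1 h2 (fun h => h4 (Or.inl h)))
      have h6 := hbase w c' hc' (hFc' w h1 h2 (fun h => h4 (Or.inr h)))
      rw [h3, Finset.mem_singleton] at h5 h6
      exact hne (h6.trans h5.symm)
  have hrow : RowData k N (gL P F) := by
    apply hGEN k N P F
    · rintro ω ρ ⟨hW, h | ⟨q, hq, h1, h2, h⟩⟩
      · refine ⟨hW, ?_⟩
        rw [h]
        exact hFRW k ω u v u J J J hW.1 hu hv hu (by decide) (by decide) (by decide)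
          (tri_J_J _) (tri_J_J _) (tri_J_J _)
      · refine ⟨hW, ?_⟩
        rw [h]
        exact hFRW k ω u v q J J R hW.1 hu hv hq (by decide) (by decide) (by decide)
          (tri_J_J _) (tri_J_left h1 (by decide)) (tri_J_left h2 (by decide))
    · intro ω hW
      exact ⟨fr ω u v u J J J, hW, Or.inl rfl⟩
    · intro ω ρ hP w hw
      rcases hvalP ω ρ hP w hw with h1 | ⟨h1, h2, h3⟩
      · obtain ⟨c0, h2, h3⟩ := hFcol w hw
        exact ⟨c0, h3, by rw [h1, h2.proj]⟩
      · exact ⟨r, hFr w h1 h2, by rw [h3]; rfl⟩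
    · intro w hw
      obtain ⟨c0, h1, h2⟩ := hcolL w hw
      exact ⟨c0, h2, h1.ne_e⟩
    · -- c1a
      intro w hw x hx c0 hc0 h1 h2 h3
      by_cases hwu : w = u
      · subst hwu
        rw [h1, Finset.mem_singleton] at hcu
        subst hcu
        by_cases hxu : x = w
        · subst hxu
          rw [hI.diag x hx, Finset.singleton_inj] at h2
          exact hc.ne_e h2.symm
        by_cases hxv : x = v
        · subst hxv
          exact hne (hLv c h3).symm
        · have h4 := (mem_gL.1 h3).1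
          rw [hFw x hxu hxv] at h4
          exact h4.1 ⟨rfl, h2⟩
      by_cases hwv : w = v
      · subst hwv
        rw [h1, Finset.mem_singleton] at hcv
        subst hcv
        by_cases hxv : x = w
        · subst hxv
          rw [hI.diag x hx, Finset.singleton_inj] at h2
          exact hc'.ne_e h2.symm
        by_cases hxu : x = u
        · subst hxu
          exact hne (hLu c' h3)
        · have h4 := (mem_gL.1 h3).1
          rw [hFw x hxu hxv] at h4
          exact h4.2 ⟨rfl, h2⟩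
      · exact hX w hw hwu hwv c0 hc0 h1
    · -- c1b
      intro x hx y hy c0 hc0 h1 h2 h3
      by_cases hxu : x = u
      · subst hxu
        by_cases hyu : y = x
        · subst hyu
          rw [hI.diag y hy, Finset.mem_singleton] at h3
          exact hc0.ne_e h3
        by_cases hyv : y = v
        · subst hyv
          rw [h1, Finset.mem_singleton] at hcu
          rw [h2, Finset.mem_singleton] at hcv
          exact hne (hcv.trans hcu.symm)
        · exact hX y hy hyu hyv c0 hc0 h2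
      by_cases hxv : x = v
      · subst hxv
        by_cases hyv : y = x
        · subst hyv
          rw [hI.diag y hy, Finset.mem_singleton] at h3
          exact hc0.ne_e h3
        by_cases hyu : y = u
        · subst hyu
          rw [h2, Finset.mem_singleton] at hcu
          rw [h1, Finset.mem_singleton] at hcv
          exact hne (hcv.trans hcu.symm)
        · exact hX y hy hyu hyv c0 hc0 h2
      · exact hX x hx hxu hxv c0 hc0 h1
    · -- c2a
      intro x hx y hy hexy
      have hEcol : ∀ z w, e ∈ N z w → ∀ c0, Col c0 → N z w ≠ {c0} := by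
        intro z w h1 c0 hc0 h2
        rw [h2, Finset.mem_singleton] at h1
        exact hc0.ne_e h1.symm
      have heyx : e ∈ N y x := (hI.e_symm hx hy).1 hexy
      by_cases hxy : x = y
      · subst hxy
        obtain ⟨c0, _, h1⟩ := hcolL x hx
        exact ⟨c0, h1, h1⟩
      by_cases hxu : x = u
      · subst hxu
        by_cases hyv : y = v
        · subst hyv
          exact absurd hexy he
        · exact ⟨c, hcu, hbase y c hc (hFc y (Ne.symm hxy) hyv (hEcol _ _ hexy c hc))⟩
      by_cases hxv : x = v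
      · subst hxv
        by_cases hyu : y = u
        · subst hyu
          exact absurd heyx he
        · exact ⟨c', hcv, hbase y c' hc' (hFc' y hyu (Ne.symm hxy) (hEcol _ _ hexy c' hc'))⟩
      by_cases hyu : y = u
      · subst hyu
        exact ⟨c, hbase x c hc (hFc x hxu hxv (hEcol _ _ heyx c hc)), hcu⟩
      by_cases hyv : y = v
      · subst hyv
        exact ⟨c', hbase x c' hc' (hFc' x hxu hxv (hEcol _ _ heyx c' hc')), hcv⟩
      by_cases h1 : N u x = {c}
      · by_cases h2 : N v y = {c'}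
        · exact ⟨r, hR x hx hxu hxv (Or.inl h1), hR y hy hyu hyv (Or.inr h2)⟩
        · have h3 : N v x ≠ {c'} := fun h => hno x hx h1 h
          exact ⟨c', hbase x c' hc' (hFc' x hxu hxv h3), hbase y c' hc' (hFc' y hyu hyv h2)⟩
      · by_cases h2 : N u y = {c}
        · by_cases h3 : N v x = {c'}
          · exact ⟨r, hR x hx hxu hxv (Or.inr h3), hR y hy hyu hyv (Or.inl h2)⟩
          · have h4 : N v y ≠ {c'} := fun h => hno y hy h2 h
            exact ⟨c', hbase x c' hc' (hFc' x hxu hxv h3), hbase y c' hc' (hFc' y hyu hyv h4)⟩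
        · exact ⟨c, hbase x c hc (hFc x hxu hxv h1), hbase y c hc (hFc y hyu hyv h2)⟩
    · intro x _ y hy h
      exact absurd h (hnoE y hy)
  apply hADD k N (gL P F) u v {c} {c'} hI hrow hu hv
  · intro x hx
    rw [mem_cnv, hLu x hx, hc.conv]
    simp
  · intro x hx
    rw [hLv x hx]
    simp

end Pool.WR
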