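import Pool.Agent.Work.MP_02669e_wr.Interface

/-! Block TC (helper23): the demand `({c}, {d})`, `c` a colour, `d = r` or `s`. -/

namespace Pool.WR

open At A4

theorem TC_ne {c : At} (hc : Col c) : r ≠ c ∧ s ≠ c := by
  rcases hc with h | h
  · subst h
    decide
  · subst h
    decide

theorem TC_atom {c : At} (hc : Col c) {y : A4} (hy : y ≠ E) : ∃ x, x ≠ c ∧ proj x = y := by
  cases y
  · exact absurd rfl hy
  · exact ⟨oc c, oc_ne hc, (oc_col hc).proj⟩
  · exact ⟨r, (TC_ne hc).1, rfl⟩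
  · exact ⟨s, (TC_ne hc).2, rfl⟩

/-- the rows -/
def TC_P (k : ℕ) (N : ℕ → ℕ → Finset At) (u v : ℕ) (D : A4) (ω : ℕ → ℕ → A4) (ρ : ℕ → A4) : Prop :=
  WorldOf k N ω ∧ (ρ = fr ω u v u J D J ∨ ∃ q < k, ∃ e3, (e3 = R ∨ e3 = S) ∧ ω u q ≠ E ∧ ω v q ≠ E ∧
    tri D (ω v q) e3 = true ∧ ρ = fr ω u v q J D e3)

/-- the labels -/
def TC_F (N : ℕ → ℕ → Finset At) (u v : ℕ) (c d : At) (w : ℕ) : Finset At :=
  if w = u then {c} else if w = v then {d} else if N u w = {c} then Finset.univ.erase c else Finset.univ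

theorem TC_F_other {N : ℕ → ℕ → Finset At} {u v : ℕ} {c d : At} {w : ℕ} (h1 : w ≠ u) (h2 : w ≠ v) {x : At}
    (hx : x ≠ c) : x ∈ TC_F N u v c d w := by
  unfold TC_F
  rw [if_neg h1, if_neg h2]
  split_ifs
  · exact Finset.mem_erase.2 ⟨hx, Finset.mem_univ _⟩
  · exact Finset.mem_univ _

theorem TC_F_c {N : ℕ → ℕ → Finset At} {u v : ℕ} {c d : At} {w : ℕ} (h1 : w ≠ u) (h2 : w ≠ v)
    (h3 : N u w ≠ {c}) (x : At) : x ∈ TC_F N u v c d w := by
  unfold TC_F
  rw [if_neg h1, if_neg h2, if_neg h3]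
  exact Finset.mem_univ _

theorem TC_F_nc {N : ℕ → ℕ → Finset At} {u v : ℕ} {c d : At} {w : ℕ} (h1 : w ≠ u) (h2 : w ≠ v)
    (h3 : N u w = {c}) : c ∉ TC_F N u v c d w := by
  unfold TC_F
  rw [if_neg h1, if_neg h2, if_pos h3]
  exact Finset.notMem_erase _ _

theorem TC_F_u {N : ℕ → ℕ → Finset At} {u v : ℕ} {c d : At} : TC_F N u v c d u = {c} := by
  unfold TC_F
  rw [if_pos rfl]

theorem TC_F_v {N : ℕ → ℕ → Finset At} {u v : ℕ} {c d : At} (huv : u ≠ v) : TC_F N u v c d v = {d} := by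
  unfold TC_F
  rw [if_neg huv.symm, if_pos rfl]

section
variable {k : ℕ} {N : ℕ → ℕ → Finset At} {u v : ℕ} {c d : At}

theorem TC_val {D : A4} (hD : D ≠ E) {ω : ℕ → ℕ → A4} {ρ : ℕ → A4} (h : TC_P k N u v D ω ρ) (w : ℕ) :
    ρ w ≠ E := by
  rcases h.2 with h1 | ⟨q, -, e3, he3, -, -, -, h1⟩
  · rw [h1]
    rcases fr_val (ω := ω) (u := u) (v := v) (q := u) (d1 := J) (d2 := D) (d3 := J) w with h | h | h | h <;>
      rw [h]
    · decide
    · exact hD
    · decide
    · decide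
  · rw [h1]
    rcases fr_val (ω := ω) (u := u) (v := v) (q := q) (d1 := J) (d2 := D) (d3 := e3) w with h | h | h | h <;>
      rw [h]
    · decide
    · exact hD
    · rcases he3 with h | h
      · rw [h]
        decide
      · rw [h]
        decide
    · decide

theorem TC_u {D : A4} (hI : Inv k N) (hu : u < k) {ω : ℕ → ℕ → A4} {ρ : ℕ → A4}
    (h : TC_P k N u v D ω ρ) : ρ u = J := by
  have huu : ω u u = E := h.1.1.refl u hu
  rcases h.2 with h1 | ⟨q, -, e3, he3, -, -, -, h1⟩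
  · rw [h1, fr_u huu]
  · rw [h1, fr_u huu]

theorem TC_v {D : A4} (hu : u < k) (hv : v < k) (he : e ∉ N u v) {ω : ℕ → ℕ → A4} {ρ : ℕ → A4}
    (h : TC_P k N u v D ω ρ) : ρ v = D := by
  have hvv : ω v v = E := h.1.1.refl v hv
  have huv : ω u v ≠ E := h.1.ne_E hu hv he
  rcases h.2 with h1 | ⟨q, -, e3, he3, -, -, -, h1⟩
  · rw [h1, fr_v huv hvv]
  · rw [h1, fr_v huv hvv]

/-- every value of a row is the projection of an admissible atom -/
theorem TC_al (hI : Inv k N) (hu : u < k) (hv : v < k) (huv : u ≠ v) (hc : Col c) (hd : d = r ∨ d = s)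
    (he : e ∉ N u v) {ω : ℕ → ℕ → A4} {ρ : ℕ → A4} (h : TC_P k N u v (proj d) ω ρ) (w : ℕ) :
    ∃ x ∈ TC_F N u v c d w, proj x = ρ w := by
  have hD : proj d ≠ E := by
    rcases hd with h | h <;> rw [h] <;> decide
  by_cases h1 : w = u
  · subst h1
    rw [TC_F_u, TC_u hI hu h]
    exact ⟨c, Finset.mem_singleton_self _, hc.proj⟩
  by_cases h2 : w = v
  · subst h2
    rw [TC_F_v huv, TC_v hu hv he h]
    exact ⟨d, Finset.mem_singleton_self _, rfl⟩
  obtain ⟨x, hx, hx2⟩ := TC_atom hc (TC_val hD h w)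
  exact ⟨x, TC_F_other h1 h2 hx, hx2⟩

end

theorem p_TC (hFRW : Stmt_FRW) (hGEN : Stmt_GEN) (hADD : Stmt_ADD) : Stmt_TC := by
  intro k N u v c d hI hu hv huv hc hd he
  by_cases hw : Wit k N u v {c} {d}
  · exact Sat.of_wit hI hw
  have hwit : ∀ z, z < k → N u z = {c} → N z v ≠ {d} := by
    intro z hz h1 h2
    exact hw ⟨z, hz, by rw [h1], by rw [h2]⟩
  have hDE : proj d ≠ E := by
    rcases hd with h | h <;> rw [h] <;> decide
  have hdcol : ¬ Col d := by
    rcases hd with h | h <;> rw [h] <;> unfold Col <;> decide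
  have hcdcol : ¬ Col (conv d) := by
    rcases hd with h | h <;> rw [h] <;> unfold Col <;> decide
  have hdc : d ≠ c := fun h => hdcol (h ▸ hc)
  have hcdc : conv d ≠ c := fun h => hcdcol (h ▸ hc)
  have hval : ∀ ω ρ, TC_P k N u v (proj d) ω ρ → ∀ w, ρ w ≠ E := fun ω ρ h w => TC_val hDE h w
  have hal : ∀ ω ρ, TC_P k N u v (proj d) ω ρ → ∀ w, ∃ x ∈ TC_F N u v c d w, proj x = ρ w :=
    fun ω ρ h w => TC_al hI hu hv huv hc hd he h w
  have hbase : ∀ ω, WorldOf k N ω → TC_P k N u v (proj d) ω (fr ω u v u J (proj d) J) :=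
    fun ω h => ⟨h, Or.inl rfl⟩
  have mem : ∀ ω ρ w t, TC_P k N u v (proj d) ω ρ → ρ w = proj t → t ∈ TC_F N u v c d w →
      t ∈ gL (TC_P k N u v (proj d)) (TC_F N u v c d) w :=
    fun ω ρ w t h h1 h2 => mem_gL.2 ⟨h2, ω, ρ, h, h1⟩
  have hrow : ∀ ω ρ, TC_P k N u v (proj d) ω ρ → WorldOf k N ω ∧ Row k ω ρ := by
    intro ω ρ h
    have hne : ω u v ≠ E := h.1.ne_E hu hv he
    refine ⟨h.1, ?_⟩
    rcases h.2 with h1 | ⟨q, hq, e3, he3, h2, h3, h4, h1⟩
    · rw [h1]
      exact hFRW k ω u v u J (proj d) J h.1.1 hu hv hu (by decide) hDE (by decide)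
        (tri_J_left hne hDE) (tri_J_J _) (tri_J_right hDE (h.1.1.ne_symE hu hv hne))
    · rw [h1]
      have he3' : e3 ≠ E := by
        rcases he3 with h | h <;> rw [h] <;> decide
      exact hFRW k ω u v q J (proj d) e3 h.1.1 hu hv hq (by decide) hDE he3'
        (tri_J_left hne hDE) (tri_J_left h2 he3') h4
  have hFu : ∀ x, x ∈ gL (TC_P k N u v (proj d)) (TC_F N u v c d) u → x = c := by
    intro x hx
    have h1 := (mem_gL.1 hx).1
    rw [TC_F_u] at h1
    exact Finset.mem_singleton.1 h1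
  have hFv : ∀ x, x ∈ gL (TC_P k N u v (proj d)) (TC_F N u v c d) v → x = d := by
    intro x hx
    have h1 := (mem_gL.1 hx).1
    rw [TC_F_v huv] at h1
    exact Finset.mem_singleton.1 h1
  -- (X)
  have hX : ∀ w, w < k → w ≠ u → w ≠ v → ∀ c0, Col c0 →
      gL (TC_P k N u v (proj d)) (TC_F N u v c d) w = {c0} → False := by
    intro w hwk h1 h2 c0 hc0 hg
    have h3 : c0 ∈ gL (TC_P k N u v (proj d)) (TC_F N u v c d) w := by
      rw [hg]
      exact Finset.mem_singleton_self _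
    obtain ⟨-, ω, ρ, hP, h4⟩ := mem_gL.1 h3
    have eqc : ∀ t, t ∈ gL (TC_P k N u v (proj d)) (TC_F N u v c d) w → t = c0 := by
      intro t ht
      rw [hg] at ht
      exact Finset.mem_singleton.1 ht
    have h5 : oc c = c0 := by
      refine eqc _ (mem ω ρ w (oc c) hP ?_ (TC_F_other h1 h2 (oc_ne hc)))
      rw [h4, hc0.proj, (oc_col hc).proj]
    by_cases h6 : N u w = {c}
    · obtain ⟨x, hx, hxd⟩ : ∃ x ∈ N w v, x ≠ d := by
        by_contra hcon
        push Not at hcon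
        apply hwit w hwk h6
        apply Finset.eq_singleton_iff_nonempty_unique_mem.2
        exact ⟨hI.nonempty hwk hv, hcon⟩
      obtain ⟨ω', hω', hx'⟩ := hI.exact w hwk v hv x hx
      have huw : ω' u w ≠ E := by
        rw [hω'.of_singleton hu hwk h6, hc.proj]
        decide
      have hww : ω' w w = E := hω'.1.refl w hwk
      have hvw : ω' v w = cv4 (proj x) := by
        rw [hω'.1.symm w hwk v hv, hx']
      by_cases hxe : x = e
      · have h7 : ω' v w = E := by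
          rw [hvw, hxe]
          rfl
        have h8 : d = c0 := eqc _ (mem ω' _ w d (hbase ω' hω') (fr_v huw h7) (TC_F_other h1 h2 hdc))
        exact hdcol (h8 ▸ hc0)
      by_cases hxc : Col x
      · have h7 : ω' v w = J := by
          rw [hvw, hxc.proj]
          rfl
        have h7' : ω' v w ≠ E := by
          rw [h7]
          decide
        have h8 : r = c0 := by
          refine eqc _ (mem ω' (fr ω' u v w J (proj d) R) w r ⟨hω', Or.inr ⟨w, hwk, R, Or.inl rfl, huw, h7', ?_, rfl⟩⟩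
            (fr_q huw h7' hww) (TC_F_other h1 h2 (TC_ne hc).1))
          rw [h7]
          exact tri_J_mid hDE (by decide)
        rw [← h8] at hc0
        exact absurd hc0 (by unfold Col; decide)
      · have h7 : x = conv d := by
          revert hxd hxe hxc
          rcases hd with h | h <;> rw [h] <;> cases x <;> simp [Col, conv]
        have h8 : ω' v w = proj d := by
          rw [hvw, h7, proj_conv, cv4_cv4]
        have h8' : ω' v w ≠ E := by
          rw [h8]
          exact hDE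
        have h9 : conv d = c0 := by
          refine eqc _ (mem ω' (fr ω' u v w J (proj d) (cv4 (proj d))) w (conv d)
            ⟨hω', Or.inr ⟨w, hwk, cv4 (proj d), ?_, huw, h8', ?_, rfl⟩⟩
            ?_ (TC_F_other h1 h2 hcdc))
          · rcases hd with h | h <;> rw [h] <;> decide
          · rw [h8]
            rcases hd with h | h <;> rw [h] <;> decide
          · rw [fr_q huw h8' hww, proj_conv]
        exact hcdcol (h9 ▸ hc0)
    · have h7 : c = c0 := by
        refine eqc _ (mem ω ρ w c hP ?_ (TC_F_c h1 h2 h6 c))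
        rw [h4, hc0.proj, hc.proj]
      exact oc_ne hc (h5.trans h7.symm)
  have hXu : ∀ w, w < k → ∀ c0, Col c0 →
      gL (TC_P k N u v (proj d)) (TC_F N u v c d) w = {c0} → w = u ∧ c0 = c := by
    intro w hwk c0 hc0 hg
    have h3 : c0 ∈ gL (TC_P k N u v (proj d)) (TC_F N u v c d) w := by
      rw [hg]
      exact Finset.mem_singleton_self _
    by_cases h1 : w = u
    · rw [h1] at h3
      exact ⟨h1, hFu _ h3⟩
    by_cases h2 : w = v
    · rw [h2] at h3
      exact absurd (hFv _ h3 ▸ hc0) hdcol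
    exact (hX w hwk h1 h2 c0 hc0 hg).elim
  have heuu : e ∈ N u u := by
    rw [hI.diag u hu]
    exact Finset.mem_singleton_self _
  obtain ⟨ω0, hω0, -⟩ := hI.world_E hu hu heuu
  -- common element at one point
  have hone : ∀ w, ∃ t, t ∈ gL (TC_P k N u v (proj d)) (TC_F N u v c d) w ∧ t ≠ e := by
    intro w
    obtain ⟨x, hx, hx2⟩ := hal ω0 _ (hbase ω0 hω0) w
    refine ⟨x, mem ω0 _ w x (hbase ω0 hω0) hx2.symm hx, ?_⟩
    intro h
    rw [h] at hx2
    exact hval ω0 _ (hbase ω0 hω0) w hx2.symm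
  -- c2a with one of the points equal to u or v
  have h2u : ∀ y, y < k → e ∈ N u y → ∃ t, t ∈ gL (TC_P k N u v (proj d)) (TC_F N u v c d) u ∧
      t ∈ gL (TC_P k N u v (proj d)) (TC_F N u v c d) y := by
    intro y hy hey
    by_cases h1 : y = u
    · rw [h1]
      obtain ⟨t, ht, -⟩ := hone u
      exact ⟨t, ht, ht⟩
    by_cases h2 : y = v
    · rw [h2] at hey
      exact absurd hey he
    obtain ⟨ω, hω, hE⟩ := hI.world_E hu hy hey
    have h3 := Row.eq_of_E (hrow ω _ (hbase ω hω)).2 hu hy hE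
    have h4 := TC_u hI hu (hbase ω hω)
    refine ⟨c, mem ω _ u c (hbase ω hω) (by rw [h4, hc.proj]) (by rw [TC_F_u]; exact Finset.mem_singleton_self _),
      mem ω _ y c (hbase ω hω) (by rw [← h3, h4, hc.proj]) (TC_F_c h1 h2 ?_ c)⟩
    intro h5
    rw [h5] at hey
    exact hc.ne_e (Finset.mem_singleton.1 hey).symm
  have h2v : ∀ y, y < k → e ∈ N v y → ∃ t, t ∈ gL (TC_P k N u v (proj d)) (TC_F N u v c d) v ∧
      t ∈ gL (TC_P k N u v (proj d)) (TC_F N u v c d) y := by
    intro y hy hey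
    by_cases h2 : y = v
    · rw [h2]
      obtain ⟨t, ht, -⟩ := hone v
      exact ⟨t, ht, ht⟩
    by_cases h1 : y = u
    · rw [h1] at hey
      exact absurd ((hI.e_symm hv hu).1 hey) he
    obtain ⟨ω, hω, hE⟩ := hI.world_E hv hy hey
    have h3 := Row.eq_of_E (hrow ω _ (hbase ω hω)).2 hv hy hE
    have h4 := TC_v hu hv he (hbase ω hω)
    exact ⟨d, mem ω _ v d (hbase ω hω) h4 (by rw [TC_F_v huv]; exact Finset.mem_singleton_self _),
      mem ω _ y d (hbase ω hω) (by rw [← h3, h4]) (TC_F_other h1 h2 hdc)⟩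
  have hRD : RowData k N (gL (TC_P k N u v (proj d)) (TC_F N u v c d)) := by
    refine hGEN k N (TC_P k N u v (proj d)) (TC_F N u v c d) hrow (fun ω hω => ⟨_, hbase ω hω⟩)
      (fun ω ρ h w _ => hal ω ρ h w) ?_ ?_ ?_ ?_ ?_
    · intro w _
      obtain ⟨t, ht, hte⟩ := hone w
      exact ⟨t, ht, hte⟩
    · intro w hwk x hxk c0 hc0 hg hN hcx
      obtain ⟨rfl, rfl⟩ := hXu w hwk c0 hc0 hg
      by_cases h1 : x = w
      · rw [h1, hI.diag w hu] at hN
        exact hc0.ne_e (Finset.singleton_inj.1 hN).symm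
      by_cases h2 : x = v
      · rw [h2] at hcx
        exact hdc (hFv _ hcx).symm
      exact TC_F_nc h1 h2 hN (mem_gL.1 hcx).1
    · intro x hxk y hyk c0 hc0 hgx hgy hN
      obtain ⟨h1, h2⟩ := hXu x hxk c0 hc0 hgx
      obtain ⟨h3, -⟩ := hXu y hyk c0 hc0 hgy
      rw [h1, h3, hI.diag u hu] at hN
      exact hc0.ne_e (Finset.mem_singleton.1 hN)
    · intro x hxk y hyk hxy
      by_cases h1 : x = u
      · rw [h1] at hxy ⊢
        exact h2u y hyk hxy
      by_cases h2 : x = v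
      · rw [h2] at hxy ⊢
        exact h2v y hyk hxy
      have hyx := (hI.e_symm hxk hyk).1 hxy
      by_cases h3 : y = u
      · rw [h3] at hyx ⊢
        obtain ⟨t, ht, ht2⟩ := h2u x hxk hyx
        exact ⟨t, ht2, ht⟩
      by_cases h4 : y = v
      · rw [h4] at hyx ⊢
        obtain ⟨t, ht, ht2⟩ := h2v x hxk hyx
        exact ⟨t, ht2, ht⟩
      obtain ⟨ω, hω, hE⟩ := hI.world_E hxk hyk hxy
      have h5 := Row.eq_of_E (hrow ω _ (hbase ω hω)).2 hxk hyk hE
      obtain ⟨t, htc, htv⟩ := TC_atom hc (hval ω _ (hbase ω hω) x)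
      exact ⟨t, mem ω _ x t (hbase ω hω) htv.symm (TC_F_other h1 h2 htc),
        mem ω _ y t (hbase ω hω) (by rw [← h5, htv]) (TC_F_other h3 h4 htc)⟩
    · intro x _ y _ hey
      obtain ⟨-, ω, ρ, hP, h1⟩ := mem_gL.1 hey
      exact absurd h1 (hval ω ρ hP y)
  refine hADD k N _ u v {c} {d} hI hRD hu hv ?_ ?_
  · intro x hx
    rw [hFu x hx, mem_cnv, hc.conv]
    exact Finset.mem_singleton_self _
  · intro x hx
    rw [hFv x hx]
    exact Finset.mem_singleton_self _

end Pool.WR
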