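import Pool.Agent.Work.MP_02669e_wr.Interface

namespace Pool.WR

open At A4

/-- rows of TD -/
def TD_P (k : ℕ) (N : ℕ → ℕ → Finset At) (u v : ℕ) (ω : ℕ → ℕ → A4) (ρ : ℕ → A4) : Prop :=
  WorldOf k N ω ∧ (ρ = fr ω u v u J J J ∨
    ∃ q < k, ω u q ≠ E ∧ ω v q ≠ E ∧ ρ = fr ω u v q J J R)

/-- frame of TD -/
def TD_F (N : ℕ → ℕ → Finset At) (u v : ℕ) (c : At) (w : ℕ) : Finset At :=
  if w = u then {c} else if w = v then {a, b} else
    if N u w = {c} then Finset.univ.erase c else Finset.univ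

theorem TD_frJ (ω : ℕ → ℕ → A4) (u v w : ℕ) : fr ω u v u J J J w = J := by
  unfold fr; split_ifs <;> rfl

theorem TD_val {k : ℕ} {N : ℕ → ℕ → Finset At} {u v : ℕ} {ω : ℕ → ℕ → A4} {ρ : ℕ → A4}
    (h : TD_P k N u v ω ρ) (w : ℕ) : ρ w = J ∨ (ρ w = R ∧ ω u w ≠ E ∧ ω v w ≠ E) := by
  rcases h.2 with h1 | ⟨q, _, _, _, h1⟩
  · left; rw [h1]; exact TD_frJ ω u v w
  · by_cases hu : ω u w = E
    · left; rw [h1]; exact fr_u hu
    · by_cases hv : ω v w = E
      · left; rw [h1]; exact fr_v hu hv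
      · by_cases hq : ω q w = E
        · right; exact ⟨by rw [h1]; exact fr_q hu hv hq, hu, hv⟩
        · left; rw [h1]; exact fr_J hu hv hq

theorem TD_oc_mem {c : At} (hc : Col c) : oc c ∈ ({a, b} : Finset At) := by
  rcases hc with h | h <;> subst h <;> decide

theorem TD_col_mem {c : At} (hc : Col c) : c ∈ ({a, b} : Finset At) := by
  rcases hc with h | h <;> subst h <;> decide

theorem p_TD (hFRW : Stmt_FRW) (hGEN : Stmt_GEN) (hADD : Stmt_ADD) : Stmt_TD := by
  intro k N u v c hI hu hv huv hc he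
  obtain ⟨ω0, hω0, _⟩ := hI.world_E hu hv he
  have hcc : Col (oc c) := oc_col hc
  -- membership of colours
  have hcolL : ∀ w c0, Col c0 → c0 ∈ TD_F N u v c w →
      c0 ∈ gL (TD_P k N u v) (TD_F N u v c) w := by
    intro w c0 h0 hF
    refine mem_gL.2 ⟨hF, ω0, fr ω0 u v u J J J, ⟨hω0, Or.inl rfl⟩, ?_⟩
    rw [TD_frJ, h0.proj]
  have hFu : TD_F N u v c u = {c} := by simp [TD_F]
  have hFv : TD_F N u v c v = {a, b} := by simp [TD_F, huv.symm]
  have hFo : ∀ w, w ≠ u → w ≠ v → N u w ≠ {c} → TD_F N u v c w = Finset.univ := by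
    intro w h1 h2 h3; simp [TD_F, h1, h2, h3]
  have hFx : ∀ w, w ≠ u → w ≠ v → N u w = {c} → TD_F N u v c w = Finset.univ.erase c := by
    intro w h1 h2 h3; simp [TD_F, h1, h2, h3]
  have hcu : c ∈ gL (TD_P k N u v) (TD_F N u v c) u := hcolL u c hc (by rw [hFu]; simp)
  have hcv : c ∈ gL (TD_P k N u v) (TD_F N u v c) v :=
    hcolL v c hc (by rw [hFv]; exact TD_col_mem hc)
  have hoc : ∀ w, w ≠ u → oc c ∈ gL (TD_P k N u v) (TD_F N u v c) w := by
    intro w h1
    apply hcolL w _ hcc
    by_cases h2 : w = v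
    · rw [h2, hFv]; exact TD_oc_mem hc
    · by_cases h3 : N u w = {c}
      · rw [hFx w h1 h2 h3]; exact Finset.mem_erase.2 ⟨oc_ne hc, Finset.mem_univ _⟩
      · rw [hFo w h1 h2 h3]; exact Finset.mem_univ _
  have hcy : ∀ w, w < k → w ≠ u → e ∈ N u w →
      c ∈ gL (TD_P k N u v) (TD_F N u v c) w := by
    intro w _ h1 h2
    by_cases h3 : w = v
    · rw [h3]; exact hcv
    · apply hcolL w _ hc
      have h4 : N u w ≠ {c} := by
        intro h5; rw [h5, Finset.mem_singleton] at h2; exact hc.ne_e h2.symm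
      rw [hFo w h1 h3 h4]; exact Finset.mem_univ _
  -- (X)
  have hX : ∀ w, w < k → w ≠ u → ∀ c0, Col c0 →
      gL (TD_P k N u v) (TD_F N u v c) w ≠ {c0} := by
    intro w hw h1 c0 h0 h2
    by_cases h3 : w ≠ v ∧ N u w = {c}
    · obtain ⟨ω, hω, hne⟩ := hI.world_ne hv hw (Ne.symm h3.1)
      have hJ : ω u w = J := by rw [hω.of_singleton hu hw h3.2, hc.proj]
      have hJE : ω u w ≠ E := by rw [hJ]; decide
      have hr : r ∈ gL (TD_P k N u v) (TD_F N u v c) w := by
        refine mem_gL.2 ⟨?_, ω, fr ω u v w J J R, ⟨hω, Or.inr ⟨w, hw, hJE, hne, rfl⟩⟩, ?_⟩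
        · rw [hFx w h1 h3.1 h3.2]
          refine Finset.mem_erase.2 ⟨?_, Finset.mem_univ _⟩
          rcases hc with h | h <;> subst h <;> decide
        · rw [fr_q hJE hne (hω.1.refl w hw)]; rfl
      rw [h2, Finset.mem_singleton] at hr
      rcases h0 with h | h <;> subst h <;> cases hr
    · have hc1 : c ∈ gL (TD_P k N u v) (TD_F N u v c) w := by
        by_cases h4 : w = v
        · rw [h4]; exact hcv
        · have h5 : N u w ≠ {c} := fun h5 => h3 ⟨h4, h5⟩
          apply hcolL w _ hc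
          rw [hFo w h1 h4 h5]; exact Finset.mem_univ _
      have hc2 := hoc w h1
      rw [h2, Finset.mem_singleton] at hc1 hc2
      exact oc_ne hc (hc2.trans hc1.symm)
  have hRD : RowData k N (gL (TD_P k N u v) (TD_F N u v c)) := by
    apply hGEN
    · -- rows
      intro ω ρ h
      refine ⟨h.1, ?_⟩
      have hW := h.1.1
      rcases h.2 with h1 | ⟨q, hq, h2, h3, h1⟩
      · rw [h1]
        exact hFRW k ω u v u J J J hW hu hv hu (by decide) (by decide) (by decide)
          (tri_J_J _) (tri_J_J _) (tri_J_J _)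
      · rw [h1]
        exact hFRW k ω u v q J J R hW hu hv hq (by decide) (by decide) (by decide)
          (tri_J_J _) (tri_J_left h2 (by decide)) (tri_J_left h3 (by decide))
    · intro ω hω
      exact ⟨fr ω u v u J J J, hω, Or.inl rfl⟩
    · -- al
      intro ω ρ h w hw
      rcases TD_val h w with h1 | ⟨h1, h2, h3⟩
      · by_cases hwu : w = u
        · exact ⟨c, by rw [hwu, hFu]; simp, by rw [h1, hc.proj]⟩
        · refine ⟨oc c, (mem_gL.1 (hoc w hwu)).1, by rw [h1, hcc.proj]⟩
      · have hwu : w ≠ u := by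
          intro h4; apply h2; rw [h4]; exact h.1.1.refl u hu
        have hwv : w ≠ v := by
          intro h4; apply h3; rw [h4]; exact h.1.1.refl v hv
        refine ⟨r, ?_, by rw [h1]; rfl⟩
        by_cases h4 : N u w = {c}
        · rw [hFx w hwu hwv h4]
          refine Finset.mem_erase.2 ⟨?_, Finset.mem_univ _⟩
          rcases hc with h | h <;> subst h <;> decide
        · rw [hFo w hwu hwv h4]; exact Finset.mem_univ _
    · -- div
      intro w _
      by_cases hwu : w = u
      · exact ⟨c, by rw [hwu]; exact hcu, hc.ne_e⟩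
      · exact ⟨oc c, hoc w hwu, hcc.ne_e⟩
    · -- c1a
      intro w hw x hx c0 h0 h1 h2 h3
      have hwu : w = u := by
        by_contra h4; exact hX w hw h4 c0 h0 h1
      subst hwu
      have h4 : c = c0 := by
        have := hcu; rw [h1, Finset.mem_singleton] at this; exact this
      subst h4
      have hxu : x ≠ w := by
        intro h5; subst h5
        rw [hI.diag x hx, Finset.singleton_inj] at h2
        exact hc.ne_e h2.symm
      have hxv : x ≠ v := by
        intro h5; subst h5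
        rw [h2, Finset.mem_singleton] at he
        exact hc.ne_e he.symm
      have h5 := (mem_gL.1 h3).1
      rw [hFx x hxu hxv h2] at h5
      exact (Finset.mem_erase.1 h5).1 rfl
    · -- c1b
      intro x hx y hy c0 h0 h1 h2 h3
      have hxu : x = u := by
        by_contra h4; exact hX x hx h4 c0 h0 h1
      have hyu : y = u := by
        by_contra h4; exact hX y hy h4 c0 h0 h2
      rw [hxu, hyu, hI.diag u hu, Finset.mem_singleton] at h3
      exact h0.ne_e h3
    · -- c2a
      intro x hx y hy h1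
      by_cases hxu : x = u
      · by_cases hyu : y = u
        · exact ⟨c, by rw [hxu]; exact hcu, by rw [hyu]; exact hcu⟩
        · exact ⟨c, by rw [hxu]; exact hcu, hcy y hy hyu (by rw [← hxu]; exact h1)⟩
      · by_cases hyu : y = u
        · refine ⟨c, hcy x hx hxu ?_, by rw [hyu]; exact hcu⟩
          rw [← hyu]; exact (hI.e_symm hx hy).1 h1
        · exact ⟨oc c, hoc x hxu, hoc y hyu⟩
    · -- c2b
      intro x _ y _ h1
      obtain ⟨_, ω, ρ, hP, hp⟩ := mem_gL.1 h1
      exfalso
      rcases TD_val hP y with h2 | ⟨h2, _⟩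
      · rw [h2] at hp; cases hp
      · rw [h2] at hp; cases hp
  apply hADD k N _ u v {c} {a, b} hI hRD hu hv
  · intro x hx
    have h1 := (mem_gL.1 hx).1
    rw [hFu, Finset.mem_singleton] at h1
    rw [mem_cnv, h1, hc.conv]; simp
  · intro x hx
    have h1 := (mem_gL.1 hx).1
    rw [hFv] at h1
    exact h1

end Pool.WR
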