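import Pool.Agent.Work.MP_02669e_wr.Interface

/-! Block TE. -/

namespace Pool.WR

open At A4

/-- The rows. -/
def TE_P (k : ℕ) (N : ℕ → ℕ → Finset At) (u v : ℕ) (D : A4) (ω : ℕ → ℕ → A4) (ρ : ℕ → A4) :
    Prop :=
  WorldOf k N ω ∧
    ((ω u v = E ∧ ρ = fr ω u v u J J J) ∨
      (ω u v = E ∧ ∃ q < k, ω u q ≠ E ∧ ω v q ≠ E ∧ ρ = fr ω u v q J J R) ∨
      (ω u v ≠ E ∧ ρ = fr ω u v u J D J))

/-- The bounds of the labels. -/
def TE_F (N : ℕ → ℕ → Finset At) (u v : ℕ) (c d : At) (w : ℕ) : Finset At :=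
  if w = u then {c} else if w = v then {c, d} else
    if N u w = {c} then Finset.univ.erase c else Finset.univ

theorem TE_F_u (N : ℕ → ℕ → Finset At) (u v : ℕ) (c d : At) : TE_F N u v c d u = {c} := by
  simp [TE_F]

theorem TE_F_v (N : ℕ → ℕ → Finset At) {u v : ℕ} (huv : u ≠ v) (c d : At) :
    TE_F N u v c d v = {c, d} := by
  simp [TE_F, huv.symm]

theorem TE_F_w (N : ℕ → ℕ → Finset At) {u v w : ℕ} (hwu : w ≠ u) (hwv : w ≠ v) (c d x : At)
    (hx : x ≠ c) : x ∈ TE_F N u v c d w := by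
  unfold TE_F
  rw [if_neg hwu, if_neg hwv]
  split_ifs
  · exact Finset.mem_erase.2 ⟨hx, Finset.mem_univ _⟩
  · exact Finset.mem_univ _

theorem TE_F_n (N : ℕ → ℕ → Finset At) {u v w : ℕ} (hwu : w ≠ u) (hwv : w ≠ v) {c : At} (d x : At)
    (hx : N u w ≠ {c}) : x ∈ TE_F N u v c d w := by
  unfold TE_F
  rw [if_neg hwu, if_neg hwv, if_neg hx]
  exact Finset.mem_univ _

theorem TE_F_c (N : ℕ → ℕ → Finset At) {u v w : ℕ} (hwu : w ≠ u) (hwv : w ≠ v) {c : At} (d : At)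
    (hx : N u w = {c}) : c ∉ TE_F N u v c d w := by
  unfold TE_F
  rw [if_neg hwu, if_neg hwv, if_pos hx]
  simp

theorem TE_frJ (ω : ℕ → ℕ → A4) (u v w : ℕ) : fr ω u v u J J J w = J := by
  rcases fr_val (ω := ω) (u := u) (v := v) (q := u) (d1 := J) (d2 := J) (d3 := J) w with
    h | h | h | h <;> exact h

theorem TE_row (h1 : Stmt_FRW) {k : ℕ} {N : ℕ → ℕ → Finset At} {u v : ℕ} {D : A4}
    {ω : ℕ → ℕ → A4} {ρ : ℕ → A4} (hu : u < k) (hv : v < k) (hD : D ≠ E)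
    (hP : TE_P k N u v D ω ρ) : Row k ω ρ := by
  obtain ⟨hW, h⟩ := hP
  rcases h with ⟨_, rfl⟩ | ⟨_, q, hq, h2, h3, rfl⟩ | ⟨h2, rfl⟩
  · exact h1 k ω u v u J J J hW.1 hu hv hu (by decide) (by decide) (by decide) (tri_J_J _)
      (tri_J_J _) (tri_J_J _)
  · exact h1 k ω u v q J J R hW.1 hu hv hq (by decide) (by decide) (by decide) (tri_J_J _)
      (tri_J_left h2 (by decide)) (tri_J_left h3 (by decide))
  · exact h1 k ω u v u J D J hW.1 hu hv hu (by decide) hD (by decide) (tri_J_left h2 hD)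
      (tri_J_J _) (tri_J_right hD (hW.1.ne_symE hu hv h2))

/-- no row has the value `E` -/
theorem TE_neE {k : ℕ} {N : ℕ → ℕ → Finset At} {u v : ℕ} {D : A4}
    {ω : ℕ → ℕ → A4} {ρ : ℕ → A4} (hD : D ≠ E) (hP : TE_P k N u v D ω ρ) (w : ℕ) : ρ w ≠ E := by
  obtain ⟨_, h⟩ := hP
  rcases h with ⟨_, rfl⟩ | ⟨_, q, _, _, _, rfl⟩ | ⟨_, rfl⟩
  · rcases fr_val (ω := ω) (u := u) (v := v) (q := u) (d1 := J) (d2 := J) (d3 := J) w with
      h | h | h | h <;> rw [h] <;> decide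
  · rcases fr_val (ω := ω) (u := u) (v := v) (q := q) (d1 := J) (d2 := J) (d3 := R) w with
      h | h | h | h <;> rw [h] <;> decide
  · rcases fr_val (ω := ω) (u := u) (v := v) (q := u) (d1 := J) (d2 := D) (d3 := J) w with
      h | h | h | h <;> rw [h] <;> first | decide | exact hD

theorem TE_val_u {k : ℕ} {N : ℕ → ℕ → Finset At} {u v : ℕ} {D : A4}
    {ω : ℕ → ℕ → A4} {ρ : ℕ → A4} (hu : u < k) (hP : TE_P k N u v D ω ρ) : ρ u = J := by
  obtain ⟨hW, h⟩ := hP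
  have huu := hW.1.refl u hu
  rcases h with ⟨_, rfl⟩ | ⟨_, q, _, _, _, rfl⟩ | ⟨_, rfl⟩
  · exact fr_u huu
  · exact fr_u huu
  · exact fr_u huu

theorem TE_val_w {k : ℕ} {N : ℕ → ℕ → Finset At} {u v : ℕ} {D : A4}
    {ω : ℕ → ℕ → A4} {ρ : ℕ → A4} (hP : TE_P k N u v D ω ρ) (w : ℕ) :
    ρ w = J ∨ ρ w = R ∨ ρ w = D := by
  obtain ⟨_, h⟩ := hP
  rcases h with ⟨_, rfl⟩ | ⟨_, q, _, _, _, rfl⟩ | ⟨_, rfl⟩
  · rcases fr_val (ω := ω) (u := u) (v := v) (q := u) (d1 := J) (d2 := J) (d3 := J) w with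
      h | h | h | h <;> simp [h]
  · rcases fr_val (ω := ω) (u := u) (v := v) (q := q) (d1 := J) (d2 := J) (d3 := R) w with
      h | h | h | h <;> simp [h]
  · rcases fr_val (ω := ω) (u := u) (v := v) (q := u) (d1 := J) (d2 := D) (d3 := J) w with
      h | h | h | h <;> simp [h]

theorem TE_rowData (h1 : Stmt_FRW) (h2 : Stmt_GEN) {k : ℕ} {N : ℕ → ℕ → Finset At} {u v : ℕ}
    {c d : At} (hI : Inv k N) (hu : u < k) (hv : v < k) (huv : u ≠ v) (hc : Col c)
    (hd : d = r ∨ d = s) (he : e ∈ N u v) :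
    RowData k N (gL (TE_P k N u v (proj d)) (TE_F N u v c d)) := by
  have hdE : proj d ≠ E := by rcases hd with rfl | rfl <;> decide
  have hdJ : proj d ≠ J := by rcases hd with rfl | rfl <;> decide
  have hdcol : ∀ c0, Col c0 → d ≠ c0 := by
    intro c0 h0 h
    rw [← h] at h0
    exact hdJ h0.proj
  have hrcol : ∀ c0, Col c0 → r ≠ c0 := by
    intro c0 h0 h
    rw [← h] at h0
    have := h0.proj
    simp [proj] at this
  have hcc := oc_col hc
  -- a world in which `u = v`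
  obtain ⟨ω0, hW0, hE0⟩ := hI.world_E hu hv he
  obtain ⟨ω1, hW1, hE1⟩ := hI.world_ne hu hv huv
  have hP0 : TE_P k N u v (proj d) ω0 (fr ω0 u v u J J J) := ⟨hW0, Or.inl ⟨hE0, rfl⟩⟩
  have hP1 : TE_P k N u v (proj d) ω1 (fr ω1 u v u J (proj d) J) :=
    ⟨hW1, Or.inr (Or.inr ⟨hE1, rfl⟩)⟩
  have cu : c ∈ gL (TE_P k N u v (proj d)) (TE_F N u v c d) u := by
    refine mem_gL.2 ⟨?_, ω0, _, hP0, ?_⟩
    · rw [TE_F_u]; exact Finset.mem_singleton_self c
    · rw [TE_frJ, hc.proj]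
  have cv : c ∈ gL (TE_P k N u v (proj d)) (TE_F N u v c d) v := by
    refine mem_gL.2 ⟨?_, ω0, _, hP0, ?_⟩
    · rw [TE_F_v N huv]; simp
    · rw [TE_frJ, hc.proj]
  have dv : d ∈ gL (TE_P k N u v (proj d)) (TE_F N u v c d) v := by
    refine mem_gL.2 ⟨?_, ω1, _, hP1, ?_⟩
    · rw [TE_F_v N huv]; simp
    · exact fr_v hE1 (hW1.1.refl v hv)
  have co : ∀ w, w ≠ u → w ≠ v →
      oc c ∈ gL (TE_P k N u v (proj d)) (TE_F N u v c d) w := by
    intro w hwu hwv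
    refine mem_gL.2 ⟨TE_F_w N hwu hwv c d _ (oc_ne hc), ω0, _, hP0, ?_⟩
    rw [TE_frJ, hcc.proj]
  have cn : ∀ w, w ≠ u → w ≠ v → N u w ≠ {c} →
      c ∈ gL (TE_P k N u v (proj d)) (TE_F N u v c d) w := by
    intro w hwu hwv hN
    refine mem_gL.2 ⟨TE_F_n N hwu hwv d _ hN, ω0, _, hP0, ?_⟩
    rw [TE_frJ, hc.proj]
  have hX : ∀ w < k, ∀ c0, Col c0 → w ≠ u →
      gL (TE_P k N u v (proj d)) (TE_F N u v c d) w = {c0} → False := by
    intro w hw c0 hc0 hwu hL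
    by_cases hwv : w = v
    · rw [hwv] at hL
      have := dv
      rw [hL, Finset.mem_singleton] at this
      exact hdcol c0 hc0 this
    · have h3 := co w hwu hwv
      rw [hL, Finset.mem_singleton] at h3
      by_cases hN : N u w = {c}
      · have h4 : ω0 u w = J := by rw [hW0.of_singleton hu hw hN, hc.proj]
        have h5 : ω0 v w = J := by rw [← hW0.1.eq_left hu hv hw hE0, h4]
        have h6 : r ∈ gL (TE_P k N u v (proj d)) (TE_F N u v c d) w := by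
          refine mem_gL.2 ⟨TE_F_w N hwu hwv c d _ (hrcol c hc), ω0, fr ω0 u v w J J R,
            ⟨hW0, Or.inr (Or.inl ⟨hE0, w, hw, ?_, ?_, rfl⟩)⟩, ?_⟩
          · rw [h4]; decide
          · rw [h5]; decide
          · rw [fr_q (by rw [h4]; decide) (by rw [h5]; decide) (hW0.1.refl w hw)]
            rfl
        rw [hL, Finset.mem_singleton] at h6
        exact hrcol c0 hc0 h6
      · have h4 := cn w hwu hwv hN
        rw [hL, Finset.mem_singleton] at h4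
        exact oc_ne hc (by rw [h3, h4])
  have hgood : ∀ ω, WorldOf k N ω → ∃ ρ, TE_P k N u v (proj d) ω ρ ∧
      (ω u v = E → ρ = fr ω u v u J J J) ∧ (ω u v ≠ E → ρ = fr ω u v u J (proj d) J) := by
    intro ω hW
    by_cases hE : ω u v = E
    · exact ⟨_, ⟨hW, Or.inl ⟨hE, rfl⟩⟩, fun _ => rfl, fun h => absurd hE h⟩
    · exact ⟨_, ⟨hW, Or.inr (Or.inr ⟨hE, rfl⟩)⟩, fun h => absurd h hE, fun _ => rfl⟩
  -- the pairs with `u`
  have key_u : ∀ y < k, e ∈ N u y →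
      c ∈ gL (TE_P k N u v (proj d)) (TE_F N u v c d) y := by
    intro y hy hey
    by_cases hyu : y = u
    · rw [hyu]; exact cu
    by_cases hyv : y = v
    · rw [hyv]; exact cv
    refine cn y hyu hyv ?_
    intro hN
    rw [hN, Finset.mem_singleton] at hey
    exact hc.ne_e hey.symm
  -- the pairs with `v`
  have key_v : ∀ y < k, e ∈ N v y →
      ∃ c0, c0 ∈ gL (TE_P k N u v (proj d)) (TE_F N u v c d) v ∧
        c0 ∈ gL (TE_P k N u v (proj d)) (TE_F N u v c d) y := by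
    intro y hy hey
    by_cases hyu : y = u
    · rw [hyu]; exact ⟨c, cv, cu⟩
    by_cases hyv : y = v
    · rw [hyv]; exact ⟨c, cv, cv⟩
    obtain ⟨ω, hW, hE⟩ := hI.world_E hv hy hey
    by_cases hE2 : ω u v = E
    · refine ⟨c, cv, cn y hyu hyv ?_⟩
      intro hN
      have h4 : ω u y = J := by rw [hW.of_singleton hu hy hN, hc.proj]
      rw [hW.1.eq_left hu hv hy hE2, hE] at h4
      exact absurd h4 (by decide)
    · refine ⟨d, dv, mem_gL.2 ⟨TE_F_w N hyu hyv c d _ (hdcol c hc), ω,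
        fr ω u v u J (proj d) J, ⟨hW, Or.inr (Or.inr ⟨hE2, rfl⟩)⟩, fr_v ?_ hE⟩⟩
      intro h5
      apply hE2
      rw [hW.1.eq_right hv hy hu hE, h5]
  refine h2 k N (TE_P k N u v (proj d)) (TE_F N u v c d) ?_ ?_ ?_ ?_ ?_ ?_ ?_ ?_
  · intro ω ρ hP
    exact ⟨hP.1, TE_row h1 hu hv hdE hP⟩
  · intro ω hW
    obtain ⟨ρ, hρ, _⟩ := hgood ω hW
    exact ⟨ρ, hρ⟩
  · intro ω ρ hP w hw
    by_cases hwu : w = u
    · subst hwu
      refine ⟨c, ?_, ?_⟩
      · rw [TE_F_u]; exact Finset.mem_singleton_self c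
      · rw [TE_val_u hu hP, hc.proj]
    by_cases hwv : w = v
    · subst hwv
      rw [TE_F_v N huv]
      obtain ⟨hW, h⟩ := hP
      rcases h with ⟨hE, rfl⟩ | ⟨hE, q, _, _, _, rfl⟩ | ⟨hE, rfl⟩
      · exact ⟨c, by simp, by rw [fr_u hE, hc.proj]⟩
      · exact ⟨c, by simp, by rw [fr_u hE, hc.proj]⟩
      · exact ⟨d, by simp, (fr_v hE (hW.1.refl w hv)).symm⟩
    · rcases TE_val_w hP w with h | h | h
      · exact ⟨oc c, TE_F_w N hwu hwv c d _ (oc_ne hc), by rw [h, hcc.proj]⟩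
      · exact ⟨r, TE_F_w N hwu hwv c d _ (hrcol c hc), by rw [h]; rfl⟩
      · exact ⟨d, TE_F_w N hwu hwv c d _ (hdcol c hc), by rw [h]⟩
  · intro w hw
    by_cases hwu : w = u
    · rw [hwu]; exact ⟨c, cu, hc.ne_e⟩
    by_cases hwv : w = v
    · rw [hwv]; exact ⟨c, cv, hc.ne_e⟩
    · exact ⟨oc c, co w hwu hwv, hcc.ne_e⟩
  · intro w hw x hx c0 hc0 hL hN hx0
    by_cases hwu : w = u
    · subst hwu
      have h3 := cu
      rw [hL, Finset.mem_singleton] at h3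
      subst h3
      have hxu : x ≠ w := by
        intro h
        rw [h, hI.diag w hw] at hN
        exact hc.ne_e (Finset.singleton_inj.1 hN).symm
      have hxv : x ≠ v := by
        intro h
        rw [h] at hN
        rw [hN, Finset.mem_singleton] at he
        exact hc.ne_e he.symm
      exact TE_F_c N hxu hxv d hN (mem_gL.1 hx0).1
    · exact hX w hw c0 hc0 hwu hL
  · intro x hx y hy c0 hc0 hLx hLy hN
    by_cases hxu : x = u
    · by_cases hyu : y = u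
      · rw [hxu, hyu, hI.diag u hu, Finset.mem_singleton] at hN
        exact hc0.ne_e hN
      · exact hX y hy c0 hc0 hyu hLy
    · exact hX x hx c0 hc0 hxu hLx
  · intro x hx y hy hxy
    by_cases hxu : x = u
    · subst hxu
      exact ⟨c, cu, key_u y hy hxy⟩
    by_cases hyu : y = u
    · subst hyu
      exact ⟨c, key_u x hx ((hI.e_symm hx hy).1 hxy), cu⟩
    by_cases hxv : x = v
    · subst hxv
      exact key_v y hy hxy
    by_cases hyv : y = v
    · subst hyv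
      obtain ⟨c0, ha, hb⟩ := key_v x hx ((hI.e_symm hx hy).1 hxy)
      exact ⟨c0, hb, ha⟩
    exact ⟨oc c, co x hxu hxv, co y hyu hyv⟩
  · intro x hx y hy hey
    obtain ⟨_, ω, ρ, hP, hρ⟩ := mem_gL.1 hey
    exact absurd hρ (TE_neE hdE hP y)

theorem p_TE (h1 : Stmt_FRW) (h2 : Stmt_GEN) (h3 : Stmt_ADD) : Stmt_TE := by
  intro k N u v c d hI hu hv huv hc hd he
  refine h3 k N _ u v {c} {c, d} hI (TE_rowData h1 h2 hI hu hv huv hc hd he) hu hv ?_ ?_
  · intro x hx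
    have h4 := (mem_gL.1 hx).1
    rw [TE_F_u, Finset.mem_singleton] at h4
    rw [mem_cnv, h4, hc.conv]
    exact Finset.mem_singleton_self c
  · intro x hx
    have h4 := (mem_gL.1 hx).1
    rw [TE_F_v N huv] at h4
    exact h4

end Pool.WR
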