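import Pool.Agent.Work.MP_02669e_wr.Interface

/-! Block TG (typed by helper84). -/

namespace Pool.WR

open At A4

theorem TG_surj (y : A4) : ∃ x : At, proj x = y := by
  cases y
  · exact ⟨e, rfl⟩
  · exact ⟨a, rfl⟩
  · exact ⟨r, rfl⟩
  · exact ⟨s, rfl⟩

/-- the family of rows -/
def TG_P (k : ℕ) (N : ℕ → ℕ → Finset At) (u v : ℕ) (D' : A4) (ω : ℕ → ℕ → A4) (ρ : ℕ → A4) :
    Prop :=
  WorldOf k N ω ∧ ((ω u v = E ∧ ρ = fr ω u v u D' D' D') ∨
    (ω u v ≠ E ∧ ρ = fr ω u v u D' J D'))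

theorem TG_val {k : ℕ} {N : ℕ → ℕ → Finset At} {u v : ℕ} {D' : A4} {ω : ℕ → ℕ → A4}
    {ρ : ℕ → A4} (h : TG_P k N u v D' ω ρ) (w : ℕ) : ρ w = D' ∨ ρ w = J := by
  rcases h.2 with ⟨_, h2⟩ | ⟨_, h2⟩
  · rw [h2]
    rcases fr_val (ω := ω) (u := u) (v := v) (q := u) (d1 := D') (d2 := D') (d3 := D') w with
      h | h | h | h <;> rw [h] <;> simp
  · rw [h2]
    rcases fr_val (ω := ω) (u := u) (v := v) (q := u) (d1 := D') (d2 := J) (d3 := D') w with
      h | h | h | h <;> rw [h] <;> simp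

theorem TG_u {k : ℕ} {N : ℕ → ℕ → Finset At} {u v : ℕ} {D' : A4} {ω : ℕ → ℕ → A4}
    {ρ : ℕ → A4} (h : TG_P k N u v D' ω ρ) (hu : u < k) : ρ u = D' := by
  have h0 : ω u u = E := h.1.1.refl u hu
  rcases h.2 with ⟨_, h2⟩ | ⟨_, h2⟩
  · rw [h2, fr_u h0]
  · rw [h2, fr_u h0]

theorem TG_row (hF : Stmt_FRW) {k : ℕ} {N : ℕ → ℕ → Finset At} {u v : ℕ} {D' : A4}
    (hD : D' ≠ E) {ω : ℕ → ℕ → A4} {ρ : ℕ → A4} (h : TG_P k N u v D' ω ρ) (hu : u < k)
    (hv : v < k) : Row k ω ρ := by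
  have hw := h.1.1
  have h0 : ω u u = E := hw.refl u hu
  rcases h.2 with ⟨h1, h2⟩ | ⟨h1, h2⟩
  · rw [h2]
    apply hF k ω u v u D' D' D' hw hu hv hu hD hD hD
    · rw [h1]; exact tri_E_mid.2 rfl
    · rw [h0]; exact tri_E_mid.2 rfl
    · rw [hw.symE hu hv h1]; exact tri_E_mid.2 rfl
  · rw [h2]
    apply hF k ω u v u D' J D' hw hu hv hu hD (by decide) hD
    · exact tri_J_right hD h1
    · rw [h0]; exact tri_E_mid.2 rfl
    · exact tri_J_left (hw.ne_symE hu hv h1) hD

theorem p_TG (hFRW : Stmt_FRW) (hGEN : Stmt_GEN) (hADD : Stmt_ADD) : Stmt_TG := by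
  classical
  intro k N u v c d hI hu hv huv hc hd heuv
  set D' : A4 := proj (conv d) with hD'
  have hDE : D' ≠ E := by
    rcases hd with h | h <;> subst h <;> decide
  have hDJ : D' ≠ J := by
    rcases hd with h | h <;> subst h <;> decide
  have hdcol : ¬ Col (conv d) := by
    intro h
    exact hDJ h.proj
  let F : ℕ → Finset At := fun w =>
    if w = u then {conv d} else if w = v then {c, conv d} else Finset.univ
  have hFu : F u = {conv d} := if_pos rfl
  have hFv : F v = {c, conv d} := by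
    show (if v = u then {conv d} else if v = v then {c, conv d} else Finset.univ) = _
    rw [if_neg (Ne.symm huv), if_pos rfl]
  have hFo : ∀ w, w ≠ u → w ≠ v → F w = Finset.univ := by
    intro w h1 h2
    show (if w = u then {conv d} else if w = v then {c, conv d} else Finset.univ) = _
    rw [if_neg h1, if_neg h2]
  have hFd : ∀ w, conv d ∈ F w := by
    intro w
    by_cases h1 : w = u
    · rw [h1, hFu]; simp
    · by_cases h2 : w = v
      · rw [h2, hFv]; simp
      · rw [hFo w h1 h2]; simp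
  have hFc : ∀ w, w ≠ u → c ∈ F w := by
    intro w h1
    by_cases h2 : w = v
    · rw [h2, hFv]; simp
    · rw [hFo w h1 h2]; simp
  have hal : ∀ ω ρ, TG_P k N u v D' ω ρ → ∀ w < k, ∃ x ∈ F w, proj x = ρ w := by
    intro ω ρ hP w hw
    rcases TG_val hP w with h | h
    · exact ⟨conv d, hFd w, by rw [h]⟩
    · have hwu : w ≠ u := by
        intro h1
        rw [h1, TG_u hP hu] at h
        exact hDJ h
      exact ⟨c, hFc w hwu, by rw [h]; exact hc.proj⟩
  have hex : ∀ ω, WorldOf k N ω → ∃ ρ, TG_P k N u v D' ω ρ := by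
    intro ω hω
    by_cases h : ω u v = E
    · exact ⟨_, hω, Or.inl ⟨h, rfl⟩⟩
    · exact ⟨_, hω, Or.inr ⟨h, rfl⟩⟩
  obtain ⟨ω0, hω0, h0⟩ := hI.world_E hu hv heuv
  have hP0 : TG_P k N u v D' ω0 (fr ω0 u v u D' D' D') := ⟨hω0, Or.inl ⟨h0, rfl⟩⟩
  have hdv : conv d ∈ gL (TG_P k N u v D') F v := by
    rw [mem_gL]
    exact ⟨hFd v, ω0, _, hP0, by rw [fr_u h0]⟩
  have hX : ∀ w < k, ∀ c0, Col c0 → gL (TG_P k N u v D') F w ≠ {c0} := by
    intro w hw c0 hc0 hL
    have h1 : c0 ∈ gL (TG_P k N u v D') F w := by rw [hL]; simp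
    rw [mem_gL] at h1
    obtain ⟨h2, ω, ρ, hP, hρ⟩ := h1
    by_cases hwu : w = u
    · rw [hwu, hFu, Finset.mem_singleton] at h2
      rw [h2] at hc0
      exact hdcol hc0
    · by_cases hwv : w = v
      · rw [hwv] at hL
        rw [hL, Finset.mem_singleton] at hdv
        rw [← hdv] at hc0
        exact hdcol hc0
      · have h3 : oc c0 ∈ gL (TG_P k N u v D') F w := by
          rw [mem_gL]
          refine ⟨by rw [hFo w hwu hwv]; simp, ω, ρ, hP, ?_⟩
          rw [hρ, hc0.proj, (oc_col hc0).proj]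
        rw [hL, Finset.mem_singleton] at h3
        exact oc_ne hc0 h3
  have hRD : RowData k N (gL (TG_P k N u v D') F) := by
    apply hGEN k N (TG_P k N u v D') F
    · intro ω ρ hP
      exact ⟨hP.1, TG_row hFRW hDE hP hu hv⟩
    · exact hex
    · exact hal
    · intro w hw
      obtain ⟨x, hx, hpx⟩ := hal ω0 _ hP0 w hw
      refine ⟨x, mem_gL.2 ⟨hx, ω0, _, hP0, hpx.symm⟩, ?_⟩
      intro hxe
      rcases TG_val hP0 w with h | h
      · rw [h, hxe] at hpx
        exact hDE hpx.symm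
      · rw [h, hxe] at hpx
        exact absurd hpx (by decide)
    · intro w hw x hx c0 hc0 hL
      exact absurd hL (hX w hw c0 hc0)
    · intro x hx y hy c0 hc0 hL
      exact absurd hL (hX x hx c0 hc0)
    · intro x hx y hy hexy
      obtain ⟨ω, hω, hE⟩ := hI.world_E hx hy hexy
      obtain ⟨ρ, hP⟩ := hex ω hω
      have hrow := TG_row hFRW hDE hP hu hv
      have heq : ρ x = ρ y := hrow.eq_of_E hx hy hE
      rcases TG_val hP x with h | h
      · refine ⟨conv d, mem_gL.2 ⟨hFd x, ω, ρ, hP, h⟩, mem_gL.2 ⟨hFd y, ω, ρ, hP, ?_⟩⟩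
        rw [← heq, h]
      · have hxu : x ≠ u := by
          intro h1
          rw [h1, TG_u hP hu] at h
          exact hDJ h
        have hyu : y ≠ u := by
          intro h1
          rw [heq, h1, TG_u hP hu] at h
          exact hDJ h
        refine ⟨c, mem_gL.2 ⟨hFc x hxu, ω, ρ, hP, ?_⟩, mem_gL.2 ⟨hFc y hyu, ω, ρ, hP, ?_⟩⟩
        · rw [h, hc.proj]
        · rw [← heq, h, hc.proj]
    · intro x hx y hy he
      rw [mem_gL] at he
      obtain ⟨_, ω, ρ, hP, hρ⟩ := he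
      exfalso
      rcases TG_val hP y with h | h
      · rw [h] at hρ
        exact hDE hρ
      · rw [h] at hρ
        exact absurd hρ (by decide)
  apply hADD k N _ u v {d} {c, conv d} hI hRD hu hv
  · intro x hx
    rw [mem_gL, hFu] at hx
    rw [mem_cnv, Finset.mem_singleton.1 hx.1, conv_conv]
    simp
  · intro x hx
    rw [mem_gL, hFv] at hx
    exact hx.1

end Pool.WR
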