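import Pool.Agent.Work.MP_02669e_wr.Interface

/-! # Block TH: demands without colours -/

namespace Pool.WR

open At A4

/-- the rows for the demand `(α, β)` at `(u, v)` -/
def TH_P (k : ℕ) (N : ℕ → ℕ → Finset At) (u v : ℕ) (α β : Finset At)
    (ω : ℕ → ℕ → A4) (ρ : ℕ → A4) : Prop :=
  WorldOf k N ω ∧ Row k ω ρ ∧ (∃ d ∈ α, ρ u = cv4 (proj d)) ∧ ∃ d' ∈ β, ρ v = proj d'

theorem TH_surj (y : A4) : ∃ x : At, proj x = y := by
  cases y
  · exact ⟨e, rfl⟩
  · exact ⟨a, rfl⟩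
  · exact ⟨r, rfl⟩
  · exact ⟨s, rfl⟩

section
variable {k : ℕ} {N : ℕ → ℕ → Finset At} {u v : ℕ} {α β : Finset At}

theorem TH_mem {w : ℕ} {x : At} :
    x ∈ gL (TH_P k N u v α β) (fun _ => Finset.univ) w ↔
      ∃ ω ρ, TH_P k N u v α β ω ρ ∧ ρ w = proj x := by
  rw [mem_gL]
  simp

theorem TH_not {w : ℕ} {c : At} (hc : Col c) :
    gL (TH_P k N u v α β) (fun _ => Finset.univ) w ≠ {c} := by
  intro h
  have h1 : c ∈ gL (TH_P k N u v α β) (fun _ => Finset.univ) w := by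
    rw [h]
    exact Finset.mem_singleton_self c
  obtain ⟨ω, ρ, hP, hρ⟩ := TH_mem.1 h1
  have h2 : oc c ∈ gL (TH_P k N u v α β) (fun _ => Finset.univ) w := by
    refine TH_mem.2 ⟨ω, ρ, hP, ?_⟩
    rw [hρ, hc.proj, (oc_col hc).proj]
  rw [h, Finset.mem_singleton] at h2
  exact oc_ne hc h2

theorem TH_col {d : At} (hα : α ⊆ {e, r, s}) (hd : d ∈ α) : proj d ≠ J := by
  have := hα hd
  simp only [Finset.mem_insert, Finset.mem_singleton] at this
  rcases this with h | h | h <;> subst h <;> decide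

theorem TH_colc {d : At} (hα : α ⊆ {e, r, s}) (hd : d ∈ α) : proj (conv d) ≠ J := by
  have := hα hd
  simp only [Finset.mem_insert, Finset.mem_singleton] at this
  rcases this with h | h | h <;> subst h <;> decide

theorem TH_e_left {x y : At} (h : x ∈ comp e y) : x = y := by
  revert h
  cases x <;> cases y <;> decide

theorem TH_e_right {x y : At} (h : x ∈ comp y e) : x = y := by
  revert h
  cases x <;> cases y <;> decide

/-- each world has a row -/
theorem TH_ex (hFRW : Stmt_FRW) (hu : u < k) (hv : v < k)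
    (hN : N u v ⊆ cmp α β) (ω : ℕ → ℕ → A4) (hω : WorldOf k N ω) :
    ∃ ρ, TH_P k N u v α β ω ρ := by
  obtain ⟨x, hx, hxω⟩ := hω.2 u hu v hv
  obtain ⟨d, hd, d', hd', hc⟩ := mem_cmp.1 (hN hx)
  have huu : ω u u = E := hω.1.refl u hu
  have hvv : ω v v = E := hω.1.refl v hv
  by_cases hde : d = e
  · subst hde
    have hxd : x = d' := TH_e_left hc
    refine ⟨fun w => ω u w, hω, fun p hp q hq => hω.1.tri u hu p hp q hq, ⟨e, hd, ?_⟩,
      ⟨d', hd', ?_⟩⟩
    · exact huu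
    · simp only
      rw [← hxω, hxd]
  by_cases hde' : d' = e
  · subst hde'
    have hxd : x = d := TH_e_right hc
    refine ⟨fun w => ω v w, hω, fun p hp q hq => hω.1.tri v hv p hp q hq, ⟨d, hd, ?_⟩,
      ⟨e, hd', ?_⟩⟩
    · simp only
      rw [hω.1.symm u hu v hv, ← hxω, hxd]
    · exact hvv
  have hdE : proj d ≠ E := fun h => hde ((proj_eq_E d).1 h)
  have hdE' : proj d' ≠ E := fun h => hde' ((proj_eq_E d').1 h)
  have hcE : cv4 (proj d) ≠ E := fun h => hdE ((cv4_eq_E _).1 h)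
  have ht : tri (cv4 (proj d)) (ω u v) (proj d') = true := by
    rw [← hxω, ← tri_rot2]
    exact tri_of_comp hc
  refine ⟨fr ω u v u (cv4 (proj d)) (proj d') (cv4 (proj d)), hω,
    hFRW k ω u v u _ _ _ hω.1 hu hv hu hcE hdE' hcE ht ?_ ?_, ⟨d, hd, fr_u huu⟩, ⟨d', hd', ?_⟩⟩
  · rw [huu]
    exact tri_E_mid.2 rfl
  · rw [hω.1.symm u hu v hv, ← tri_rot]
    exact ht
  · by_cases huv : ω u v = E
    · rw [fr_u huv]
      rw [huv] at ht
      exact tri_E_mid.1 ht
    · exact fr_v huv hvv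

end

/-- TH -/
theorem p_TH (hFRW : Stmt_FRW) (hGEN : Stmt_GEN) (hADD : Stmt_ADD) : Stmt_TH := by
  intro k N u v α β hI hu hv hα hβ hN
  by_cases hwit : Wit k N u v α β
  · exact Sat.of_wit hI hwit
  have hex := fun ω hω => TH_ex (k := k) (N := N) (u := u) (v := v) hFRW hu hv hN ω hω
  have hRD : RowData k N (gL (TH_P k N u v α β) (fun _ => Finset.univ)) := by
    apply hGEN
    · intro ω ρ hP
      exact ⟨hP.1, hP.2.1⟩
    · exact hex
    · intro ω ρ _ w _
      obtain ⟨x, hx⟩ := TH_surj (ρ w)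
      exact ⟨x, Finset.mem_univ x, hx⟩
    · intro w hw
      by_contra hcon
      simp only [not_exists, not_and, not_not] at hcon
      have hE : ∀ ω ρ, TH_P k N u v α β ω ρ → ρ w = E := by
        intro ω ρ hP
        obtain ⟨x, hx⟩ := TH_surj (ρ w)
        have := hcon x (TH_mem.2 ⟨ω, ρ, hP, hx.symm⟩)
        rw [← hx, this]
        rfl
      apply hwit
      refine ⟨w, hw, ?_, ?_⟩
      · intro y hy
        obtain ⟨ω, hω, h1⟩ := hI.exact u hu w hw y hy
        obtain ⟨ρ, hP⟩ := hex ω hω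
        obtain ⟨d, hd, h2⟩ := hP.2.2.1
        have h3 := hP.2.1 u hu w hw
        rw [h1, hE ω ρ hP] at h3
        have h4 := tri_E_right.1 h3
        rw [h2, cv4_cv4] at h4
        rw [proj_inj h4 (by rw [h4]; exact TH_col hα hd)]
        exact hd
      · intro y hy
        obtain ⟨ω, hω, h1⟩ := hI.exact w hw v hv y hy
        obtain ⟨ρ, hP⟩ := hex ω hω
        obtain ⟨d', hd', h2⟩ := hP.2.2.2
        have h3 := hP.2.1 w hw v hv
        rw [h1, hE ω ρ hP] at h3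
        have h4 := tri_E_left.1 h3
        rw [h2] at h4
        rw [proj_inj h4 (by rw [h4]; exact TH_col hβ hd')]
        exact hd'
    · intro w _ x _ c hc h1 _
      exact absurd h1 (TH_not hc)
    · intro x _ y _ c hc h1 _
      exact absurd h1 (TH_not hc)
    · intro x hx y hy hexy
      obtain ⟨ω, hω, h1⟩ := hI.world_E hx hy hexy
      obtain ⟨ρ, hP⟩ := hex ω hω
      have h2 := hP.2.1.eq_of_E hx hy h1
      obtain ⟨z, hz⟩ := TH_surj (ρ x)
      exact ⟨z, TH_mem.2 ⟨ω, ρ, hP, hz.symm⟩, TH_mem.2 ⟨ω, ρ, hP, by rw [← h2, hz]⟩⟩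
    · intro x hx y hy hey
      obtain ⟨ω, ρ, hP, h1⟩ := TH_mem.1 hey
      have h2 := hP.2.1 y hy x hx
      have h3 : ρ y = E := h1
      rw [h3] at h2
      have h4 := tri_E_left.1 h2
      obtain ⟨c, hc, hcp⟩ := hP.1.2 y hy x hx
      exact ⟨c, TH_mem.2 ⟨ω, ρ, hP, by rw [← h4, hcp]⟩, hc⟩
  refine hADD k N _ u v α β hI hRD hu hv ?_ ?_
  · intro x hx
    obtain ⟨ω, ρ, hP, h1⟩ := TH_mem.1 hx
    obtain ⟨d, hd, h2⟩ := hP.2.2.1
    rw [h2, ← proj_conv] at h1
    have h3 := proj_inj h1 (TH_colc hα hd)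
    rw [mem_cnv, ← h3, conv_conv]
    exact hd
  · intro x hx
    obtain ⟨ω, ρ, hP, h1⟩ := TH_mem.1 hx
    obtain ⟨d', hd', h2⟩ := hP.2.2.2
    rw [h2] at h1
    rw [← proj_inj h1 (TH_col hβ hd')]
    exact hd'

end Pool.WR
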