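import Pool.Agent.Work.MP_02669e_wr.Interface

/-! MP_02669e_lc, theorem P, block TI: the demand `({e, c}, {e, d})` when `e` is in the label. -/

namespace Pool.WR

open At A4

/-- The rows used for the demand. -/
def TI_P (k : ℕ) (N : ℕ → ℕ → Finset At) (u v : ℕ) (d : At) (ω : ℕ → ℕ → A4) (ρ : ℕ → A4) :
    Prop :=
  WorldOf k N ω ∧ ((ω u v = E ∧ ρ = fun w => ω u w) ∨
    (ω u v ≠ E ∧ ρ = fr ω u v u J (proj d) J))

/-- The allowed labels. -/
def TI_F (u v : ℕ) (c d : At) (w : ℕ) : Finset At :=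
  if w = u then {e, c} else if w = v then {e, d} else Finset.univ

theorem TI_surj (δ : A4) : ∃ x : At, proj x = δ := by
  cases δ
  · exact ⟨e, rfl⟩
  · exact ⟨a, rfl⟩
  · exact ⟨r, rfl⟩
  · exact ⟨s, rfl⟩

theorem p_TI (h1 : Stmt_FRW) (h2 : Stmt_GEN) (h3 : Stmt_ADD) : Stmt_TI := by
  intro k N u v c d hI hu hv huv hc hde hdc heN
  have hD : proj d ≠ E := fun h => hde ((proj_eq_E d).1 h)
  obtain ⟨ωE, hωE, hEE⟩ := hI.world_E hu hv heN
  obtain ⟨ωN, hωN, hNE⟩ := hI.world_ne hu hv huv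
  have hFu : TI_F u v c d u = {e, c} := by simp [TI_F]
  have hFv : TI_F u v c d v = {e, d} := by simp [TI_F, huv.symm]
  have hFo : ∀ w, w ≠ u → w ≠ v → TI_F u v c d w = Finset.univ := by
    intro w h4 h5; simp [TI_F, h4, h5]
  have heF : ∀ w, e ∈ TI_F u v c d w := by
    intro w
    by_cases hwu : w = u
    · rw [hwu, hFu]; simp
    by_cases hwv : w = v
    · rw [hwv, hFv]; simp
    rw [hFo w hwu hwv]; exact Finset.mem_univ _
  generalize hF : TI_F u v c d = F at hFu hFv hFo heF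
  have hPrs : ∀ ω ρ, TI_P k N u v d ω ρ → WorldOf k N ω ∧ Row k ω ρ := by
    rintro ω ρ ⟨hω, ⟨hE, rfl⟩ | ⟨hE, rfl⟩⟩
    · exact ⟨hω, fun x hx y hy => hω.1.tri u hu x hx y hy⟩
    · refine ⟨hω, h1 k ω u v u J (proj d) J hω.1 hu hv hu (by decide) hD (by decide) ?_ ?_ ?_⟩
      · exact tri_J_left hE hD
      · exact tri_J_J _
      · exact tri_J_right hD (hω.1.ne_symE hu hv hE)
  have hex : ∀ ω, WorldOf k N ω → ∃ ρ, TI_P k N u v d ω ρ := by
    intro ω hω
    by_cases hE : ω u v = E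
    · exact ⟨_, hω, Or.inl ⟨hE, rfl⟩⟩
    · exact ⟨_, hω, Or.inr ⟨hE, rfl⟩⟩
  have hvu : ∀ ω ρ, TI_P k N u v d ω ρ → ρ u = E ∨ ρ u = J := by
    rintro ω ρ ⟨hω, ⟨hE, rfl⟩ | ⟨hE, rfl⟩⟩
    · exact Or.inl (hω.1.refl u hu)
    · exact Or.inr (fr_u (hω.1.refl u hu))
  have hvv : ∀ ω ρ, TI_P k N u v d ω ρ → ρ v = E ∨ ρ v = proj d := by
    rintro ω ρ ⟨hω, ⟨hE, rfl⟩ | ⟨hE, rfl⟩⟩
    · exact Or.inl hE
    · exact Or.inr (fr_v hE (hω.1.refl v hv))
  -- an atom in `F w` with the value of the row is in the label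
  have hmem : ∀ ω ρ, TI_P k N u v d ω ρ → ∀ w, ∀ z ∈ F w, proj z = ρ w →
      z ∈ gL (TI_P k N u v d) F w := by
    intro ω ρ hP w z hz hp
    exact mem_gL.2 ⟨hz, ω, ρ, hP, hp.symm⟩
  have hatu : ∀ ω ρ, TI_P k N u v d ω ρ → ∃ x ∈ F u, proj x = ρ u := by
    intro ω ρ hP
    rcases hvu ω ρ hP with h | h
    · exact ⟨e, heF u, by rw [h]; rfl⟩
    · exact ⟨c, by rw [hFu]; simp, by rw [h, hc.proj]⟩
  have hatv : ∀ ω ρ, TI_P k N u v d ω ρ → ∃ x ∈ F v, proj x = ρ v := by
    intro ω ρ hP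
    rcases hvv ω ρ hP with h | h
    · exact ⟨e, heF v, by rw [h]; rfl⟩
    · exact ⟨d, by rw [hFv]; simp, by rw [h]⟩
  have hal : ∀ ω ρ, TI_P k N u v d ω ρ → ∀ w < k, ∃ x ∈ F w, proj x = ρ w := by
    intro ω ρ hP w _
    by_cases hwu : w = u
    · subst hwu; exact hatu ω ρ hP
    by_cases hwv : w = v
    · subst hwv; exact hatv ω ρ hP
    obtain ⟨x, hx⟩ := TI_surj (ρ w)
    exact ⟨x, by rw [hFo w hwu hwv]; exact Finset.mem_univ _, hx⟩
  have hPE : TI_P k N u v d ωE (fun w => ωE u w) := ⟨hωE, Or.inl ⟨hEE, rfl⟩⟩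
  have hPN : TI_P k N u v d ωN (fr ωN u v u J (proj d) J) := ⟨hωN, Or.inr ⟨hNE, rfl⟩⟩
  have hEu : e ∈ gL (TI_P k N u v d) F u :=
    mem_gL.2 ⟨heF u, _, _, hPE, hωE.1.refl u hu⟩
  have hEv : e ∈ gL (TI_P k N u v d) F v := mem_gL.2 ⟨heF v, _, _, hPE, hEE⟩
  have hCu : c ∈ gL (TI_P k N u v d) F u :=
    mem_gL.2 ⟨by rw [hFu]; simp, _, _, hPN, by rw [fr_u (hωN.1.refl u hu), hc.proj]⟩
  have hDv : d ∈ gL (TI_P k N u v d) F v :=
    mem_gL.2 ⟨by rw [hFv]; simp, _, _, hPN, fr_v hNE (hωN.1.refl v hv)⟩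
  have hX : ∀ w, ∀ c0, Col c0 → gL (TI_P k N u v d) F w ≠ {c0} := by
    intro w c0 hc0 h
    by_cases hwu : w = u
    · subst hwu
      rw [h, Finset.mem_singleton] at hEu
      exact hc0.ne_e hEu.symm
    by_cases hwv : w = v
    · subst hwv
      rw [h, Finset.mem_singleton] at hEv
      exact hc0.ne_e hEv.symm
    have h4 : c0 ∈ gL (TI_P k N u v d) F w := by rw [h]; exact Finset.mem_singleton_self _
    obtain ⟨_, ω, ρ, hP, hr⟩ := mem_gL.1 h4
    have h5 : oc c0 ∈ gL (TI_P k N u v d) F w :=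
      mem_gL.2 ⟨by rw [hFo w hwu hwv]; exact Finset.mem_univ _, ω, ρ, hP,
        by rw [hr, hc0.proj, (oc_col hc0).proj]⟩
    rw [h, Finset.mem_singleton] at h5
    exact oc_ne hc0 h5
  have hRD : RowData k N (gL (TI_P k N u v d) F) := by
    refine h2 k N (TI_P k N u v d) F hPrs hex hal ?_ ?_ ?_ ?_ ?_
    · -- div
      intro w _
      by_cases hwu : w = u
      · subst hwu; exact ⟨c, hCu, hc.ne_e⟩
      by_cases hwv : w = v
      · subst hwv; exact ⟨d, hDv, hde⟩
      obtain ⟨x, hx⟩ := TI_surj (fr ωN u v u J (proj d) J w)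
      refine ⟨x, hmem _ _ hPN w x (by rw [hFo w hwu hwv]; exact Finset.mem_univ _) hx, ?_⟩
      rintro rfl
      have h4 : fr ωN u v u J (proj d) J w = E := hx.symm
      rcases fr_val (ω := ωN) (u := u) (v := v) (q := u) (d1 := J) (d2 := proj d) (d3 := J) w
        with h | h | h | h
      · rw [h4] at h; exact absurd h (by decide)
      · rw [h4] at h; exact hD h.symm
      · rw [h4] at h; exact absurd h (by decide)
      · rw [h4] at h; exact absurd h (by decide)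
    · intro w _ x _ c0 hc0 h
      exact absurd h (hX w c0 hc0)
    · intro x _ y _ c0 hc0 h
      exact absurd h (hX x c0 hc0)
    · -- c2a
      intro x hx y hy he
      obtain ⟨ω, hω, hE⟩ := hI.world_E hx hy he
      obtain ⟨ρ, hP⟩ := hex ω hω
      have hρ : ρ x = ρ y := Row.eq_of_E (hPrs ω ρ hP).2 hx hy hE
      -- it is enough to find an atom in `F x` and `F y` with the value of the row
      have key : ∀ z, z ∈ F x → z ∈ F y → proj z = ρ x →
          ∃ c, c ∈ gL (TI_P k N u v d) F x ∧ c ∈ gL (TI_P k N u v d) F y := by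
        intro z h4 h5 h6
        exact ⟨z, hmem ω ρ hP x z h4 h6, hmem ω ρ hP y z h5 (h6.trans hρ)⟩
      by_cases hxu : x = u
      · by_cases hyu : y = u
        · rw [hxu, hyu]; exact ⟨e, hEu, hEu⟩
        by_cases hyv : y = v
        · rw [hxu, hyv]; exact ⟨e, hEu, hEv⟩
        obtain ⟨z, hz, hz2⟩ := hatu ω ρ hP
        refine key z (by rw [hxu]; exact hz) ?_ (by rw [hxu]; exact hz2)
        rw [hFo y hyu hyv]; exact Finset.mem_univ _
      by_cases hxv : x = v
      · by_cases hyu : y = u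
        · rw [hxv, hyu]; exact ⟨e, hEv, hEu⟩
        by_cases hyv : y = v
        · rw [hxv, hyv]; exact ⟨e, hEv, hEv⟩
        obtain ⟨z, hz, hz2⟩ := hatv ω ρ hP
        refine key z (by rw [hxv]; exact hz) ?_ (by rw [hxv]; exact hz2)
        rw [hFo y hyu hyv]; exact Finset.mem_univ _
      obtain ⟨z, hz, hz2⟩ := hal ω ρ hP y hy
      refine key z ?_ hz (by rw [hρ]; exact hz2)
      rw [hFo x hxu hxv]; exact Finset.mem_univ _
    · -- c2b
      intro x hx y hy he
      obtain ⟨_, ω, ρ, hP, hr⟩ := mem_gL.1 he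
      obtain ⟨hω, ⟨hE, rfl⟩ | ⟨hE, rfl⟩⟩ := id hP
      · have hy0 : ω u y = E := hr
        have hxy : ω u x = ω y x := hω.1.eq_left hu hy hx hy0
        obtain ⟨x0, hx0, hp⟩ := hω.2 y hy x hx
        have hp' : proj x0 = ω u x := by rw [hp, hxy]
        by_cases hxu : x = u
        · subst hxu
          have h4 : proj x0 = E := by rw [hp', hω.1.refl x hx]
          have h5 : x0 = e := (proj_eq_E x0).1 h4
          subst h5
          exact ⟨e, hEu, hx0⟩
        by_cases hxv : x = v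
        · subst hxv
          have h4 : proj x0 = E := by rw [hp', hE]
          have h5 : x0 = e := (proj_eq_E x0).1 h4
          subst h5
          exact ⟨e, hEv, hx0⟩
        refine ⟨x0, hmem ω _ hP x x0 ?_ hp', hx0⟩
        rw [hFo x hxu hxv]; exact Finset.mem_univ _
      · have h4 : fr ω u v u J (proj d) J y = E := hr
        rcases fr_val (ω := ω) (u := u) (v := v) (q := u) (d1 := J) (d2 := proj d) (d3 := J) y
          with h | h | h | h
        · rw [h4] at h; exact absurd h (by decide)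
        · rw [h4] at h; exact absurd h.symm hD
        · rw [h4] at h; exact absurd h (by decide)
        · rw [h4] at h; exact absurd h (by decide)
  refine h3 k N _ u v {e, c} {e, d} hI hRD hu hv ?_ ?_
  · intro x hx
    have h4 := (mem_gL.1 hx).1
    rw [hFu, Finset.mem_insert, Finset.mem_singleton] at h4
    rw [mem_cnv, Finset.mem_insert, Finset.mem_singleton]
    rcases h4 with h4 | h4
    · subst h4; exact Or.inl rfl
    · subst h4; exact Or.inr hc.conv
  · intro x hx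
    have h4 := (mem_gL.1 hx).1
    rw [hFv] at h4
    exact h4

end Pool.WR
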