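import Pool.Agent.Work.MP_02669e_wr.B_ADD
import Pool.Agent.Work.MP_02669e_wr.B_BAS
import Pool.Agent.Work.MP_02669e_wr.B_COR
import Pool.Agent.Work.MP_02669e_wr.B_DIA
import Pool.Agent.Work.MP_02669e_wr.B_EXW
import Pool.Agent.Work.MP_02669e_wr.B_FIN
import Pool.Agent.Work.MP_02669e_wr.B_FRW
import Pool.Agent.Work.MP_02669e_wr.B_GEN
import Pool.Agent.Work.MP_02669e_wr.B_LIM
import Pool.Agent.Work.MP_02669e_wr.B_PCL
import Pool.Agent.Work.MP_02669e_wr.B_RED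
import Pool.Agent.Work.MP_02669e_wr.B_TA
import Pool.Agent.Work.MP_02669e_wr.B_TB
import Pool.Agent.Work.MP_02669e_wr.B_TC
import Pool.Agent.Work.MP_02669e_wr.B_TD
import Pool.Agent.Work.MP_02669e_wr.B_TE
import Pool.Agent.Work.MP_02669e_wr.B_TG
import Pool.Agent.Work.MP_02669e_wr.B_TH
import Pool.Agent.Work.MP_02669e_wr.B_TI

namespace Pool.WR

theorem q_ADD : Stmt_ADD := p_ADD (p_COR p_EXW)

theorem q_RED : Stmt_RED :=
  p_RED (p_TA p_FRW p_GEN q_ADD) (p_TB p_FRW p_GEN q_ADD) (p_TC p_FRW p_GEN q_ADD)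
    (p_TD p_FRW p_GEN q_ADD) (p_TE p_FRW p_GEN q_ADD) (p_TG p_FRW p_GEN q_ADD)
    (p_TH p_FRW p_GEN q_ADD) (p_TI p_FRW p_GEN q_ADD)

theorem q_MAIN : Stmt_MAIN := p_FIN p_LIM q_RED (p_DIA q_RED) p_PCL p_BAS

end Pool.WR
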