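import Pool.Agent.Work.MP_02669e_wr.Interface

namespace Pool.WR

open At A4

theorem p_ADD (h1 : Stmt_COR) : Stmt_ADD := by
  intro k N L u v α β hI hR hu hv hα hβ
  have hu' : u ≠ k := Nat.ne_of_lt hu
  have hv' : v ≠ k := Nat.ne_of_lt hv
  refine ⟨k + 1, ext k N L, Nat.le_succ k, h1 k N L hI hR, ?_, k, Nat.lt_succ_self k, ?_, ?_⟩
  · intro x hx y hy
    have hx' : x ≠ k := Nat.ne_of_lt hx
    have hy' : y ≠ k := Nat.ne_of_lt hy
    simp [ext, hx', hy']
  · have h2 : ext k N L u k = cnv (L u) := by simp [ext, hu']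
    rw [h2]
    intro c hc
    rw [mem_cnv] at hc
    have h3 := hα hc
    rw [mem_cnv, conv_conv] at h3
    exact h3
  · have h2 : ext k N L k v = L v := by simp [ext, hv']
    rw [h2]
    exact hβ

end Pool.WR
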