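import Pool.Agent.Work.MP_02669e_wr.Interface

/-!
MP_02669e_lc, block RED: the reduction of the demands at two different points.
-/

namespace Pool.WR

open At A4

/-- The hypotheses of RED as a boolean formula (`px`: `x ∈ α`, `qx`: `x ∈ β`, `nx`: `x ∈ N u v`). -/
def RED_hyp (pe pa pb pr ps qe qa qb qr qs ne na nb nr ns : Bool) : Bool :=
    (na || nb || nr || ns) &&
    (!ne || (pe && qe) || (pa && qa) || (pb && qb) || (pr && qs) || (ps && qr)) &&
    (!na || (pe && qa) || (pa && qe) || (pa && qb) || (pa && qr) || (pa && qs) || (pb && qa) || (pb && qb) || (pb && qr) || (pb && qs) || (pr && qa) || (pr && qb) || (pr && qr) || (pr && qs) || (ps && qa) || (ps && qb) || (ps && qr) || (ps && qs)) &&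
    (!nb || (pe && qb) || (pa && qa) || (pa && qb) || (pa && qr) || (pa && qs) || (pb && qe) || (pb && qa) || (pb && qr) || (pb && qs) || (pr && qa) || (pr && qb) || (pr && qr) || (pr && qs) || (ps && qa) || (ps && qb) || (ps && qr) || (ps && qs)) &&
    (!nr || (pe && qr) || (pa && qa) || (pa && qb) || (pa && qr) || (pa && qs) || (pb && qa) || (pb && qb) || (pb && qr) || (pb && qs) || (pr && qe) || (pr && qa) || (pr && qb) || (ps && qa) || (ps && qb) || (ps && qs)) &&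
    (!ns || (pe && qs) || (pa && qa) || (pa && qb) || (pa && qr) || (pa && qs) || (pb && qa) || (pb && qb) || (pb && qr) || (pb && qs) || (pr && qa) || (pr && qb) || (pr && qr) || (ps && qe) || (ps && qa) || (ps && qb)) &&
    !(pa && qa && !pb && !pr && !ps && !qb && !qr && !qs && (pe || qe)) &&
    !(pb && qb && !pa && !pr && !ps && !qa && !qr && !qs && (pe || qe))

/-- The cases of RED as a boolean formula. -/
def RED_con (pe pa pb pr ps qe qa qb qr qs ne na nb nr ns : Bool) : Bool :=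
    (pe && (!ne || qe) && (!na || qa) && (!nb || qb) && (!nr || qr) && (!ns || qs)) ||
    (qe && (!ne || pe) && (!na || pa) && (!nb || pb) && (!nr || pr) && (!ns || ps)) ||
    (!pa && !pb && !qa && !qb) ||
    ((pa && qa && !na) || (pb && qb && !nb)) ||
    (!ne && ((pa && qb) || (pb && qa))) ||
    (!ne && (pa || pb) && (qr || qs)) ||
    (!ne && (pr || ps) && (qa || qb)) ||
    (ne && (pa || pb) && qa && qb) ||
    (ne && (qa || qb) && pa && pb) ||
    (ne && ((pa && qa) || (pb && qb)) && (qr || qs)) ||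
    (ne && ((pa && qa) || (pb && qb)) && (pr || ps)) ||
    (ne && ((pr && qs) || (ps && qr)) && (qa || qb)) ||
    (ne && ((pr && qs) || (ps && qr)) && (pa || pb)) ||
    (ne && pe && qe && ((pa && (qb || qr || qs)) || (pb && (qa || qr || qs)))) ||
    (ne && pe && qe && ((qa && (pb || pr || ps)) || (qb && (pa || pr || ps))))

theorem RED_dec : ∀ pe pa pb pr ps qe qa qb qr qs ne na nb nr ns : Bool,
    (!RED_hyp pe pa pb pr ps qe qa qb qr qs ne na nb nr ns ||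
      RED_con pe pa pb pr ps qe qa qb qr qs ne na nb nr ns) = true := by
  decide +kernel

theorem RED_sub {ν β : Finset At} (h1 : e ∉ ν ∨ e ∈ β) (h2 : a ∉ ν ∨ a ∈ β) (h3 : b ∉ ν ∨ b ∈ β)
    (h4 : r ∉ ν ∨ r ∈ β) (h5 : s ∉ ν ∨ s ∈ β) : ν ⊆ β := by
  intro x hx
  cases x
  · exact h1.resolve_left (fun h => h hx)
  · exact h2.resolve_left (fun h => h hx)
  · exact h3.resolve_left (fun h => h hx)
  · exact h4.resolve_left (fun h => h hx)
  · exact h5.resolve_left (fun h => h hx)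

/-- The demands treated by TC, TD, TE, TG, TI. -/
theorem RED_dir (hC : Stmt_TC) (hD : Stmt_TD) (hE : Stmt_TE) (hG : Stmt_TG) (hI : Stmt_TI)
    {k : ℕ} {N : ℕ → ℕ → Finset At} {u v : ℕ} {α β : Finset At} (hN : Inv k N) (hu : u < k)
    (hv : v < k) (huv : u ≠ v)
    (h : (e ∉ N u v ∧ ∃ c d, Col c ∧ (d = r ∨ d = s) ∧ c ∈ α ∧ d ∈ β) ∨
      (e ∈ N u v ∧ ∃ c, Col c ∧ c ∈ α ∧ a ∈ β ∧ b ∈ β) ∨
      (e ∈ N u v ∧ ∃ c d, Col c ∧ (d = r ∨ d = s) ∧ c ∈ α ∧ c ∈ β ∧ d ∈ β) ∨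
      (e ∈ N u v ∧ ∃ c d, Col c ∧ (d = r ∨ d = s) ∧ d ∈ α ∧ conv d ∈ β ∧ c ∈ β) ∨
      (e ∈ N u v ∧ ∃ c d, Col c ∧ d ≠ e ∧ d ≠ c ∧ e ∈ α ∧ e ∈ β ∧ c ∈ α ∧ d ∈ β)) :
    Sat k N u v α β := by
  have h2 : ∀ {x y : At} {γ : Finset At}, x ∈ γ → y ∈ γ → ({x, y} : Finset At) ⊆ γ := by
    intro x y γ hx hy z hz
    rcases Finset.mem_insert.1 hz with h | h
    · rw [h]; exact hx
    · rw [Finset.mem_singleton.1 h]; exact hy
  rcases h with ⟨he, c, d, hc, hd, h3, h4⟩ | ⟨he, c, hc, h3, h4, h5⟩ |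
    ⟨he, c, d, hc, hd, h3, h4, h5⟩ | ⟨he, c, d, hc, hd, h3, h4, h5⟩ |
    ⟨he, c, d, hc, hd, hdc, h3, h4, h5, h6⟩
  · exact (hC k N u v c d hN hu hv huv hc hd he).mono (Finset.singleton_subset_iff.2 h3)
      (Finset.singleton_subset_iff.2 h4)
  · exact (hD k N u v c hN hu hv huv hc he).mono (Finset.singleton_subset_iff.2 h3) (h2 h4 h5)
  · exact (hE k N u v c d hN hu hv huv hc hd he).mono (Finset.singleton_subset_iff.2 h3)
      (h2 h4 h5)
  · exact (hG k N u v c d hN hu hv huv hc hd he).mono (Finset.singleton_subset_iff.2 h3)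
      (h2 h5 h4)
  · exact (hI k N u v c d hN hu hv huv hc hd hdc he).mono (h2 h3 h5) (h2 h4 h6)

/-- Block RED. -/
theorem p_RED (hA : Stmt_TA) (hB : Stmt_TB) (hC : Stmt_TC) (hD : Stmt_TD) (hE : Stmt_TE)
    (hG : Stmt_TG) (hH : Stmt_TH) (hI : Stmt_TI) : Stmt_RED := by
  intro k N u v α β hN hu hv huv hexc hsub
  have cA : Col a := Or.inl rfl
  have cB : Col b := Or.inr rfl
  have hyp : RED_hyp (decide (e ∈ α)) (decide (a ∈ α)) (decide (b ∈ α)) (decide (r ∈ α))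
      (decide (s ∈ α)) (decide (e ∈ β)) (decide (a ∈ β)) (decide (b ∈ β)) (decide (r ∈ β))
      (decide (s ∈ β)) (decide (e ∈ N u v)) (decide (a ∈ N u v)) (decide (b ∈ N u v))
      (decide (r ∈ N u v)) (decide (s ∈ N u v)) = true := by
    simp only [RED_hyp, Bool.and_eq_true, Bool.or_eq_true, Bool.not_eq_true', ← Bool.not_eq_true,
      decide_eq_true_eq, and_assoc, or_assoc]
    refine ⟨?_, ?_, ?_, ?_, ?_, ?_, ?_, ?_⟩
    · obtain ⟨c, hc, hce⟩ := hN.div u hu v hv huv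
      cases c
      · exact absurd rfl hce
      · exact Or.inl hc
      · exact Or.inr (Or.inl hc)
      · exact Or.inr (Or.inr (Or.inl hc))
      · exact Or.inr (Or.inr (Or.inr hc))
    iterate 5
      · rw [← imp_iff_not_or]
        intro hx
        obtain ⟨d, hd, d', hd', hc⟩ := mem_cmp.1 (hsub hx)
        revert hc
        cases d <;> cases d' <;>
          first
          | (intro hc; exact absurd hc (by decide))
          | (intro _; simp only [hd, hd', and_self, true_or, or_true])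
    · rintro ⟨h1, h2, h3, h4, h5, h6, h7, h8, h9⟩
      refine hexc ⟨a, Or.inl rfl, h1, h2, ?_, ?_, h9⟩
      · intro x hx; cases x <;> first | decide | contradiction
      · intro x hx; cases x <;> first | decide | contradiction
    · rintro ⟨h1, h2, h3, h4, h5, h6, h7, h8, h9⟩
      refine hexc ⟨b, Or.inr rfl, h1, h2, ?_, ?_, h9⟩
      · intro x hx; cases x <;> first | decide | contradiction
      · intro x hx; cases x <;> first | decide | contradiction
  have key := RED_dec (decide (e ∈ α)) (decide (a ∈ α)) (decide (b ∈ α)) (decide (r ∈ α))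
      (decide (s ∈ α)) (decide (e ∈ β)) (decide (a ∈ β)) (decide (b ∈ β)) (decide (r ∈ β))
      (decide (s ∈ β)) (decide (e ∈ N u v)) (decide (a ∈ N u v)) (decide (b ∈ N u v))
      (decide (r ∈ N u v)) (decide (s ∈ N u v))
  rw [hyp, Bool.not_true, Bool.false_or] at key
  simp only [RED_con, Bool.and_eq_true, Bool.or_eq_true, Bool.not_eq_true', ← Bool.not_eq_true,
      decide_eq_true_eq, and_assoc, or_assoc] at key
  have dir := @RED_dir hC hD hE hG hI k N u v α β hN hu hv huv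
  have rev := fun h =>
    Sat.rev hu hv (@RED_dir hC hD hE hG hI k N v u (cnv β) (cnv α) hN hv hu huv.symm h)
  have hes := hN.e_symm hu hv
  rcases key with h | h | h | h | h | h | h | h | h | h | h | h | h | h | h | h
  · obtain ⟨h0, h1, h2, h3, h4, h5⟩ := h
    exact Sat.of_wit hN ⟨u, hu, by
      rw [hN.diag u hu]; exact Finset.singleton_subset_iff.2 h0, RED_sub h1 h2 h3 h4 h5⟩
  · obtain ⟨h0, h1, h2, h3, h4, h5⟩ := h
    exact Sat.of_wit hN ⟨v, hv, RED_sub h1 h2 h3 h4 h5, by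
      rw [hN.diag v hv]; exact Finset.singleton_subset_iff.2 h0⟩
  · obtain ⟨h1, h2, h3, h4⟩ := h
    exact hH k N u v α β hN hu hv
      (by intro x hx; cases x <;> first | decide | contradiction)
      (by intro x hx; cases x <;> first | decide | contradiction) hsub
  · obtain ⟨h1, h2, h3⟩ := h
    exact (hA k N u v a hN hu hv huv cA h3).mono (Finset.singleton_subset_iff.2 h1)
      (Finset.singleton_subset_iff.2 h2)
  · obtain ⟨h1, h2, h3⟩ := h
    exact (hA k N u v b hN hu hv huv cB h3).mono (Finset.singleton_subset_iff.2 h1)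
      (Finset.singleton_subset_iff.2 h2)
  · rcases h with ⟨he, ⟨h1, h2⟩ | ⟨h1, h2⟩⟩
    · exact (hB k N u v a hN hu hv huv cA he).mono (Finset.singleton_subset_iff.2 h1)
        (Finset.singleton_subset_iff.2 h2)
    · exact (hB k N u v b hN hu hv huv cB he).mono (Finset.singleton_subset_iff.2 h1)
        (Finset.singleton_subset_iff.2 h2)
  · rcases h with ⟨he, h1 | h1, h2 | h2⟩
    · exact dir (Or.inl ⟨he, a, r, cA, Or.inl rfl, h1, h2⟩)
    · exact dir (Or.inl ⟨he, a, s, cA, Or.inr rfl, h1, h2⟩)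
    · exact dir (Or.inl ⟨he, b, r, cB, Or.inl rfl, h1, h2⟩)
    · exact dir (Or.inl ⟨he, b, s, cB, Or.inr rfl, h1, h2⟩)
  · have mc : ∀ {x : At} {γ : Finset At}, conv x ∈ γ → x ∈ cnv γ := fun h => mem_cnv.2 h
    rcases h with ⟨he, h1 | h1, h2 | h2⟩
    · exact rev (Or.inl ⟨fun h => he (hes.2 h), a, s, cA, Or.inr rfl, mc h2, mc h1⟩)
    · exact rev (Or.inl ⟨fun h => he (hes.2 h), b, s, cB, Or.inr rfl, mc h2, mc h1⟩)
    · exact rev (Or.inl ⟨fun h => he (hes.2 h), a, r, cA, Or.inl rfl, mc h2, mc h1⟩)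
    · exact rev (Or.inl ⟨fun h => he (hes.2 h), b, r, cB, Or.inl rfl, mc h2, mc h1⟩)
  · rcases h with ⟨he, h1 | h1, h2, h3⟩
    · exact dir (Or.inr (Or.inl ⟨he, a, cA, h1, h2, h3⟩))
    · exact dir (Or.inr (Or.inl ⟨he, b, cB, h1, h2, h3⟩))
  · have mc : ∀ {x : At} {γ : Finset At}, conv x ∈ γ → x ∈ cnv γ := fun h => mem_cnv.2 h
    rcases h with ⟨he, h1 | h1, h2, h3⟩
    · exact rev (Or.inr (Or.inl ⟨hes.1 he, a, cA, mc h1, mc h2, mc h3⟩))
    · exact rev (Or.inr (Or.inl ⟨hes.1 he, b, cB, mc h1, mc h2, mc h3⟩))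
  · rcases h with ⟨he, ⟨h1, h2⟩ | ⟨h1, h2⟩, h3 | h3⟩
    · exact dir (Or.inr (Or.inr (Or.inl ⟨he, a, r, cA, Or.inl rfl, h1, h2, h3⟩)))
    · exact dir (Or.inr (Or.inr (Or.inl ⟨he, a, s, cA, Or.inr rfl, h1, h2, h3⟩)))
    · exact dir (Or.inr (Or.inr (Or.inl ⟨he, b, r, cB, Or.inl rfl, h1, h2, h3⟩)))
    · exact dir (Or.inr (Or.inr (Or.inl ⟨he, b, s, cB, Or.inr rfl, h1, h2, h3⟩)))
  · have mc : ∀ {x : At} {γ : Finset At}, conv x ∈ γ → x ∈ cnv γ := fun h => mem_cnv.2 h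
    rcases h with ⟨he, ⟨h1, h2⟩ | ⟨h1, h2⟩, h3 | h3⟩
    · exact rev (Or.inr (Or.inr (Or.inl ⟨hes.1 he, a, s, cA, Or.inr rfl, mc h2, mc h1, mc h3⟩)))
    · exact rev (Or.inr (Or.inr (Or.inl ⟨hes.1 he, a, r, cA, Or.inl rfl, mc h2, mc h1, mc h3⟩)))
    · exact rev (Or.inr (Or.inr (Or.inl ⟨hes.1 he, b, s, cB, Or.inr rfl, mc h2, mc h1, mc h3⟩)))
    · exact rev (Or.inr (Or.inr (Or.inl ⟨hes.1 he, b, r, cB, Or.inl rfl, mc h2, mc h1, mc h3⟩)))
  · rcases h with ⟨he, ⟨h1, h2⟩ | ⟨h1, h2⟩, h3 | h3⟩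
    · exact dir (Or.inr (Or.inr (Or.inr (Or.inl ⟨he, a, r, cA, Or.inl rfl, h1, h2, h3⟩))))
    · exact dir (Or.inr (Or.inr (Or.inr (Or.inl ⟨he, b, r, cB, Or.inl rfl, h1, h2, h3⟩))))
    · exact dir (Or.inr (Or.inr (Or.inr (Or.inl ⟨he, a, s, cA, Or.inr rfl, h1, h2, h3⟩))))
    · exact dir (Or.inr (Or.inr (Or.inr (Or.inl ⟨he, b, s, cB, Or.inr rfl, h1, h2, h3⟩))))
  · have mc : ∀ {x : At} {γ : Finset At}, conv x ∈ γ → x ∈ cnv γ := fun h => mem_cnv.2 h
    rcases h with ⟨he, ⟨h1, h2⟩ | ⟨h1, h2⟩, h3 | h3⟩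
    · exact rev (Or.inr (Or.inr (Or.inr (Or.inl
        ⟨hes.1 he, a, r, cA, Or.inl rfl, mc h2, mc h1, mc h3⟩))))
    · exact rev (Or.inr (Or.inr (Or.inr (Or.inl
        ⟨hes.1 he, b, r, cB, Or.inl rfl, mc h2, mc h1, mc h3⟩))))
    · exact rev (Or.inr (Or.inr (Or.inr (Or.inl
        ⟨hes.1 he, a, s, cA, Or.inr rfl, mc h2, mc h1, mc h3⟩))))
    · exact rev (Or.inr (Or.inr (Or.inr (Or.inl
        ⟨hes.1 he, b, s, cB, Or.inr rfl, mc h2, mc h1, mc h3⟩))))
  · rcases h with ⟨he, h1, h2, ⟨h3, h4 | h4 | h4⟩ | ⟨h3, h4 | h4 | h4⟩⟩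
    · exact dir (Or.inr (Or.inr (Or.inr (Or.inr
        ⟨he, a, b, cA, by decide, by decide, h1, h2, h3, h4⟩))))
    · exact dir (Or.inr (Or.inr (Or.inr (Or.inr
        ⟨he, a, r, cA, by decide, by decide, h1, h2, h3, h4⟩))))
    · exact dir (Or.inr (Or.inr (Or.inr (Or.inr
        ⟨he, a, s, cA, by decide, by decide, h1, h2, h3, h4⟩))))
    · exact dir (Or.inr (Or.inr (Or.inr (Or.inr
        ⟨he, b, a, cB, by decide, by decide, h1, h2, h3, h4⟩))))
    · exact dir (Or.inr (Or.inr (Or.inr (Or.inr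
        ⟨he, b, r, cB, by decide, by decide, h1, h2, h3, h4⟩))))
    · exact dir (Or.inr (Or.inr (Or.inr (Or.inr
        ⟨he, b, s, cB, by decide, by decide, h1, h2, h3, h4⟩))))
  · have mc : ∀ {x : At} {γ : Finset At}, conv x ∈ γ → x ∈ cnv γ := fun h => mem_cnv.2 h
    rcases h with ⟨he, h1, h2, ⟨h3, h4 | h4 | h4⟩ | ⟨h3, h4 | h4 | h4⟩⟩
    · exact rev (Or.inr (Or.inr (Or.inr (Or.inr
        ⟨hes.1 he, a, b, cA, by decide, by decide, mc h2, mc h1, mc h3, mc h4⟩))))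
    · exact rev (Or.inr (Or.inr (Or.inr (Or.inr
        ⟨hes.1 he, a, s, cA, by decide, by decide, mc h2, mc h1, mc h3, mc h4⟩))))
    · exact rev (Or.inr (Or.inr (Or.inr (Or.inr
        ⟨hes.1 he, a, r, cA, by decide, by decide, mc h2, mc h1, mc h3, mc h4⟩))))
    · exact rev (Or.inr (Or.inr (Or.inr (Or.inr
        ⟨hes.1 he, b, a, cB, by decide, by decide, mc h2, mc h1, mc h3, mc h4⟩))))
    · exact rev (Or.inr (Or.inr (Or.inr (Or.inr
        ⟨hes.1 he, b, s, cB, by decide, by decide, mc h2, mc h1, mc h3, mc h4⟩))))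
    · exact rev (Or.inr (Or.inr (Or.inr (Or.inr
        ⟨hes.1 he, b, r, cB, by decide, by decide, mc h2, mc h1, mc h3, mc h4⟩))))

end Pool.WR
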