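import Pool.Agent.Work.MP_02669e_wr.Defs

/-! Proved lemmas for everybody (finite tables, elementary facts on worlds and rows). -/

namespace Pool.WR

open At A4

theorem conv_conv (c : At) : conv (conv c) = c := by cases c <;> rfl
theorem cv4_cv4 (c : A4) : cv4 (cv4 c) = c := by cases c <;> rfl
theorem proj_conv (c : At) : proj (conv c) = cv4 (proj c) := by cases c <;> rfl
theorem proj_eq_E (c : At) : proj c = E ↔ c = e := by cases c <;> decide
theorem proj_eq_J (c : At) : proj c = J ↔ Col c := by cases c <;> simp [proj, Col]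
theorem cv4_eq_E (c : A4) : cv4 c = E ↔ c = E := by cases c <;> decide
theorem cv4_eq_J (c : A4) : cv4 c = J ↔ c = J := by cases c <;> decide
theorem Col.ne_e {c : At} (h : Col c) : c ≠ e := by rcases h with h | h <;> subst h <;> decide
theorem Col.conv {c : At} (h : Col c) : conv c = c := by rcases h with h | h <;> subst h <;> rfl
theorem Col.proj {c : At} (h : Col c) : proj c = J := by rcases h with h | h <;> subst h <;> rfl
/-- atoms different from the colours are determined by their projection -/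
theorem proj_inj {x y : At} (h : proj x = proj y) (hx : proj x ≠ J) : x = y := by
  revert h hx; cases x <;> cases y <;> decide

theorem tri_rot (x y z : A4) : tri x y z = tri z (cv4 y) x := by
  cases x <;> cases y <;> cases z <;> rfl
theorem tri_cv (x y z : A4) : tri x y z = tri (cv4 y) (cv4 x) (cv4 z) := by
  cases x <;> cases y <;> cases z <;> rfl
theorem tri_rot2 (x y z : A4) : tri x y z = tri (cv4 x) z y := by
  cases x <;> cases y <;> cases z <;> rfl
theorem tri_E_left {y z : A4} : tri E y z = true ↔ y = z := by cases y <;> cases z <;> decide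
theorem tri_E_mid {x z : A4} : tri x E z = true ↔ x = z := by cases x <;> cases z <;> decide
theorem tri_E_right {x y : A4} : tri x y E = true ↔ y = cv4 x := by
  cases x <;> cases y <;> decide
/-- `J` is flexible. -/
theorem tri_J_left {y z : A4} (hy : y ≠ E) (hz : z ≠ E) : tri J y z = true := by
  revert hy hz; cases y <;> cases z <;> decide
theorem tri_J_mid {x z : A4} (hx : x ≠ E) (hz : z ≠ E) : tri x J z = true := by
  revert hx hz; cases x <;> cases z <;> decide
theorem tri_J_right {x y : A4} (hx : x ≠ E) (hy : y ≠ E) : tri x y J = true := by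
  revert hx hy; cases x <;> cases y <;> decide
theorem tri_J_J (y : A4) : tri J y J = true := by cases y <;> decide

/-- Products of atoms project to allowed triangles. -/
theorem tri_of_comp {x d d' : At} (h : x ∈ comp d d') :
    tri (proj d) (proj d') (proj x) = true := by
  revert h; cases x <;> cases d <;> cases d' <;> decide

theorem mem_cmp {α β : Finset At} {x : At} :
    x ∈ cmp α β ↔ ∃ d ∈ α, ∃ d' ∈ β, x ∈ comp d d' := by
  simp [cmp]

theorem mem_cnv {α : Finset At} {x : At} : x ∈ cnv α ↔ conv x ∈ α := by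
  unfold cnv
  rw [Finset.mem_image]
  constructor
  · rintro ⟨y, hy, rfl⟩; rwa [conv_conv]
  · intro h; exact ⟨conv x, h, conv_conv x⟩

theorem cnv_cnv (α : Finset At) : cnv (cnv α) = α := by
  ext x; rw [mem_cnv, mem_cnv, conv_conv]

/-- `x ∈ c ; d ↔ conv x ∈ conv d ; conv c`. -/
theorem comp_conv (x c d : At) : x ∈ comp c d ↔ conv x ∈ comp (conv d) (conv c) := by
  cases x <;> cases c <;> cases d <;> decide

theorem cmp_cnv (α β : Finset At) : cmp (cnv β) (cnv α) = cnv (cmp α β) := by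
  ext x
  rw [mem_cnv, mem_cmp, mem_cmp]
  constructor
  · rintro ⟨d, hd, d', hd', h⟩
    refine ⟨conv d', mem_cnv.1 hd', conv d, mem_cnv.1 hd, ?_⟩
    rwa [← comp_conv]
  · rintro ⟨d, hd, d', hd', h⟩
    refine ⟨conv d', mem_cnv.2 (by rwa [conv_conv]), conv d, mem_cnv.2 (by rwa [conv_conv]), ?_⟩
    rw [comp_conv, conv_conv, conv_conv]
    exact h

/-- The other colour. -/
def oc : At → At
  | a => b | b => a | x => x
theorem oc_col {c : At} (h : Col c) : Col (oc c) := by
  rcases h with h | h <;> subst h <;> simp [oc, Col]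
theorem oc_ne {c : At} (h : Col c) : oc c ≠ c := by
  rcases h with h | h <;> subst h <;> decide
theorem col_cases {c c0 : At} (h : Col c) (h0 : Col c0) : c0 = c ∨ c0 = oc c := by
  rcases h with h | h <;> rcases h0 with h0 | h0 <;> subst h <;> subst h0 <;> simp [oc]

section World
variable {k : ℕ} {N : ℕ → ℕ → Finset At} {ω : ℕ → ℕ → A4}

/-- points in the same class have the same labels -/
theorem World.eq_left (h : World k ω) {x y z : ℕ} (hx : x < k) (hy : y < k) (hz : z < k)
    (hE : ω x y = E) : ω x z = ω y z := by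
  have h1 := h.tri x hx y hy z hz
  rw [hE] at h1
  exact (tri_E_left.1 h1).symm

theorem World.eq_right (h : World k ω) {x y z : ℕ} (hx : x < k) (hy : y < k) (hz : z < k)
    (hE : ω x y = E) : ω z x = ω z y := by
  have h1 := h.tri z hz x hx y hy
  rw [hE] at h1
  exact tri_E_mid.1 h1

theorem World.symE (h : World k ω) {x y : ℕ} (hx : x < k) (hy : y < k)
    (hE : ω x y = E) : ω y x = E := by
  rw [h.symm x hx y hy, hE]; rfl

theorem World.ne_symE (h : World k ω) {x y : ℕ} (hx : x < k) (hy : y < k)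
    (hE : ω x y ≠ E) : ω y x ≠ E := fun h' => hE (h.symE hy hx h')

/-- a row is constant on classes -/
theorem Row.eq_of_E {ρ : ℕ → A4} (h : Row k ω ρ) {x y : ℕ} (hx : x < k) (hy : y < k)
    (hE : ω x y = E) : ρ x = ρ y := by
  have h1 := h x hx y hy
  rw [hE] at h1
  exact tri_E_mid.1 h1

theorem WorldOf.of_singleton (h : WorldOf k N ω) {x y : ℕ} (hx : x < k) (hy : y < k) {c : At}
    (hN : N x y = {c}) : ω x y = proj c := by
  obtain ⟨d, hd, hp⟩ := h.2 x hx y hy
  rw [hN, Finset.mem_singleton] at hd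
  rw [← hp, hd]

theorem WorldOf.ne_E (h : WorldOf k N ω) {x y : ℕ} (hx : x < k) (hy : y < k)
    (hN : e ∉ N x y) : ω x y ≠ E := by
  obtain ⟨d, hd, hp⟩ := h.2 x hx y hy
  intro h0
  rw [h0, proj_eq_E] at hp
  exact hN (hp ▸ hd)

end World

section InvL
variable {k : ℕ} {N : ℕ → ℕ → Finset At}

theorem Inv.symm' (h : Inv k N) {x y : ℕ} (hx : x < k) (hy : y < k) (c : At) :
    c ∈ N x y ↔ conv c ∈ N y x :=
  ⟨h.symm x hx y hy c, fun h1 => by simpa [conv_conv] using h.symm y hy x hx _ h1⟩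

theorem Inv.cnv_eq (h : Inv k N) {x y : ℕ} (hx : x < k) (hy : y < k) :
    N y x = cnv (N x y) := by
  ext c
  rw [mem_cnv, h.symm' hx hy (conv c), conv_conv]

theorem Inv.symm_singleton (h : Inv k N) {x y : ℕ} (hx : x < k) (hy : y < k) {c : At}
    (hN : N x y = {c}) : N y x = {conv c} := by
  rw [h.cnv_eq hx hy, hN]; rfl

theorem Inv.symm_col (h : Inv k N) {x y : ℕ} (hx : x < k) (hy : y < k) {c : At} (hc : Col c) :
    N x y = {c} ↔ N y x = {c} := by
  constructor
  · intro h1; simpa [hc.conv] using h.symm_singleton hx hy h1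
  · intro h1; simpa [hc.conv] using h.symm_singleton hy hx h1

theorem Inv.e_symm (h : Inv k N) {x y : ℕ} (hx : x < k) (hy : y < k) :
    e ∈ N x y ↔ e ∈ N y x := h.symm' hx hy e

/-- there is a world in which two points are different -/
theorem Inv.world_ne (h : Inv k N) {x y : ℕ} (hx : x < k) (hy : y < k) (hne : x ≠ y) :
    ∃ ω, WorldOf k N ω ∧ ω x y ≠ E := by
  obtain ⟨c, hc, hce⟩ := h.div x hx y hy hne
  obtain ⟨ω, hω, h1⟩ := h.exact x hx y hy c hc
  exact ⟨ω, hω, fun h2 => hce ((proj_eq_E c).1 (h1 ▸ h2))⟩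

/-- there is a world in which two points are equal, if `e` is in the label -/
theorem Inv.world_E (h : Inv k N) {x y : ℕ} (hx : x < k) (hy : y < k) (he : e ∈ N x y) :
    ∃ ω, WorldOf k N ω ∧ ω x y = E := by
  obtain ⟨ω, hω, h1⟩ := h.exact x hx y hy e he
  exact ⟨ω, hω, h1⟩

theorem Inv.nonempty (h : Inv k N) {x y : ℕ} (hx : x < k) (hy : y < k) : (N x y).Nonempty := by
  by_cases hxy : x = y
  · subst hxy; rw [h.diag x hx]; exact ⟨e, by simp⟩
  · obtain ⟨c, hc, _⟩ := h.div x hx y hy hxy; exact ⟨c, hc⟩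

theorem Sat.of_wit (h : Inv k N) {u v : ℕ} {α β : Finset At} (hw : Wit k N u v α β) :
    Sat k N u v α β := by
  obtain ⟨z, hz, h1, h2⟩ := hw
  exact ⟨k, N, le_rfl, h, fun _ _ _ _ => rfl, z, hz, h1, h2⟩

theorem Sat.mono {u v : ℕ} {α β α' β' : Finset At} (hs : Sat k N u v α β) (h1 : α ⊆ α')
    (h2 : β ⊆ β') : Sat k N u v α' β' := by
  obtain ⟨k', N', hk, hi, ha, z, hz, h3, h4⟩ := hs
  exact ⟨k', N', hk, hi, ha, z, hz, h3.trans h1, h4.trans h2⟩

/-- reversal of a demand -/
theorem Sat.rev {u v : ℕ} (hu : u < k) (hv : v < k) {α β : Finset At}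
    (hs : Sat k N v u (cnv β) (cnv α)) : Sat k N u v α β := by
  obtain ⟨k', N', hk, hi, ha, z, hz, h3, h4⟩ := hs
  refine ⟨k', N', hk, hi, ha, z, hz, ?_, ?_⟩
  · rw [hi.cnv_eq hz (hu.trans_le hk)]
    intro c hc
    rw [mem_cnv] at hc
    have := h4 hc
    rw [mem_cnv, conv_conv] at this
    exact this
  · rw [hi.cnv_eq (hv.trans_le hk) hz]
    intro c hc
    rw [mem_cnv] at hc
    have := h3 hc
    rw [mem_cnv, conv_conv] at this
    exact this

end InvL

section Fr
variable {ω : ℕ → ℕ → A4} {u v q : ℕ} {d1 d2 d3 : A4}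
theorem fr_u {w : ℕ} (h : ω u w = E) : fr ω u v q d1 d2 d3 w = d1 := by simp [fr, h]
theorem fr_v {w : ℕ} (h1 : ω u w ≠ E) (h : ω v w = E) : fr ω u v q d1 d2 d3 w = d2 := by
  simp [fr, h, h1]
theorem fr_q {w : ℕ} (h1 : ω u w ≠ E) (h2 : ω v w ≠ E) (h : ω q w = E) :
    fr ω u v q d1 d2 d3 w = d3 := by
  simp [fr, h, h1, h2]
theorem fr_J {w : ℕ} (h1 : ω u w ≠ E) (h2 : ω v w ≠ E) (h : ω q w ≠ E) :
    fr ω u v q d1 d2 d3 w = J := by
  simp [fr, h, h1, h2]
/-- values of a fresh row without third class (`q = u`) -/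
theorem fr_val (w : ℕ) : fr ω u v q d1 d2 d3 w = d1 ∨ fr ω u v q d1 d2 d3 w = d2 ∨
    fr ω u v q d1 d2 d3 w = d3 ∨ fr ω u v q d1 d2 d3 w = J := by
  unfold fr; split_ifs <;> simp
end Fr

section GenL
variable {P : (ℕ → ℕ → A4) → (ℕ → A4) → Prop} {F : ℕ → Finset At}
theorem mem_gL {w : ℕ} {x : At} : x ∈ gL P F w ↔ x ∈ F w ∧ ∃ ω ρ, P ω ρ ∧ ρ w = proj x := by
  classical
  unfold gL
  simp
end GenL

end Pool.WR
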