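import Mathlib

/-! # MP_02669e_lc, theorem P: all products except six

Definitions for the construction of an injective map from the relation algebra `1311_1316`
preserving `0`, meet, converse, `1'` and all products except six. -/

namespace Pool.WR

/-- The five atoms: `e = 1'`, `a`, `b`, `r` and `s`, the converse of `r`. -/
inductive At | e | a | b | r | s
  deriving DecidableEq

open At

instance : Fintype At := ⟨{e, a, b, r, s}, fun x => by cases x <;> decide⟩

/-- Converse of atoms. -/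
def conv : At → At
  | e => e | a => a | b => b | r => s | s => r

/-- Composition of atoms. -/
def comp : At → At → Finset At
  | e, y => {y}
  | x, e => {x}
  | a, a => {e, b, r, s}
  | b, b => {e, a, r, s}
  | r, r => {a, b, s}
  | s, s => {a, b, r}
  | r, s => {e, a, b}
  | s, r => {e, a, b}
  | _, _ => {a, b, r, s}

/-- Composition of elements (= sets of atoms). -/
def cmp (α β : Finset At) : Finset At := α.biUnion fun x => β.biUnion fun y => comp x y

/-- Converse of elements. -/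
def cnv (α : Finset At) : Finset At := α.image conv

/-- The six exceptional pairs: both in `{c, 1'+c}`, not both `c`, for `c = a` or `c = b`. -/
def Exc (α β : Finset At) : Prop :=
  ∃ c : At, (c = a ∨ c = b) ∧ c ∈ α ∧ c ∈ β ∧ α ⊆ {e, c} ∧ β ⊆ {e, c} ∧ (e ∈ α ∨ e ∈ β)

/-- Composition of binary relations. -/
def rc {U : Type} (A B : Set (U × U)) : Set (U × U) := {p | ∃ z, (p.1, z) ∈ A ∧ (z, p.2) ∈ B}

/-- The four atoms of the colour-free algebra: identity, `J` (= `a` or `b`), `R`, `S`. -/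
inductive A4 | E | J | R | S
  deriving DecidableEq

open A4

instance : Fintype A4 := ⟨{E, J, R, S}, fun x => by cases x <;> decide⟩

/-- Forgetting the colour. -/
def proj : At → A4
  | e => E | a => J | b => J | r => R | s => S

/-- Converse. -/
def cv4 : A4 → A4
  | E => E | J => J | R => S | S => R

/-- `tri x y z`: a triangle with `(0,1)` labelled `x`, `(1,2)` labelled `y`, `(0,2)` labelled `z`
is allowed (no transitive triple of `R`). -/
def tri : A4 → A4 → A4 → Bool
  | E, y, z => decide (y = z)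
  | x, E, z => decide (x = z)
  | x, y, E => decide (y = cv4 x)
  | J, _, _ => true
  | _, J, _ => true
  | _, _, J => true
  | R, R, S => true
  | S, S, R => true
  | _, _, _ => false

/-- A world on the points `< k`. -/
structure World (k : ℕ) (ω : ℕ → ℕ → A4) : Prop where
  refl : ∀ x < k, ω x x = E
  symm : ∀ x < k, ∀ y < k, ω y x = cv4 (ω x y)
  tri : ∀ x < k, ∀ y < k, ∀ z < k, tri (ω x y) (ω y z) (ω x z) = true

/-- A world of the network `N` on the points `< k`. -/
def WorldOf (k : ℕ) (N : ℕ → ℕ → Finset At) (ω : ℕ → ℕ → A4) : Prop :=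
  World k ω ∧ ∀ x < k, ∀ y < k, ∃ c ∈ N x y, proj c = ω x y

/-- Colours. -/
def Col (c : At) : Prop := c = a ∨ c = b

/-- The invariant of the construction. -/
structure Inv (k : ℕ) (N : ℕ → ℕ → Finset At) : Prop where
  diag : ∀ x < k, N x x = {e}
  symm : ∀ x < k, ∀ y < k, ∀ c ∈ N x y, conv c ∈ N y x
  div : ∀ x < k, ∀ y < k, x ≠ y → ∃ c ∈ N x y, c ≠ e
  exact : ∀ x < k, ∀ y < k, ∀ c ∈ N x y, ∃ ω, WorldOf k N ω ∧ ω x y = proj c
  c1 : ∀ x < k, ∀ y < k, ∀ z < k, ∀ c, Col c → N x z = {c} → N z y = {c} → c ∉ N x y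
  c2 : ∀ x < k, ∀ y < k, ∀ z < k, e ∈ N x y → ∃ c, c ∈ N x z ∧ c ∈ N y z

/-- `ρ` is a row of labels from a new point to the points `< k`, compatible with the world. -/
def Row (k : ℕ) (ω : ℕ → ℕ → A4) (ρ : ℕ → A4) : Prop :=
  ∀ x < k, ∀ y < k, tri (ρ x) (ω x y) (ρ y) = true

/-- a world of `N` with a row inside `L`. -/
def RowOf (k : ℕ) (N : ℕ → ℕ → Finset At) (L : ℕ → Finset At) (ω : ℕ → ℕ → A4)
    (ρ : ℕ → A4) : Prop :=
  WorldOf k N ω ∧ Row k ω ρ ∧ ∀ w < k, ∃ c ∈ L w, proj c = ρ w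

/-- The data needed to add a new point with row of labels `L` (`L w` = label of (new, `w`)). -/
structure RowData (k : ℕ) (N : ℕ → ℕ → Finset At) (L : ℕ → Finset At) : Prop where
  div : ∀ w < k, ∃ c ∈ L w, c ≠ e
  ext : ∀ ω, WorldOf k N ω → ∃ ρ, RowOf k N L ω ρ
  real : ∀ w < k, ∀ c ∈ L w, ∃ ω ρ, RowOf k N L ω ρ ∧ ρ w = proj c
  c1a : ∀ w < k, ∀ x < k, ∀ c, Col c → L w = {c} → N w x = {c} → c ∉ L x
  c1b : ∀ x < k, ∀ y < k, ∀ c, Col c → L x = {c} → L y = {c} → c ∉ N x y
  c2a : ∀ x < k, ∀ y < k, e ∈ N x y → ∃ c, c ∈ L x ∧ c ∈ L y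
  c2b : ∀ x < k, ∀ y < k, e ∈ L y → ∃ c, c ∈ L x ∧ c ∈ N y x

/-- The network on `k + 1` points with the new row. -/
def ext (k : ℕ) (N : ℕ → ℕ → Finset At) (L : ℕ → Finset At) (x y : ℕ) : Finset At :=
  if x = k then (if y = k then {e} else L y) else (if y = k then cnv (L x) else N x y)

/-- The world on `k + 1` points with the new row. -/
def extw (k : ℕ) (ω : ℕ → ℕ → A4) (ρ : ℕ → A4) (x y : ℕ) : A4 :=
  if x = k then (if y = k then E else ρ y) else (if y = k then cv4 (ρ x) else ω x y)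

/-- The standard fresh row: `d1` on the class of `u`, `d2` on the class of `v`, `d3` on the class
of `q`, `J` elsewhere. -/
def fr (ω : ℕ → ℕ → A4) (u v q : ℕ) (d1 d2 d3 : A4) : ℕ → A4 := fun w =>
  if ω u w = E then d1 else if ω v w = E then d2 else if ω q w = E then d3 else J

/-- The row of labels generated by a family `P` of rows, inside `F`. -/
noncomputable def gL (P : (ℕ → ℕ → A4) → (ℕ → A4) → Prop) (F : ℕ → Finset At) (w : ℕ) :
    Finset At :=
  by classical exact (F w).filter fun x => ∃ ω ρ, P ω ρ ∧ ρ w = proj x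

/-- The demand `(α, β)` at `(u, v)` can be satisfied in an extension of `(k, N)`. -/
def Sat (k : ℕ) (N : ℕ → ℕ → Finset At) (u v : ℕ) (α β : Finset At) : Prop :=
  ∃ (k' : ℕ) (N' : ℕ → ℕ → Finset At), k ≤ k' ∧ Inv k' N' ∧
    (∀ x < k, ∀ y < k, N' x y = N x y) ∧ ∃ z < k', N' u z ⊆ α ∧ N' z v ⊆ β

/-- There is a witness already. -/
def Wit (k : ℕ) (N : ℕ → ℕ → Finset At) (u v : ℕ) (α β : Finset At) : Prop :=
  ∃ z < k, N u z ⊆ α ∧ N z v ⊆ β

end Pool.WR
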