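import Pool.Agent.Work.MP_02669e_wr.Basic

/-! # Interface: statements of the blocks with complete proofs in the docstrings

All blocks are independent. File `Pool/Agent/Work/MP_02669e_wr/B_XXX.lean`:
`import Pool.Agent.Work.MP_02669e_wr.Interface`, `namespace Pool.WR`, `open At A4`,
`theorem p_XXX (h1 : Stmt_YYY) ... : Stmt_XXX` (hypotheses = column uses, in that order),
auxiliary lemmas with the prefix `XXX_`.

Notation: `N x y` = label (set of atoms) of the pair `(x, y)`; a world `ω` chooses for each pair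
one of `E, J, R, S` (`J` = colour forgotten), `x, y` are in the same class if `ω x y = E`;
`L w` is the label of (new point, `w`).  See `Basic.lean` for many proved small lemmas
(`World.eq_left`, `World.eq_right`, `Row.eq_of_E`, `WorldOf.of_singleton`, `WorldOf.ne_E`,
`Inv.world_ne`, `Inv.world_E`, `Inv.symm_col`, `fr_u`, `fr_v`, `fr_q`, `fr_J`, `mem_gL`,
`col_cases`, `oc`, `tri_...`). -/

namespace Pool.WR

open At A4

/-- **FRW** (60). The fresh row is a row.  Proof: let `x, y < k`, `ρ = fr ω u v q d1 d2 d3`.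
Each of `x`, `y` is in the class of `u` (value `d1`), else in the class of `v` (value `d2`), else
in the class of `q` (value `d3`), else has value `J`.  If both are in listed classes, of the
points `p, p'` among `u, v, q`, with values `d, d'`, then `ω x y = ω p p'` (`World.eq_left`,
`World.eq_right`), and `tri d (ω p p') d' = true` is one of the hypotheses, or one of them
reversed (`tri_rot`, `tri_cv`: `tri d x d' = tri d' (cv4 x) d`), or `p = p'`, `ω p p' = E`
(`tri_E_mid`).  If `x` is in the class of `p` and `y` in none: `ω x y ≠ E` (otherwise `y` would be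
in the class of `p`), `ρ y = J`, `tri d (ω x y) J = true` by `tri_J_right` (`d ≠ E`).  If `x` is
in none and `y` in the class of `p`: `tri_J_left`.  If both are in none: `tri_J_J`. -/
def Stmt_FRW : Prop :=
  ∀ (k : ℕ) (ω : ℕ → ℕ → A4) (u v q : ℕ) (d1 d2 d3 : A4), World k ω → u < k → v < k → q < k →
    d1 ≠ E → d2 ≠ E → d3 ≠ E → tri d1 (ω u v) d2 = true → tri d1 (ω u q) d3 = true →
    tri d2 (ω v q) d3 = true → Row k ω (fr ω u v q d1 d2 d3)

/-- **EXW** (50). A world with a row is a world on `k + 1` points.  Proof: cases `x = k`, `y = k`,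
`z = k` (each point is `< k` or `= k`).  Triangles with exactly one point `k`: the condition `Row`
after `tri_rot`, `tri_cv`, `tri_rot2`; with two or three points `k`: `tri_E_left`, `tri_E_mid`,
`tri_E_right` and `tri (ρ x) (cv4 (ρ x)) E`. -/
def Stmt_EXW : Prop :=
  ∀ (k : ℕ) (ω : ℕ → ℕ → A4) (ρ : ℕ → A4), World k ω → Row k ω ρ → World (k + 1) (extw k ω ρ)

/-- **COR** (120, uses EXW). The new point may be added.  Proof: `ext k N L` agrees with `N` on
the points `< k`, `ext k N L k w = L w`, `ext k N L w k = cnv (L w)`, `ext k N L k k = {e}`.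
`diag`, `symm`, `div`: clear (`RowData.div`).  For a world `ω` of `(k, N)` and `ρ` with
`RowOf k N L ω ρ`, the world `extw k ω ρ` is a world of `(k + 1, ext k N L)` (EXW; labels: for
`(k, w)` the element `c ∈ L w` with `proj c = ρ w`; for `(w, k)` its converse, `proj_conv`).
`exact`: for old pairs take the world `ω` of `Inv.exact` and a row from `RowData.ext`; for
`(k, w)` and `(w, k)` use `RowData.real`; for `(k, k)` any world (there is one: if `0 < k` from
`Inv.exact 0 0 e`; if `k = 0` the world `fun _ _ => E` with any row, all conditions empty).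
`c1` for `x, y, z ≤ k`: all old: `Inv.c1`.  Otherwise note that `cnv {c} = {c}` for colours and
`cnv M = {c} ↔ M = {c}`.  `z = k`, `x, y < k`: `L x = {c}`, `L y = {c}`: `c1b`.  `x = k`, `y, z < k`:
`L z = {c}`, `N z y = {c}`: `c1a` (w = z, x = y).  `y = k`, `x, z < k`: `N x z = {c}`, `L z = {c}`,
to show `c ∉ cnv (L x)`: `c1a` with `w = z`, `N z x = {c}` (`Inv.symm_col`).  `x = y = k`: label
`{e}` does not contain `c`.  `x = z = k` or `y = z = k`: `{e} = {c}` is impossible.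
`c2`: `e ∈ N' x y`, `z ≤ k`.  `x, y < k`, `z < k`: `Inv.c2`; `z = k`: `c2a` gives `c ∈ L x`,
`c ∈ L y`, take `conv c`.  `x = k`, `y < k`: `e ∈ L y`; `z < k`: `c2b` (with `x := z`); `z = k`: take
`e` (`e ∈ N' k k`, `e ∈ cnv (L y)`).  `y = k`, `x < k`: `e ∈ cnv (L x)`, so `e ∈ L x`; `z < k`:
`c2b` (y := x, x := z) gives `c ∈ L z`, `c ∈ N x z`; `z = k`: take `e`.  `x = y = k`: any element of
`N' k z` (nonempty by `RowData.div`, or `e`). -/
def Stmt_COR : Prop :=
  ∀ (k : ℕ) (N : ℕ → ℕ → Finset At) (L : ℕ → Finset At), Inv k N → RowData k N L →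
    Inv (k + 1) (ext k N L)

/-- **ADD** (25, uses COR). Form for the demands.  Proof: `k' = k + 1`, `N' = ext k N L`, `z = k`:
`N' u k = cnv (L u)`, `N' k v = L v`. -/
def Stmt_ADD : Prop :=
  ∀ (k : ℕ) (N : ℕ → ℕ → Finset At) (L : ℕ → Finset At) (u v : ℕ) (α β : Finset At), Inv k N →
    RowData k N L → u < k → v < k → L u ⊆ cnv α → L v ⊆ β → Sat k N u v α β

/-- **GEN** (40). Rows generated by a family `P`.  Here `L = gL P F`: `x ∈ L w` iff `x ∈ F w` and
`proj x` is the value at `w` of a row of `P`.  Proof: for `P ω ρ` the condition `al` gives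
`RowOf k N L ω ρ` (`mem_gL`); this gives `ext` (with `ex`) and `real` (the row in `mem_gL`). The
other four fields are hypotheses. -/
def Stmt_GEN : Prop :=
  ∀ (k : ℕ) (N : ℕ → ℕ → Finset At) (P : (ℕ → ℕ → A4) → (ℕ → A4) → Prop) (F : ℕ → Finset At),
    (∀ ω ρ, P ω ρ → WorldOf k N ω ∧ Row k ω ρ) →
    (∀ ω, WorldOf k N ω → ∃ ρ, P ω ρ) →
    (∀ ω ρ, P ω ρ → ∀ w < k, ∃ x ∈ F w, proj x = ρ w) →
    (∀ w < k, ∃ c ∈ gL P F w, c ≠ e) →
    (∀ w < k, ∀ x < k, ∀ c, Col c → gL P F w = {c} → N w x = {c} → c ∉ gL P F x) →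
    (∀ x < k, ∀ y < k, ∀ c, Col c → gL P F x = {c} → gL P F y = {c} → c ∉ N x y) →
    (∀ x < k, ∀ y < k, e ∈ N x y → ∃ c, c ∈ gL P F x ∧ c ∈ gL P F y) →
    (∀ x < k, ∀ y < k, e ∈ gL P F y → ∃ c, c ∈ gL P F x ∧ c ∈ N y x) →
    RowData k N (gL P F)

/-- **TA** (150, uses FRW GEN ADD). Demand `({c}, {c})`, `c` a colour, `c ∉ N u v`.
Proof.  Let `c' = oc c`.  Rows: `P ω ρ` iff `WorldOf k N ω` and either `ρ = fr ω u v u J J J`
(base row, value `J` everywhere), or there is `q < k` with `ω u q ≠ E`, `ω v q ≠ E` and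
`ρ = fr ω u v q J J R` (`q`-row: value `R` on the class of `q`, `J` elsewhere).  They are rows by
FRW (`tri J y J` by `tri_J_J`; `tri J (ω u q) R` by `tri_J_left`).  `F u = F v = {c}`, and for
other `w`: `F w = univ` minus `c` if (`N u w = {c}` or `N v w = {c}`).  Put `L = gL P F`, apply
GEN and ADD (`cnv {c} = {c}`).
`al`: at `u`, `v` the value is `J = proj c`; at other `w`: `J = proj c'`, `R = proj r`.
For `w ≠ u, v`: `c' ∈ L w` (base row of any world; there is a world by `Inv.exact u u e`), and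
`c ∈ L u`, `c ∈ L v`.  This gives `div`.
(X) If `w ≠ u, v`, `L w = {c0}`, `c0` a colour: contradiction.  `c0 = c'`.  If `N u w ≠ {c}` and
`N v w ≠ {c}` then `c ∈ F w`, `c ∈ L w` (base row).  If `N u w = {c}`: take a world with `ω v w ≠ E`
(`Inv.world_ne`), there `ω u w = J` (`WorldOf.of_singleton`), so the `q`-row with `q = w` has value
`R` at `w` (`fr_q`): `r ∈ L w`.  If `N v w = {c}`: the same with a world with `ω u w ≠ E`.
`c1a`: `L w = {c0}`, `N w x = {c0}`.  By (X) `w = u` or `w = v`, `c0 = c` (`L w ⊆ {c}`).  `w = u`: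
`N u x = {c}`: `x ≠ u` (diag), `x ≠ v` (`c ∉ N u v`), so `c ∉ F x`.  `w = v`: `N v x = {c}`, `x ≠ v`,
`x ≠ u` (symm), `c ∉ F x`.
`c1b`: `x, y ∈ {u, v}`, `c0 = c`: `N u u = N v v = {e}`, `c ∉ N u v`, `c ∉ N v u` (symm).
`c2a`: `e ∈ N x y`.  Both not in `{u, v}`: `c'`.  Both in `{u, v}`: `c`.  `x = u`, `y ≠ u, v`:
`c ∈ L y`: `N u y ≠ {c}` as `e ∈ N u y`; `N v y ≠ {c}`: otherwise `Inv.c2` for `(u, y)` and `v` gives
`d ∈ N u v`, `d ∈ N y v = {c}`, so `c ∈ N u v`.  So `c ∈ F y`, and the base row gives `c ∈ L y`; and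
`c ∈ L u`.  `x = v`: the same (with `c ∉ N v u`); `y ∈ {u, v}`: symmetric (`Inv.e_symm`).
`c2b`: `e ∈ L y` is impossible (no row has the value `E`: `fr_val`). -/
def Stmt_TA : Prop :=
  ∀ (k : ℕ) (N : ℕ → ℕ → Finset At) (u v : ℕ) (c : At), Inv k N → u < k → v < k → u ≠ v →
    Col c → c ∉ N u v → Sat k N u v {c} {c}

/-- **TB** (170, uses FRW GEN ADD). Demand `({c}, {c'})`, `c' = oc c` the other colour,
`e ∉ N u v`.  Proof.  By `Sat.of_wit` we may assume that there is no witness, so there is no `z < k`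
with `N u z = {c}` and `N v z = {c'}` (`N z v = {c'}` iff `N v z = {c'}`, `Inv.symm_col`).  Rows `P`
as in TA.  `F u = {c}`, `F v = {c'}`, for other `w`: `F w = univ` minus `c` if `N u w = {c}`, minus
`c'` if `N v w = {c'}` (not both).
`al`: value `J` at `w ≠ u, v`: one of the colours is in `F w`; value `R`: `r`.
A colour in `F w` is in `L w` (base row).  So `div`.
(X) If `w ≠ u, v`, `L w = {c0}`, `c0` a colour: contradiction: if nothing is excluded both colours
are in `L w`; if `N u w = {c}`: world with `ω v w ≠ E`, `ω u w = J`, `q`-row with `q = w`: `r ∈ L w`;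
if `N v w = {c'}`: world with `ω u w ≠ E`, `ω v w = J`, the same.  (R): in these two cases `r ∈ L w`.
`c1a`: `L w = {c0}`, `N w x = {c0}`.  `w = u`: `c0 = c`, `N u x = {c}`, `x ≠ u`; if `x = v`:
`L v ⊆ {c'}`; else `c ∉ F x`.  `w = v`: `c0 = c'`, `N v x = {c'}`, `x ≠ v`; if `x = u`: `L u ⊆ {c}`;
else `c' ∉ F x`.
`c1b`: `x, y ∈ {u, v}`; `x ≠ y` impossible (`L u ⊆ {c}`, `L v ⊆ {c'}`), `x = y`: diag.
`c2a`: `e ∈ N x y`.  `x = u, y = v` or reversed: impossible.  `x = y`: any element of `L x`.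
`x = u`, `y ≠ u, v`: `c ∈ F y` (`e ∈ N u y`), so `c ∈ L y`, `c ∈ L u`.  `x = v`, `y ≠ u, v`:
`c' ∈ F y`, `c'` is in both.  Symmetric for `y ∈ {u, v}`.  `x, y ≠ u, v`: if some colour is in
`F x ∩ F y`, it is in both.  Otherwise (`N u x = {c}` and `N v y = {c'}`) or (`N v x = {c'}` and
`N u y = {c}`) and `r` is in both by (R).
`c2b`: no `e` in any `L y`. -/
def Stmt_TB : Prop :=
  ∀ (k : ℕ) (N : ℕ → ℕ → Finset At) (u v : ℕ) (c : At), Inv k N → u < k → v < k → u ≠ v →
    Col c → e ∉ N u v → Sat k N u v {c} {oc c}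

/-- **TC** (200, uses FRW GEN ADD). Demand `({c}, {d})`, `c` a colour, `d = r` or `s`,
`e ∉ N u v`.  Proof.  `c' = oc c`, `D = proj d ∈ {R, S}`.  Assume no witness: for no `z < k`
`N u z = {c}` and `N z v = {d}`.  `ω u v ≠ E` in every world (`WorldOf.ne_E`).  Rows: `P ω ρ` iff
`WorldOf k N ω` and either `ρ = fr ω u v u J D J` (base row) or there are `q < k`, `e3 ∈ {R, S}` with
`ω u q ≠ E`, `ω v q ≠ E`, `tri D (ω v q) e3 = true`, `ρ = fr ω u v q J D e3`.  They are rows by FRW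
(`tri_J_left`, `tri_J_right`, `tri_rot` ...).  `F u = {c}`, `F v = {d}`, other `w`: `F w = univ` minus
`c` if `N u w = {c}`.  `L = gL P F`.
`al`: value at `u`: `J`; at `v`: `D` (`ω u v ≠ E`, `ω v v = E`); other `w`: `J`: `c'`; `D`: `d`; `R`, `S`:
`r`, `s`.  `div`: `c ∈ L u`, `d ∈ L v`, other `w`: base row of some world: value `J`: `c'`, value `D`: `d`.
(X) `w ≠ u, v`, `L w = {c0}`, `c0` colour: contradiction.  Some row has value `J` at `w`
(`c0 ∈ L w`), so `c' ∈ L w`, `c0 = c'`.  If `N u w ≠ {c}` then `c ∈ L w` too.  If `N u w = {c}`: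
`N w v ≠ {d}` (no witness), so there is `x ∈ N w v`, `x ≠ d` (`N w v` is nonempty), and a world with
`ω w v = proj x`; `ω u w = J ≠ E`.  `x = e`: `ω v w = E`, base row has value `D` at `w`: `d ∈ L w`.
`x` a colour: `ω v w = J`, the `q`-row with `q = w`, `e3 = R`: `r ∈ L w`.  `x = conv d`:
`ω w v = cv4 D`, `ω v w = D`, `q`-row with `q = w`, `e3 = cv4 D` (`tri D D (cv4 D)`): `conv d ∈ L w`.
`c1a`: `L w = {c0}`, `c0` colour: `w = u` (`L v ⊆ {d}`), `c0 = c`: `N u x = {c}`: `x ≠ u`; `x = v`: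
`L v ⊆ {d}`; other: `c ∉ F x`.  `c1b`: `x = y = u`: diag.
`c2a`: `e ∈ N x y`.  `(u, v)`, `(v, u)` impossible.  Take a world with `ω x y = E` and its base row
`ρ`; `ρ x = ρ y` (`Row.eq_of_E`), value `J` or `D`.  `x = y`: clear.  `x = u`, `y` other: value `J`,
`c ∈ F y` as `e ∈ N u y`: `c` in both.  `x = v`, `y` other: value `D`: `d` in both.  `x, y ≠ u, v`: `J`:
`c'`, `D`: `d`.  Symmetric for `y ∈ {u, v}`.  `c2b`: no `e`. -/
def Stmt_TC : Prop :=
  ∀ (k : ℕ) (N : ℕ → ℕ → Finset At) (u v : ℕ) (c d : At), Inv k N → u < k → v < k → u ≠ v →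
    Col c → (d = r ∨ d = s) → e ∉ N u v → Sat k N u v {c} {d}

/-- **TD** (130, uses FRW GEN ADD). Demand `({c}, {a, b})`, `c` a colour, `e ∈ N u v`.
Proof: as TA with the same rows `P`, `F u = {c}`, `F v = {a, b}`, other `w`: `F w = univ` minus `c` if
`N u w = {c}`.  Colours in `F w` are in `L w` (base row).  (X) for `w ≠ u`, `L w` is not `{c0}`:
`w = v`: both colours are in `L v`; other `w`: both colours, or `N u w = {c}`: world with `ω v w ≠ E`,
`ω u w = J`, `q`-row `q = w`: `r ∈ L w` (and `c' ∈ L w`).  `c1a`: `w = u`, `c0 = c`, `N u x = {c}`: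
`x ≠ u`, `x ≠ v` (`e ∈ N u v`), `c ∉ F x`.  `c1b`: `x = y = u`.  `c2a`: `x = u` (or `y = u`): `c` is in
`L y`: `y = u`; `y = v` clear; other `y`: `N u y ≠ {c}` as `e ∈ N u y`.  `x, y ≠ u`: `c' = oc c` is in
both.  `c2b`: no `e`. -/
def Stmt_TD : Prop :=
  ∀ (k : ℕ) (N : ℕ → ℕ → Finset At) (u v : ℕ) (c : At), Inv k N → u < k → v < k → u ≠ v →
    Col c → e ∈ N u v → Sat k N u v {c} {a, b}

/-- **TE** (170, uses FRW GEN ADD). Demand `({c}, {c, d})`, `c` a colour, `d = r` or `s`,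
`e ∈ N u v`.  Proof.  `D = proj d`, `c' = oc c`.  Rows: `P ω ρ` iff `WorldOf k N ω` and one of:
(1) `ω u v = E` and `ρ = fr ω u v u J J J`; (2) `ω u v = E` and there is `q < k` with `ω u q ≠ E`,
`ω v q ≠ E`, `ρ = fr ω u v q J J R`; (3) `ω u v ≠ E` and `ρ = fr ω u v u J D J`.  `F u = {c}`,
`F v = {c, d}`, other `w`: `F w = univ` minus `c` if `N u w = {c}`.
`al`: `u`: `J`; `v`: `J` in (1), (2), `D` in (3); others: `J`: `c'`, `D`: `d`, `R`: `r`.
`c ∈ L u`; `c ∈ L v` (world with `ω u v = E`); `d ∈ L v` (world with `ω u v ≠ E`, `Inv.world_ne`);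
other `w`: `c' ∈ L w` (row (1) of a world with `ω u v = E` has value `J` everywhere).
(X) `w ≠ u`, `L w = {c0}`, `c0` colour: contradiction: `w = v`: `d ∈ L v`.  Other `w`: if
`N u w ≠ {c}`: both colours; if `N u w = {c}`: world with `ω u v = E`, `ω u w = J ≠ E`, hence
`ω v w = J`, row (2) with `q = w`: `r ∈ L w`, `c' ∈ L w`.
`c1a`: `w = u`, `c0 = c`, `N u x = {c}`: `x ≠ u, v`, `c ∉ F x`.  `c1b`: `x = y = u`.
`c2a`: `e ∈ N x y`.  `x = u`: `y = u`, `y = v`: `c`; other `y`: `N u y ≠ {c}`; take a world with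
`ω u y = E`, its row (1) or (3) has value `J` at `y`: `c ∈ L y`.  `x = v`: `y = v` clear; other `y`: take
a world with `ω v y = E`.  If `ω u v = E`: `ω u y = E`, so `N u y ≠ {c}` (`of_singleton`), row (1) has
value `J` at `y`: `c ∈ L y`, `c ∈ L v`.  If `ω u v ≠ E`: row (3) has value `D` at `y` (`fr_v`):
`d ∈ L y`, `d ∈ L v`.  `x, y ≠ u, v`: world with `ω x y = E`, row (1) or (3) has the same value `J`
or `D` at `x`, `y`: `c'` or `d`.  Symmetric for `y`.  `c2b`: no `e`. -/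
def Stmt_TE : Prop :=
  ∀ (k : ℕ) (N : ℕ → ℕ → Finset At) (u v : ℕ) (c d : At), Inv k N → u < k → v < k → u ≠ v →
    Col c → (d = r ∨ d = s) → e ∈ N u v → Sat k N u v {c} {c, d}

/-- **TG** (110, uses FRW GEN ADD). Demand `({d}, {c, conv d})`, `c` a colour, `d = r` or `s`,
`e ∈ N u v`.  Proof.  `D' = cv4 (proj d)`.  Rows: `P ω ρ` iff `WorldOf k N ω` and either
`ω u v = E` and `ρ = fr ω u v u D' D' D'`, or `ω u v ≠ E` and `ρ = fr ω u v u D' J D'`.
`F u = {conv d}`, `F v = {c, conv d}`, other `w`: `F w = univ`.  (`L u ⊆ cnv {d} = {conv d}`.)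
`al`: `u`: `D'`; `v`: `D'` (first kind), `J` (second kind); others clear.  `div`: `conv d ∈ L u`,
`conv d ∈ L v` (world with `ω u v = E`); others: the value of any row is not `E`.
(X) `L w = {c0}`, `c0` a colour, is impossible: `w = u`: `L u ⊆ {conv d}`; `w = v`: `conv d ∈ L v`;
others: `c0 ∈ L w` means value `J` for some row, so both colours are in `L w`.  So `c1a`, `c1b`.
`c2a`: world with `ω x y = E`, any row of `P`: same value at `x`, `y`.  Value `D'` : `conv d` is in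
both; value `J`: `x, y ≠ u`, `c` is in both.  `c2b`: no row has the value `E`. -/
def Stmt_TG : Prop :=
  ∀ (k : ℕ) (N : ℕ → ℕ → Finset At) (u v : ℕ) (c d : At), Inv k N → u < k → v < k → u ≠ v →
    Col c → (d = r ∨ d = s) → e ∈ N u v → Sat k N u v {d} {c, conv d}

/-- **TH** (150, uses FRW GEN ADD). Demand with `α, β ⊆ {e, r, s}`.  Proof.  By `Sat.of_wit` assume
no witness.  Rows: `P ω ρ` iff `WorldOf k N ω`, `Row k ω ρ`, `∃ d ∈ α, ρ u = cv4 (proj d)`,
`∃ d' ∈ β, ρ v = proj d'`.  `F w = univ`.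
`ex`: let `ω` be a world.  `ω u v = proj x` with `x ∈ N u v ⊆ cmp α β`, so `x ∈ comp d d'`, `d ∈ α`,
`d' ∈ β`.  If `d = e`: `x = d'`, take `ρ = fun w => ω u w` (a row by `World.tri`): `ρ u = E`,
`ρ v = proj d'`.  If `d' = e`: `x = d`, `ρ = fun w => ω v w`: `ρ v = E`, `ρ u = cv4 (proj d)`.  Otherwise
`ρ = fr ω u v u (cv4 (proj d)) (proj d') (cv4 (proj d))`: by FRW, with `tri (cv4 (proj d)) (ω u v)
(proj d')` from `tri_of_comp` and `tri_rot2`; its value at `u` is `cv4 (proj d)`; at `v`: if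
`ω u v ≠ E` it is `proj d'`; if `ω u v = E` it is `cv4 (proj d) = proj d'` (`tri_E_mid`).
`div`: suppose `c = e` for all `c ∈ gL P F w`.  Then every row of `P` has value `E` at `w` (take an
atom with the given projection).  Then `w` is a witness: for `y ∈ N u w` take a world with
`ω u w = proj y` and a row of `P`: `tri (ρ u) (proj y) E` gives `proj y = cv4 (ρ u) = proj d`, `d ∈ α`,
`d ∈ {e, r, s}`, so `y = d` (`proj_inj`).  For `y ∈ N w v`: world with `ω w v = proj y`, row: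
`tri E (proj y) (ρ v)`, so `proj y = ρ v = proj d'`, `y = d' ∈ β`.  Contradiction.
`c1a`, `c1b`: if a colour is in `gL P F w`, both are (same projection), so it is never `{c0}`.
`c2a`: world with `ω x y = E`, a row of `P`, equal values at `x`, `y`; take an atom with this
projection.  `c2b`: `e ∈ gL P F y`: a world and a row with `ρ y = E`; `tri E (ω y x) (ρ x)`:
`ρ x = ω y x = proj c` with `c ∈ N y x`; then `c ∈ gL P F x`.
`L u ⊆ cnv α`: `x ∈ L u`: `proj x = cv4 (proj d) = proj (conv d)`, so `x = conv d`.  `L v ⊆ β`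
similarly. -/
def Stmt_TH : Prop :=
  ∀ (k : ℕ) (N : ℕ → ℕ → Finset At) (u v : ℕ) (α β : Finset At), Inv k N → u < k → v < k →
    α ⊆ {e, r, s} → β ⊆ {e, r, s} → N u v ⊆ cmp α β → Sat k N u v α β

/-- **TI** (150, uses FRW GEN ADD). Demand `({e, c}, {e, d})`, `c` a colour, `d ≠ e`, `d ≠ c`,
`e ∈ N u v`.  Proof.  `D = proj d` (`J`, `R` or `S`; if `J` then `d = oc c`).  Rows: `P ω ρ` iff
`WorldOf k N ω` and either `ω u v = E` and `ρ = fun w => ω u w`, or `ω u v ≠ E` and
`ρ = fr ω u v u J D J`.  `F u = {e, c}`, `F v = {e, d}`, other `w`: `F w = univ`.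
(`cnv {e, c} = {e, c}`.)  `al`: `u`: `E` or `J`; `v`: `E` or `D`; others clear.
`e ∈ L u`, `e ∈ L v` (world with `ω u v = E`), `c ∈ L u`, `d ∈ L v` (world with `ω u v ≠ E`).
`div`: `u`: `c`; `v`: `d`; others: world with `ω u v ≠ E`, the value of its row is not `E`.
(X) `L w = {c0}`, `c0` colour: impossible: `w = u, v`: `e ∈ L w`; others: both colours are in `L w`.
`c2a`: world with `ω x y = E`, its row in `P`, value `δ` at `x` and `y`.  `x = y` clear.  If
`{x, y} = {u, v}`: `e`.  If `δ ≠ J`: the atom with projection `δ` is in both (at `u`: `δ = E`; at `v`: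
`δ = E` or `δ = D`, `d`).  If `δ = J`: if `x = u` or `y = u`: `c`; if `x = v` or `y = v`: then `D = J`, `d`;
else any colour.
`c2b`: `e ∈ L y`: a row with `ρ y = E`, so it is of the first kind (`fr` never has the value `E`):
`ω u v = E`, `ω u y = E`, `ρ x = ω u x = ω y x` (`World.eq_left`), `= proj x0` with `x0 ∈ N y x`.  If
`x ≠ u, v`: `x0 ∈ L x`.  If `x = u` or `x = v`: `ω u x = E`, so `x0 = e`, and `e ∈ L x`. -/
def Stmt_TI : Prop :=
  ∀ (k : ℕ) (N : ℕ → ℕ → Finset At) (u v : ℕ) (c d : At), Inv k N → u < k → v < k → u ≠ v →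
    Col c → d ≠ e → d ≠ c → e ∈ N u v → Sat k N u v {e, c} {e, d}

/-- **RED** (150, uses TA TB TC TD TE TG TH TI). All demands at two different points.  Proof.
Trivial cases: `α = {e}`-like: if `e ∈ α` and `N u v ⊆ β`, the witness is `u` (`N u u = {e}`); if
`e ∈ β` and `N u v ⊆ α`, the witness is `v` (`Sat.of_wit`).  If `α, β ⊆ {e, r, s}`: TH.  `N u v`
nonempty gives `d ∈ α`, `d' ∈ β`.  Always use `Sat.mono`, and `Sat.rev` for the reversed demands
(`Inv.e_symm`; `c ∉ N v u` for colours).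
Case `e ∉ N u v`.  If there are `d ∈ α`, `d' ∈ β`, both `≠ e`, `d ≠ d'`, and one of them is a colour:
both colours: TB (`d' = oc d`); `d` colour, `d' ∈ {r, s}`: TC; `d ∈ {r, s}`, `d'` colour: reversed TC
(`Sat.rev`, TC for `(v, u)`, `c = d'`, `d = conv d`).  Otherwise let `x ∈ N u v`, `x ≠ e` (div),
`x ∈ comp d d'`, `d ∈ α`, `d' ∈ β`.  If `d = e` is the only element of `α` (`α ⊆ {e}`): `comp e y = {y}`,
so `N u v ⊆ β`, trivial case; same for `β ⊆ {e}`.  So `α`, `β` have elements `≠ e`.  As there is no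
mixed pair: either there is a colour `c` with `α ⊆ {e, c}`, `β ⊆ {e, c}`, `c ∈ α`, `c ∈ β`, or
`α, β ⊆ {e, r, s}` (TH).  In the first case `α = β = {c}` as `(α, β)` is not exceptional, and
`c ∉ N u v` as `N u v ⊆ cmp {c} {c}` does not contain `c` (decide): TA.
Case `e ∈ N u v`.  (1) There is a colour `c ∈ α`, `c ∈ β`.  If `c ∉ N u v`: TA.  Otherwise some
element `x ≠ c, e` is in `α` or `β`: if not, `α, β ⊆ {e, c}`; not exceptional gives `e ∉ α`, `e ∉ β`,
so `α = β = {c}`, and `c ∉ cmp {c} {c}`, contradiction.  If `x ∈ β`: `x = oc c`: TD (`{a, b} ⊆ β`);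
`x ∈ {r, s}`: TE.  If `x ∈ α`: reversed TD, TE (at `(v, u)`, with `cnv`: `conv c = c`).
(2) No colour is in both.  If there are `d ∈ {r, s}`, `d ∈ α`, `conv d ∈ β`: if some colour
`c ∈ β`: TG.  If some colour `c ∈ α`: reversed TG at `(v, u)` with `conv d ∈ β`: `cnv β ∋ d`,
`cnv α ∋ c, conv d`: TG gives `Sat k N v u {d} {c, conv d}`.  If no colours in `α`, `β`: TH.
(3) Otherwise: `e ∈ cmp α β` gives `d ∈ α`, `d' ∈ β`, `e ∈ comp d d'`, so `d' = conv d` (decide), so
`d = d' = e` by the exclusion of (1) and (2).  If there is a colour `c ∈ α`: if `β ⊆ {e}`, then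
`N u v ⊆ cmp α {e} = α`: trivial case.  Else `d ∈ β`, `d ≠ e`, `d ≠ c`: TI.  If there is a colour
`c ∈ β`: symmetric, reversed TI at `(v, u)`: `{e, c} ⊆ cnv β`, `{e, conv d} ⊆ cnv α` with `d ∈ α`,
`d ≠ e`, `conv d ≠ c`.  No colours: TH. -/
def Stmt_RED : Prop :=
  ∀ (k : ℕ) (N : ℕ → ℕ → Finset At) (u v : ℕ) (α β : Finset At), Inv k N → u < k → v < k →
    u ≠ v → ¬ Exc α β → N u v ⊆ cmp α β → Sat k N u v α β

/-- **DIA** (60, uses RED). Demands at one point.  Proof: `{e} = N u u ⊆ cmp α β` gives `d ∈ α`,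
`d' ∈ β`, `e ∈ comp d d'`, so `d' = conv d` (decide).  If `d = e` the witness is `u` itself.  Otherwise
take `v < k`, `v ≠ u` (`2 ≤ k`: `0` or `1`) and apply RED at `(u, v)` to `({d}, {a, b})` if `d` is a
colour, to `({d}, {a, conv d})` if `d = r` or `s`: the product is `univ` (decide), the pair is not
exceptional (`β` is not contained in `{e, c}`).  We get `N'` and `z` with `N' u z ⊆ {d}`, so
`N' u z = {d}` (`Inv.nonempty`), `N' z u = {conv d} ⊆ β` (`Inv.symm_singleton`). -/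
def Stmt_DIA : Prop :=
  ∀ (k : ℕ) (N : ℕ → ℕ → Finset At) (u : ℕ) (α β : Finset At), Inv k N → 2 ≤ k → u < k →
    N u u ⊆ cmp α β → Sat k N u u α β

/-- **PCL** (70). Path consistency.  Proof: let `c ∈ N x y`.  If `c = e`: `Inv.c2` gives
`d ∈ N x z`, `d ∈ N y z`, so `conv d ∈ N z y`, `e ∈ comp d (conv d)`.  If `x = z`: `N x z = {e}`,
`comp e c = {c}`.  If `z = y`: same.  If `c = r` or `s`: `Inv.exact` gives a world with
`ω x y = proj c`, `ω x z = proj d`, `ω z y = proj d'`, `d ∈ N x z`, `d' ∈ N z y`, `tri (proj d)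
(proj d') (proj c)`, hence `c ∈ comp d d'` (decide, for `c = r, s`).  If `c` is a colour: `d ∈ N x z`,
`d' ∈ N z y`, both `≠ e` (div).  `c ∈ comp d d'` unless `d = d' = c` (decide).  So assume `c` is the only
element `≠ e` of `N x z` and of `N z y`.  If `e ∈ N x z`: `c ∈ comp e c`; if `e ∈ N z y`:
`c ∈ comp c e`.  Otherwise both labels are `{c}`, contradiction to `Inv.c1`. -/
def Stmt_PCL : Prop :=
  ∀ (k : ℕ) (N : ℕ → ℕ → Finset At), Inv k N → ∀ x < k, ∀ y < k, ∀ z < k,
    N x y ⊆ cmp (N x z) (N z y)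

/-- **BAS** (40). The network on two points with label `{a}`: `N x y = if x = y then {e} else {a}`.
Proof: world `ω x y = if x = y then E else J`; everything by `interval_cases`. -/
def Stmt_BAS : Prop := ∃ N : ℕ → ℕ → Finset At, Inv 2 N

/-- **LIM** (150). The limit.  A limit network on `ℕ` (partially defined by the subtype `U`).
Hypothesis `H`: every demand can be satisfied (RED and DIA together).  Proof: enumerate
`D : ℕ → ℕ × ℕ × Finset At × Finset At` so that every demand occurs infinitely often (a surjection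
`g` from `ℕ` onto `ℕ × (ℕ × ℕ × Finset At × Finset At)` (Denumerable / Encodable), second component;
or `Nat.unpair`).  Build a sequence `S i = (k_i, N_i)` with `2 ≤ k_i`, `Inv k_i N_i`, `k_i ≤ k_(i+1)`,
`N_(i+1) = N_i` on points `< k_i`, such that if `D i = (u, v, α, β)` with `u, v < k_i`,
`¬ Exc α β`, `N_i u v ⊆ cmp α β` then there is `z < k_(i+1)` with `N_(i+1) u z ⊆ α`,
`N_(i+1) z v ⊆ β`.  Put `K x ↔ ∃ i, x < k_i`, `M x y = N_i x y` for the least `i` with `x, y < k_i`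
(then for all such `i` by monotonicity).  All properties are inherited; for the last one use that
the demand `(u, v, α, β)` occurs at some `i` with `u, v < k_i`. -/
def Stmt_LIM : Prop :=
  (∀ (k : ℕ) (N : ℕ → ℕ → Finset At) (u v : ℕ) (α β : Finset At), Inv k N → 2 ≤ k → u < k →
    v < k → ¬ Exc α β → N u v ⊆ cmp α β → Sat k N u v α β) →
  (∃ N : ℕ → ℕ → Finset At, Inv 2 N) →
  ∃ (K : ℕ → Prop) (M : ℕ → ℕ → Finset At), K 0 ∧
    (∀ x y z, K x → K y → K z → ∃ (k : ℕ) (N : ℕ → ℕ → Finset At), Inv k N ∧ x < k ∧ y < k ∧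
      z < k ∧ N x y = M x y ∧ N x z = M x z ∧ N z y = M z y ∧ N y x = M y x ∧ N x x = M x x) ∧
    (∀ u v α β, K u → K v → ¬ Exc α β → M u v ⊆ cmp α β →
      ∃ z, K z ∧ M u z ⊆ α ∧ M z v ⊆ β)

/-- The conclusion. -/
def Stmt_MAIN : Prop :=
  ∃ (U : Type) (h : Finset At → Set (U × U)),
    Function.Injective h ∧ h ∅ = ∅ ∧ (∀ α β, h (α ∩ β) = h α ∩ h β) ∧
    h {e} = {p | p.1 = p.2} ∧ (∀ α, h (cnv α) = {p | (p.2, p.1) ∈ h α}) ∧
    (∀ α β, rc (h α) (h β) ⊆ h (cmp α β)) ∧
    (∀ α β, ¬ Exc α β → h (cmp α β) = rc (h α) (h β))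

/-- **FIN** (130, uses LIM RED DIA PCL BAS). Proof: LIM with `H` from RED (`u ≠ v`) and DIA
(`u = v`), and BAS.  `U = {x // K x}`, `h α = {p | M p.1 p.2 ⊆ α}`.  For `x, y ∈ U` all labels of
the triple are labels of a network with `Inv` (first property of LIM).  `h ∅ = ∅`: labels are
nonempty.  Meet: `Finset.subset_inter`.  `h {e}`: `M x x = {e}`; `x ≠ y`: an element `≠ e` (div).
Converse: `Inv.cnv_eq`.  `rc (h α) (h β) ⊆ h (cmp α β)`: PCL and monotonicity of `cmp`.  Equality: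
second property.  Injective: for every atom `c` there is a pair with `M x y = {c}`: demand
`({c}, {conv c})` at `(0, 0)`: `M 0 0 = {e} ⊆ cmp {c} {conv c}` (decide), not exceptional; so
`M 0 z ⊆ {c}`, nonempty.  If `h α = h β` and `c ∈ α`, then `(0, z) ∈ h α = h β`, so `{c} ⊆ β`. -/
def Stmt_FIN : Prop := Stmt_MAIN

end Pool.WR
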